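import Pool.Agent.Q61.CV.Stm

set_option autoImplicit false

open MeasureTheory Set Filter Topology Metric
open scoped ContDiff RealInnerProductSpace ComplexConjugate NNReal

namespace Pool.Agent.Q79.CV

open Pool.Agent.Q61.CV

theorem c1 : S_C1 := by
  intro k η hk
  have hk0 : (k : ℂ) ≠ 0 := by exact_mod_cast (by omega : k ≠ 0)
  have hk1 : (k : ℂ) + 1 ≠ 0 := by exact_mod_cast (by omega : k + 1 ≠ 0)
  have hk2 : 2 * (k : ℂ) + 1 ≠ 0 := by exact_mod_cast (by omega : 2 * k + 1 ≠ 0)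
  have h1 : HasDerivAt (fun x : ℂ => x ^ k) ((k : ℂ) * η ^ (k - 1)) η := hasDerivAt_pow k η
  have h2 : HasDerivAt (fun x : ℂ => x ^ (2 * k)) (((2 * k : ℕ) : ℂ) * η ^ (2 * k - 1)) η :=
    hasDerivAt_pow (2 * k) η
  have h3 := (hasDerivAt_id η).mul (((h1.const_mul (e1 k : ℂ)).const_add 1).add
    (h2.const_mul (e2 k : ℂ)))
  have h4 : HasDerivAt (EE k) _ η := h3
  refine h4.congr_deriv ?_
  have e1' : η * η ^ (k - 1) = η ^ k := by
    rw [← pow_succ']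
    congr 1
    omega
  have e2' : η * η ^ (2 * k - 1) = η ^ (2 * k) := by
    rw [← pow_succ']
    congr 1
    omega
  have e3 : (e1 k : ℂ) * (k + 1) = 2 * bb k := by
    unfold e1
    push_cast
    field_simp
  have e4 : (e2 k : ℂ) * (2 * k + 1) = bb k ^ 2 := by
    unfold e2
    push_cast
    field_simp
  simp only [id_eq, Pi.add_apply]
  push_cast
  calc 1 * (1 + (e1 k : ℂ) * η ^ k + (e2 k : ℂ) * η ^ (2 * k)) +
        η * ((e1 k : ℂ) * ((k : ℂ) * η ^ (k - 1)) + (e2 k : ℂ) * (2 * (k : ℂ) * η ^ (2 * k - 1)))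
      = 1 + (e1 k : ℂ) * η ^ k + (e2 k : ℂ) * η ^ (2 * k) +
        ((e1 k : ℂ) * k * (η * η ^ (k - 1)) + (e2 k : ℂ) * (2 * k) * (η * η ^ (2 * k - 1))) := by
        ring
    _ = 1 + (e1 k : ℂ) * (k + 1) * η ^ k + (e2 k : ℂ) * (2 * k + 1) * η ^ (2 * k) := by
        rw [e1', e2']
        ring
    _ = (1 + bb k * η ^ k) ^ 2 := by
        rw [e3, e4, pow_mul']
        ring

theorem c2 : S_C2 := by
  intro k η hk hη
  have hk0 : (k : ℂ) ≠ 0 := by exact_mod_cast (by omega : k ≠ 0)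
  have h1 : HasDerivAt (fun x : ℂ => x ^ k) ((k : ℂ) * η ^ (k - 1)) η := hasDerivAt_pow k η
  have h2 : HasDerivAt (fun x : ℂ => x ^ (2 * k)) (((2 * k : ℕ) : ℂ) * η ^ (2 * k - 1)) η :=
    hasDerivAt_pow (2 * k) η
  have hn1 : η ^ k ≠ 0 := pow_ne_zero _ hη
  have hn2 : (2 : ℂ) * η ^ (2 * k) ≠ 0 := mul_ne_zero two_ne_zero (pow_ne_zero _ hη)
  have h3 := ((((h2.const_mul ((q2 k : ℂ) / 2)).add (h1.const_mul (q1 k : ℂ))).sub
    ((hasDerivAt_const η (qm1 k : ℂ)).div h1 hn1)).sub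
    ((hasDerivAt_const η (qm2 k : ℂ)).div (h2.const_mul 2) hn2)).const_mul (1 / k : ℂ)
  have h4 : HasDerivAt (HH k) _ η := h3.const_add (H0 k : ℂ)
  refine ⟨h4.differentiableAt, ?_⟩
  rw [h4.deriv]
  have e1' : η ^ (k - 1) = η ^ k / η := by
    rw [eq_div_iff hη, ← pow_succ]
    congr 1
    omega
  have e2' : η ^ (2 * k - 1) = η ^ (2 * k) / η := by
    rw [eq_div_iff hη, ← pow_succ]
    congr 1
    omega
  have e3 : η ^ (2 * k) = (η ^ k) ^ 2 := by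
    rw [← pow_mul, mul_comm]
  rw [e1', e2', e3]
  push_cast
  generalize η ^ k = X at hn1
  field_simp
  ring

theorem circ {X : ℂ} (hX : ‖X‖ = 1) : X.re ^ 2 + X.im ^ 2 = 1 := by
  have h1 := Complex.sq_norm X
  rw [hX, Complex.normSq_apply] at h1
  linarith

theorem inv_circ {X : ℂ} (hX : ‖X‖ = 1) : X⁻¹ = conj X := by
  have h1 : conj X * X = 1 := by
    rw [mul_comm, Complex.mul_conj, Complex.normSq_eq_norm_sq, hX]
    norm_num
  exact (eq_inv_of_mul_eq_one_left h1).symm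

theorem norm_sq_re_im (z : ℂ) : ‖z‖ ^ 2 = z.re ^ 2 + z.im ^ 2 := by
  rw [Complex.sq_norm, Complex.normSq_apply]
  ring

theorem c3 : S_C3 := by
  intro k η hk hη
  have hk0 : (k : ℝ) ≠ 0 := by exact_mod_cast (by omega : k ≠ 0)
  have hk1 : (k : ℝ) + 1 ≠ 0 := by exact_mod_cast (by omega : k + 1 ≠ 0)
  have hk2 : 2 * (k : ℝ) + 1 ≠ 0 := by exact_mod_cast (by omega : 2 * k + 1 ≠ 0)
  have hX : ‖η ^ k‖ = 1 := by rw [norm_pow, hη, one_pow]
  have e3 : η ^ (2 * k) = (η ^ k) ^ 2 := by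
    rw [← pow_mul, mul_comm]
  have hE : ‖EE k η‖ ^ 2 = ‖1 + (e1 k : ℂ) * η ^ k + (e2 k : ℂ) * (η ^ k) ^ 2‖ ^ 2 := by
    unfold EE
    rw [norm_mul, hη, one_mul, e3]
  have hH : HH k η = H0 k + (1 / k : ℂ) * (q2 k / 2 * (η ^ k) ^ 2 + q1 k * η ^ k -
      qm1 k * conj (η ^ k) - qm2 k / 2 * conj (η ^ k) ^ 2) := by
    unfold HH
    rw [e3, ← inv_circ hX]
    have hn : η ^ k ≠ 0 := by
      intro h
      rw [h, norm_zero] at hX
      exact zero_ne_one hX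
    field_simp
  rw [hE, hH]
  generalize η ^ k = X at hX
  have hxy := circ hX
  have hre : (H0 k + (1 / k : ℂ) * (q2 k / 2 * X ^ 2 + q1 k * X -
      qm1 k * conj X - qm2 k / 2 * conj X ^ 2)).re = H0 k + 1 / k * (q2 k / 2 *
        (X.re ^ 2 - X.im ^ 2) + q1 k * X.re - qm1 k * X.re -
        qm2 k / 2 * (X.re ^ 2 - X.im ^ 2)) := by
    have h1 : (1 / k : ℂ) = ((1 / k : ℝ) : ℂ) := by push_cast; rfl
    have h2 : (q2 k : ℂ) / 2 = ((q2 k / 2 : ℝ) : ℂ) := by push_cast; rfl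
    have h3 : (qm2 k : ℂ) / 2 = ((qm2 k / 2 : ℝ) : ℂ) := by push_cast; rfl
    rw [h1, h2, h3, Complex.add_re, Complex.ofReal_re, Complex.re_ofReal_mul, Complex.sub_re,
      Complex.sub_re, Complex.add_re, Complex.re_ofReal_mul, Complex.re_ofReal_mul,
      Complex.re_ofReal_mul, Complex.re_ofReal_mul, pow_two, pow_two, Complex.mul_re,
      Complex.mul_re, Complex.conj_re, Complex.conj_im]
    ring
  rw [hre, norm_sq_re_im]
  have hP1 : (1 + (e1 k : ℂ) * X + (e2 k : ℂ) * X ^ 2).re =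
      1 + e1 k * X.re + e2 k * (X.re ^ 2 - X.im ^ 2) := by
    rw [Complex.add_re, Complex.add_re, Complex.re_ofReal_mul, Complex.re_ofReal_mul, pow_two,
      Complex.mul_re, Complex.one_re]
    ring
  have hP2 : (1 + (e1 k : ℂ) * X + (e2 k : ℂ) * X ^ 2).im =
      e1 k * X.im + e2 k * (2 * X.re * X.im) := by
    rw [Complex.add_im, Complex.add_im, Complex.im_ofReal_mul, Complex.im_ofReal_mul, pow_two,
      Complex.mul_im, Complex.one_im]
    ring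
  rw [hP1, hP2]
  have hA : (q1 k - qm1 k) / k = (e1 k + e1 k * e2 k) / 2 := by
    unfold q1 qm1 e1 e2 bb
    field_simp
    ring
  have hB : (q2 k - qm2 k) / (2 * k) = e2 k / 2 := by
    unfold q2 qm2 e2 bb
    field_simp
    ring
  have hH0 : H0 k = (1 + e1 k ^ 2 + e2 k ^ 2) / 4 := rfl
  have h5 : 1 / (k : ℝ) * (q2 k / 2 * (X.re ^ 2 - X.im ^ 2) + q1 k * X.re - qm1 k * X.re -
        qm2 k / 2 * (X.re ^ 2 - X.im ^ 2)) =
      (q1 k - qm1 k) / k * X.re + (q2 k - qm2 k) / (2 * k) * (X.re ^ 2 - X.im ^ 2) := by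
    field_simp
    ring
  rw [h5, hA, hB, hH0]
  linear_combination (-(1 / 4) * (e1 k ^ 2 + e2 k ^ 2 * (X.re ^ 2 + X.im ^ 2 + 1) +
    2 * e1 k * e2 k * X.re)) * hxy

theorem c4_of (h1 : S_C1) (h2 : S_C2) : S_C4 := by
  intro k η hk hη
  have hη0 : η ≠ 0 := by
    rintro rfl
    rw [norm_zero] at hη
    exact zero_ne_one hη
  have hX : ‖η ^ k‖ = 1 := by rw [norm_pow, hη, one_pow]
  have e3 : η ^ (2 * k) = (η ^ k) ^ 2 := by
    rw [← pow_mul, mul_comm]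
  rw [(h1 k η hk).deriv, (h2 k η hk hη0).2]
  have hn : η ^ k ≠ 0 := pow_ne_zero _ hη0
  have hconj : conj (EE k η) * (η * (1 + bb k * η ^ k) ^ 2) =
      conj (1 + (e1 k : ℂ) * η ^ k + (e2 k : ℂ) * (η ^ k) ^ 2) * (1 + bb k * η ^ k) ^ 2 := by
    unfold EE
    rw [map_mul, e3]
    have h3 : conj η * η = 1 := by
      rw [mul_comm, Complex.mul_conj, Complex.normSq_eq_norm_sq, hη]
      norm_num
    calc conj η * conj (1 + (e1 k : ℂ) * η ^ k + (e2 k : ℂ) * (η ^ k) ^ 2) *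
          (η * (1 + bb k * η ^ k) ^ 2)
        = (conj η * η) * (conj (1 + (e1 k : ℂ) * η ^ k + (e2 k : ℂ) * (η ^ k) ^ 2) *
          (1 + bb k * η ^ k) ^ 2) := by ring
      _ = _ := by rw [h3, one_mul]
  rw [hconj]
  have hq : (q2 k : ℂ) * η ^ (2 * k) + q1 k * η ^ k + qm1 k / η ^ k + qm2 k / η ^ (2 * k) =
      (q2 k : ℂ) * (η ^ k) ^ 2 + q1 k * η ^ k + qm1 k * conj (η ^ k) +
        qm2 k * conj (η ^ k) ^ 2 := by
    rw [e3, ← inv_circ hX]
    field_simp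
  rw [hq, norm_pow]
  clear hq hconj
  generalize η ^ k = X at hX
  have hxy := circ hX
  rw [norm_sq_re_im, Complex.sub_re]
  have h4 : (conj (1 + (e1 k : ℂ) * X + (e2 k : ℂ) * X ^ 2) * (1 + bb k * X) ^ 2 / 2).re =
      ((1 + e1 k * X.re + e2 k * (X.re ^ 2 - X.im ^ 2)) *
        (1 + 2 * bb k * X.re + bb k ^ 2 * (X.re ^ 2 - X.im ^ 2)) +
      (e1 k * X.im + e2 k * (2 * X.re * X.im)) *
        (2 * bb k * X.im + bb k ^ 2 * (2 * X.re * X.im))) / 2 := by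
    have h2' : (2 : ℂ) = ((2 : ℝ) : ℂ) := by norm_num
    have h5 : (1 + bb k * X) ^ 2 = 1 + ((2 * bb k : ℝ) : ℂ) * X + ((bb k ^ 2 : ℝ) : ℂ) * X ^ 2 := by
      push_cast
      ring
    rw [h5]
    conv_lhs => rw [h2', Complex.div_ofReal_re]
    rw [Complex.mul_re, Complex.conj_re, Complex.conj_im]
    simp only [Complex.add_re, Complex.add_im, Complex.ofReal_re, Complex.ofReal_im,
      pow_two, Complex.mul_re, Complex.mul_im, Complex.one_re, Complex.one_im]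
    ring
  have h5 : ((q2 k : ℂ) * X ^ 2 + q1 k * X + qm1 k * conj X + qm2 k * conj X ^ 2).re =
      (q2 k + qm2 k) * (X.re ^ 2 - X.im ^ 2) + (q1 k + qm1 k) * X.re := by
    simp only [Complex.add_re, Complex.ofReal_re, Complex.ofReal_im, pow_two, Complex.mul_re,
      Complex.mul_im, Complex.conj_re, Complex.conj_im]
    ring
  have h6 : (1 + (bb k : ℂ) * X).re = 1 + bb k * X.re := by
    rw [Complex.add_re, Complex.re_ofReal_mul, Complex.one_re]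
  have h7 : (1 + (bb k : ℂ) * X).im = bb k * X.im := by
    rw [Complex.add_im, Complex.im_ofReal_mul, Complex.one_im, zero_add]
  rw [h4, h5, h6, h7]
  have hcc : cc k * (2 * (1 + bb k ^ 2)) = -(1 + 2 * bb k * e1 k + bb k ^ 2 * e2 k) := by
    unfold cc
    have : (2 * (1 + bb k ^ 2)) ≠ 0 := by positivity
    rw [neg_mul, div_mul_cancel₀ _ this]
  have hq2 : q2 k = bb k ^ 2 / 2 := rfl
  have hqm2 : qm2 k = e2 k / 2 := rfl
  have hq1 : q1 k = bb k + bb k ^ 2 * e1 k / 2 + cc k * bb k := rfl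
  have hqm1 : qm1 k = (e1 k + 2 * bb k * e2 k) / 2 + cc k * bb k := rfl
  rw [hq2, hqm2, hq1, hqm1]
  linear_combination (-(1 / 2)) * hcc + (-cc k * bb k ^ 2 - (1 / 2) * (e1 k * (2 * bb k) +
    e1 k * bb k ^ 2 * X.re + e2 k * 2 * bb k * X.re +
    e2 k * bb k ^ 2 * (X.re ^ 2 + X.im ^ 2 + 1))) * hxy

theorem c4 : S_C4 := c4_of c1 c2

end Pool.Agent.Q79.CV
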