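import Pool.Agent.Q79.CV.C8

set_option autoImplicit false

open MeasureTheory Set Filter Topology Metric
open scoped ContDiff RealInnerProductSpace ComplexConjugate NNReal

namespace Pool.Agent.Q79.CV

open Pool.Agent.Q61.CV

/-- `H ∘ Θ + P` as a function of `s = ζ ^ k`. -/
noncomputable def Gs (k : ℕ) (y : ℕ → ℂ) (A : ℝ) (s : ℂ) : ℂ :=
  H0 k + A + 1 / k * (q2 k / 2 * se y s ^ 2 + q1 k * se y s) + conj (B1 k (y 1)) * s +
    B2 k * s ^ 2 - qm1 k / k * dslope (fun s => Complex.exp (Psi y s)) 0 s -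
    qm2 k / (2 * k) * dslope (dslope (fun s => Complex.exp (2 * Psi y s)) 0) 0 s

theorem c10 (h5 : S_C5) : S_C10 := by
  filter_upwards [eventually_ge_atTop 100] with k hk
  intro y A hD
  have hk1 : 1 ≤ k := by omega
  have hk0 : (0 : ℝ) < k := by exact_mod_cast hk1
  have hkC : (k : ℂ) ≠ 0 := by
    exact_mod_cast (by omega : k ≠ 0)
  obtain ⟨d1, d2, d3, -⟩ := h5 k y A hk1 hD
  have hnhds : ball (0 : ℂ) 2 ∈ 𝓝 (0 : ℂ) := isOpen_ball.mem_nhds (mem_ball_self (by norm_num))
  have hd : ∀ s ∈ ball (0 : ℂ) 2, DifferentiableAt ℂ (psi y) s := fun s hs =>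
    (d2 s hs).differentiableAt (isOpen_ball.mem_nhds hs)
  have hPsi : ∀ s ∈ ball (0 : ℂ) 2, HasDerivAt (Psi y) (deriv (psi y) s) s := fun s hs =>
    (hd s hs).hasDerivAt.const_add (kp : ℂ)
  have hPsi0 : Psi y 0 = kp := by
    unfold Psi
    rw [d1, add_zero]
  have hf1 : DifferentiableOn ℂ (fun s => Complex.exp (Psi y s)) (ball 0 2) := fun s hs =>
    (hPsi s hs).cexp.differentiableAt.differentiableWithinAt
  have hf2 : DifferentiableOn ℂ (fun s => Complex.exp (2 * Psi y s)) (ball 0 2) := fun s hs =>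
    ((hPsi s hs).const_mul 2).cexp.differentiableAt.differentiableWithinAt
  have hg1 := (Complex.differentiableOn_dslope hnhds).2 hf1
  have hg2 := (Complex.differentiableOn_dslope hnhds).2 ((Complex.differentiableOn_dslope hnhds).2 hf2)
  have hd2 : deriv (fun s => Complex.exp (2 * Psi y s)) 0 = Complex.exp (2 * kp) * (2 * y 1) := by
    have h1 := ((hPsi 0 (mem_ball_self (by norm_num))).const_mul 2).cexp.deriv
    rw [hPsi0, d3] at h1
    exact h1
  have hseD : ∀ s ∈ ball (0 : ℂ) 2, DifferentiableAt ℂ (se y) s := by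
    intro s hs
    have h1 := (hasDerivAt_id s).mul (hPsi s hs).neg.cexp
    exact h1.differentiableAt
  have hG : ∀ s ∈ ball (0 : ℂ) 2, DifferentiableAt ℂ (Gs k y A) s := by
    intro s hs
    have h1 := hseD s hs
    have h2 : DifferentiableAt ℂ (dslope (fun s => Complex.exp (Psi y s)) 0) s :=
      (hg1 s hs).differentiableAt (isOpen_ball.mem_nhds hs)
    have h3 : DifferentiableAt ℂ (dslope (dslope (fun s => Complex.exp (2 * Psi y s)) 0) 0) s :=
      (hg2 s hs).differentiableAt (isOpen_ball.mem_nhds hs)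
    have h4 : DifferentiableAt ℂ (fun s : ℂ => s) s := differentiableAt_id
    unfold Gs
    exact (((((differentiableAt_const _).add ((((h1.pow 2).const_mul _).add
      (h1.const_mul _)).const_mul _)).add (h4.const_mul _)).add ((h4.pow 2).const_mul _)).sub
      (h2.const_mul _)).sub (h3.const_mul _)
  have hmem : ∀ ζ ∈ ball (0 : ℂ) (RR k), ζ ^ k ∈ ball (0 : ℂ) 2 := by
    intro ζ hζ
    rw [mem_ball_zero_iff]
    have := pow_lt hk1 hζ
    linarith
  refine ⟨fun ζ => Gs k y A (ζ ^ k), ?_, ?_⟩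
  · intro ζ hζ
    exact (hG _ (hmem ζ hζ)).comp ζ (differentiableAt_pow k)
  · intro ζ hζ hζ0
    have hs0 : ζ ^ k ≠ 0 := pow_ne_zero k hζ0
    have hT : HH k (Th k y ζ) = H0 k + (1 / k : ℂ) * (q2 k / 2 * se y (ζ ^ k) ^ 2 +
        q1 k * se y (ζ ^ k) - qm1 k / se y (ζ ^ k) - qm2 k / (2 * se y (ζ ^ k) ^ 2)) := by
      unfold HH
      rw [mul_comm 2 k, pow_mul, th_pow hk1]
    change Gs k y A (ζ ^ k) = _
    rw [hT]
    set s := ζ ^ k with hs
    have e1 : dslope (fun s => Complex.exp (Psi y s)) 0 s =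
        (Complex.exp (Psi y s) - Complex.exp kp) / s := by
      rw [dslope_of_ne _ hs0, slope_def_field, hPsi0, sub_zero]
    have e2 : dslope (dslope (fun s => Complex.exp (2 * Psi y s)) 0) 0 s =
        ((Complex.exp (2 * Psi y s) - Complex.exp (2 * kp)) / s -
          Complex.exp (2 * kp) * (2 * y 1)) / s := by
      rw [dslope_of_ne _ hs0, slope_def_field, dslope_of_ne _ hs0, slope_def_field, dslope_same,
        hPsi0, sub_zero, hd2]
    have e3 : (se y s)⁻¹ = Complex.exp (Psi y s) / s := by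
      unfold se
      rw [mul_inv, Complex.exp_neg, inv_inv]
      field_simp
    have e4 : (se y s ^ 2)⁻¹ = Complex.exp (2 * Psi y s) / s ^ 2 := by
      rw [← inv_pow, e3, div_pow, ← Complex.exp_nat_mul]
      norm_num
    have e5 : qm1 k / se y s = qm1 k * (Complex.exp (Psi y s) / s) := by
      rw [div_eq_mul_inv, e3]
    have e6 : qm2 k / (2 * se y s ^ 2) = qm2 k / 2 * (Complex.exp (2 * Psi y s) / s ^ 2) := by
      rw [← e4]
      field_simp
    rw [e5, e6]
    unfold Gs Pan
    rw [e1, e2]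
    have e7 : B1 k (y 1) = qm1 k / k * Complex.exp kp + qm2 k / k * Complex.exp (2 * kp) * y 1 := by
      unfold B1
      push_cast
      rfl
    have e8 : (B2 k : ℂ) = qm2 k / (2 * k) * Complex.exp (2 * kp) := by
      unfold B2
      push_cast
      rfl
    have e9 : B1 k (y 1) / s = (qm1 k / k * Complex.exp kp +
        qm2 k / k * Complex.exp (2 * kp) * y 1) / s := by rw [e7]
    rw [e9, e8]
    field_simp
    ring

end Pool.Agent.Q79.CV
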