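import Pool.Agent.Q79.CV.C8

set_option autoImplicit false

open MeasureTheory Set Filter Topology Metric
open scoped ContDiff RealInnerProductSpace ComplexConjugate NNReal

namespace Pool.Agent.Q79.CV

open Pool.Agent.Q61.CV

/-- The number `μ`. -/
noncomputable def mm (k : ℕ) : ℝ :=
  Real.cos (1 / k) - e1 k * Real.cos (1 + 1 / k) + e2 k * Real.cos (2 + 1 / k)

/-- The function `φ`. -/
noncomputable def ff (k : ℕ) (t : ℝ) : ℝ := t * (1 - e1 k * t ^ k + e2 k * t ^ (2 * k))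

theorem e_bounds {k : ℕ} (hk : 1 ≤ k) : 0 < e1 k ∧ 0 < e2 k ∧ e1 k = 2 / (k * (k + 1)) ∧
    e2 k ≤ 1 / (2 * k ^ 3) ∧ e1 k ≤ 2 / k ^ 2 := by
  have hk0 : (0 : ℝ) < k := by exact_mod_cast hk
  unfold e1 e2 bb
  refine ⟨by positivity, by positivity, ?_, ?_, ?_⟩
  · field_simp
  · rw [div_pow, one_pow, div_div]
    refine one_div_le_one_div_of_le (by positivity) ?_
    nlinarith [pow_pos hk0 2]
  · have h1 : 2 * (1 / (k : ℝ)) / (k + 1) = 2 / (k * (k + 1)) := by field_simp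
    rw [h1]
    refine div_le_div_of_nonneg_left (by norm_num) (by positivity) ?_
    nlinarith

theorem mm_gt {k : ℕ} (hk : 100 ≤ k) : ff k 1 < mm k := by
  have hk1 : 1 ≤ k := by omega
  have hk0 : (0 : ℝ) < k := by exact_mod_cast hk1
  have hkR : (100 : ℝ) ≤ k := by exact_mod_cast hk
  obtain ⟨a1, a2, a3, a4, a5⟩ := e_bounds hk1
  unfold ff mm
  rw [one_pow, one_pow]
  have h1 := Real.one_sub_sq_div_two_le_cos (x := 1 / (k : ℝ))
  have hδ : (1 : ℝ) / k ≤ 1 / 100 := one_div_le_one_div_of_le (by norm_num) hkR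
  have hδ0 : (0 : ℝ) ≤ 1 / k := by positivity
  have h2 : Real.cos (1 + 1 / k) ≤ 5 / 9 := by
    refine (Real.cos_le_cos_of_nonneg_of_le_pi (by norm_num) ?_ (by linarith)).trans
      Real.cos_one_le
    have := Real.pi_gt_three
    linarith
  have h3 := Real.neg_one_le_cos (2 + 1 / (k : ℝ))
  have h4 : e1 k * (4 / 9) ≤ e1 k * (1 - Real.cos (1 + 1 / k)) :=
    mul_le_mul_of_nonneg_left (by linarith) a1.le
  have h6 : e2 k * (1 - Real.cos (2 + 1 / k)) ≤ e2 k * 2 :=
    mul_le_mul_of_nonneg_left (by linarith) a2.le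
  have h7 : (1 / (k : ℝ)) ^ 2 / 2 + e2 k * 2 < e1 k * (4 / 9) := by
    have h8 : (1 / (k : ℝ)) ^ 2 / 2 + 1 / (2 * k ^ 3) * 2 < 2 / (k * (k + 1)) * (4 / 9) := by
      have h9 : (1 / (k : ℝ)) ^ 2 / 2 + 1 / (2 * k ^ 3) * 2 = (k + 2) / (2 * k ^ 3) := by
        field_simp
      have h10 : 2 / ((k : ℝ) * (k + 1)) * (4 / 9) = 8 / (9 * (k * (k + 1))) := by
        field_simp
        norm_num
      rw [h9, h10, div_lt_div_iff₀ (by positivity) (by positivity)]
      have h11 : (0 : ℝ) < k ^ 2 := by positivity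
      nlinarith [mul_pos hk0 h11, mul_pos hk0 hk0]
    rw [a3]
    linarith
  linarith

theorem mm_lt {k : ℕ} (hk : 100 ≤ k) : mm k < ff k (1 + 1 / 2 / k) := by
  have hk1 : 1 ≤ k := by omega
  have hk0 : (0 : ℝ) < k := by exact_mod_cast hk1
  have hkR : (100 : ℝ) ≤ k := by exact_mod_cast hk
  obtain ⟨a1, a2, a3, a4, a5⟩ := e_bounds hk1
  have h1 : mm k ≤ 1 + e1 k + e2 k := by
    unfold mm
    have b1 := Real.cos_le_one (1 / (k : ℝ))
    have b2 := mul_le_mul_of_nonneg_left (Real.neg_one_le_cos (1 + 1 / (k : ℝ))) a1.le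
    have b3 := mul_le_mul_of_nonneg_left (Real.cos_le_one (2 + 1 / (k : ℝ))) a2.le
    linarith
  have h2 : (1 + 1 / 2 / (k : ℝ)) ^ k ≤ 2 := by
    refine (pow_le_exp (t := 1 / 2) (by norm_num) hk1 (by positivity) le_rfl).trans ?_
    have h3 := Real.exp_bound' (x := 1 / 2) (by norm_num) (by norm_num) (n := 3) (by norm_num)
    refine h3.trans ?_
    norm_num [Finset.sum_range_succ, Nat.factorial]
  have ht : (0 : ℝ) ≤ 1 + 1 / 2 / k := by positivity
  have h4 : 1 - 2 * e1 k ≤ 1 - e1 k * (1 + 1 / 2 / (k : ℝ)) ^ k +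
      e2 k * (1 + 1 / 2 / (k : ℝ)) ^ (2 * k) := by
    have b1 := mul_le_mul_of_nonneg_left h2 a1.le
    have b2 : 0 ≤ e2 k * (1 + 1 / 2 / (k : ℝ)) ^ (2 * k) := by positivity
    linarith
  have h5 : (1 + 1 / 2 / (k : ℝ)) * (1 - 2 * e1 k) ≤ ff k (1 + 1 / 2 / k) := by
    unfold ff
    exact mul_le_mul_of_nonneg_left h4 ht
  refine lt_of_lt_of_le ?_ h5
  refine lt_of_le_of_lt h1 ?_
  have h6 : 1 / 2 / (k : ℝ) ≤ 1 := by
    rw [div_le_iff₀ hk0]
    linarith
  have h7 : (1 / 2 / (k : ℝ)) * (2 * e1 k) ≤ 1 * (2 * e1 k) :=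
    mul_le_mul_of_nonneg_right h6 (by linarith)
  have h8 : e2 k ≤ 1 / k ^ 2 := by
    refine a4.trans ?_
    refine one_div_le_one_div_of_le (by positivity) ?_
    nlinarith [pow_pos hk0 2]
  have h9 : 11 / (k : ℝ) ^ 2 < 1 / 2 / k := by
    rw [div_div, div_lt_div_iff₀ (by positivity) (by positivity)]
    nlinarith
  have h10 : e1 k * 5 + e2 k ≤ 11 / (k : ℝ) ^ 2 := by
    have b1 : (11 : ℝ) / k ^ 2 = 2 / k ^ 2 * 5 + 1 / k ^ 2 := by
      field_simp
      norm_num
    rw [b1]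
    linarith
  nlinarith

theorem c12 (hj : S_INJ) (hd : S_DOM) (h7 : S_C7) : S_C12 := by
  filter_upwards [eventually_ge_atTop 100] with k hk
  intro hconv
  have hk1 : 1 ≤ k := by omega
  have hk0 : (0 : ℝ) < k := by exact_mod_cast hk1
  have hkR : (100 : ℝ) ≤ k := by exact_mod_cast hk
  have hkC : (k : ℂ) ≠ 0 := by
    exact_mod_cast (by omega : k ≠ 0)
  have hgood := h7 k (by omega)
  have hR : (1 : ℝ) < 1 + 1 / k := by
    have : (0 : ℝ) < 1 / k := by positivity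
    linarith
  have hcl : closure (outer (EE k)) = EE k '' closedBall (0 : ℂ) 1 := (hd _ _ hR hgood).2.1
  -- the points
  set z0 : ℂ := Complex.exp (((Real.pi / k : ℝ) : ℂ) * Complex.I) with hz0
  have hz0n : ‖z0‖ = 1 := Complex.norm_exp_ofReal_mul_I _
  have hz0k : z0 ^ k = -1 := by
    rw [hz0, ← Complex.exp_nat_mul]
    have : (k : ℂ) * (((Real.pi / k : ℝ) : ℂ) * Complex.I) = Real.pi * Complex.I := by
      push_cast
      field_simp
    rw [this, Complex.exp_pi_mul_I]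
  set u : ℂ := Complex.exp (((1 / k : ℝ) : ℂ) * Complex.I) with hu
  have hun : ‖u‖ = 1 := Complex.norm_exp_ofReal_mul_I _
  set v : ℂ := Complex.exp (((1 : ℝ) : ℂ) * Complex.I) with hv
  have huk : u ^ k = v := by
    rw [hu, hv, ← Complex.exp_nat_mul]
    congr 1
    push_cast
    field_simp
  have hp1 : EE k (z0 * u) = z0 * (u * (1 - e1 k * v + e2 k * v ^ 2)) := by
    unfold EE
    rw [mul_comm 2 k, pow_mul, mul_pow, hz0k, huk]
    ring
  have hp2 : EE k (z0 * conj u) = z0 * conj (u * (1 - e1 k * v + e2 k * v ^ 2)) := by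
    unfold EE
    rw [mul_comm 2 k, pow_mul, mul_pow, hz0k, ← map_pow, huk]
    simp only [map_mul, map_add, map_sub, map_one, map_pow, Complex.conj_ofReal]
    ring
  have hre : (u * (1 - e1 k * v + e2 k * v ^ 2)).re = mm k := by
    have b1 : u * v = Complex.exp (((1 + 1 / k : ℝ) : ℂ) * Complex.I) := by
      rw [hu, hv, ← Complex.exp_add]
      congr 1
      push_cast
      ring
    have b2 : u * v ^ 2 = Complex.exp (((2 + 1 / k : ℝ) : ℂ) * Complex.I) := by
      rw [hu, hv, ← Complex.exp_nat_mul, ← Complex.exp_add]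
      congr 1
      push_cast
      ring
    have b3 : u * (1 - e1 k * v + e2 k * v ^ 2) = u - e1 k * (u * v) + e2 k * (u * v ^ 2) := by
      ring
    rw [b3, b1, b2, Complex.add_re, Complex.sub_re, Complex.re_ofReal_mul, Complex.re_ofReal_mul,
      hu, Complex.exp_ofReal_mul_I_re, Complex.exp_ofReal_mul_I_re, Complex.exp_ofReal_mul_I_re]
    rfl
  have hM : z0 * (mm k : ℂ) ∈ closure (outer (EE k)) := by
    have m1 : EE k (z0 * u) ∈ closure (outer (EE k)) := by
      rw [hcl]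
      refine ⟨z0 * u, ?_, rfl⟩
      rw [mem_closedBall_zero_iff, norm_mul, hz0n, hun, mul_one]
    have m2 : EE k (z0 * conj u) ∈ closure (outer (EE k)) := by
      rw [hcl]
      refine ⟨z0 * conj u, ?_, rfl⟩
      rw [mem_closedBall_zero_iff, norm_mul, hz0n, Complex.norm_conj, hun, mul_one]
    have m3 := hconv.closure m1 m2 (a := 1 / 2) (b := 1 / 2) (by norm_num) (by norm_num)
      (by norm_num)
    have m4 : (1 / 2 : ℝ) • EE k (z0 * u) + (1 / 2 : ℝ) • EE k (z0 * conj u) =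
        z0 * (mm k : ℂ) := by
      rw [hp1, hp2, ← smul_add, ← mul_add, Complex.add_conj, hre, Complex.real_smul]
      push_cast
      ring
    rwa [m4] at m3
  -- the intermediate value theorem
  have hcont : ContinuousOn (ff k) (Icc 1 (1 + 1 / 2 / k)) := by
    unfold ff
    fun_prop
  have hle : (1 : ℝ) ≤ 1 + 1 / 2 / k := by
    have : (0 : ℝ) ≤ 1 / 2 / k := by positivity
    linarith
  obtain ⟨t, ht, hft⟩ := intermediate_value_Ioo hle hcont ⟨mm_gt hk, mm_lt hk⟩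
  have hEt : EE k (t * z0) = z0 * (mm k : ℂ) := by
    unfold EE
    rw [mul_comm 2 k, pow_mul, mul_pow, hz0k, ← hft]
    unfold ff
    rw [mul_comm 2 k, pow_mul]
    push_cast
    ring
  have htn : ‖(t : ℂ) * z0‖ = t := by
    rw [norm_mul, hz0n, mul_one, Complex.norm_real, Real.norm_of_nonneg (by linarith [ht.1])]
  rw [hcl] at hM
  obtain ⟨η, hη, hη2⟩ := hM
  rw [mem_closedBall_zero_iff] at hη
  have h1 : (t : ℂ) * z0 ∈ ball (0 : ℂ) (1 + 1 / k) := by
    rw [mem_ball_zero_iff, htn]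
    refine ht.2.trans ?_
    have : 1 / 2 / (k : ℝ) < 1 / k := div_lt_div_of_pos_right (by norm_num) hk0
    linarith
  have h2 : η ∈ ball (0 : ℂ) (1 + 1 / k) := by
    rw [mem_ball_zero_iff]
    linarith
  have h3 := (hj _ _ hgood _ h1 _ h2).1
  rw [hEt, hη2, sub_self, norm_zero] at h3
  have h4 : ‖(t : ℂ) * z0 - η‖ = 0 := le_antisymm (by linarith) (norm_nonneg _)
  have h5 : (t : ℂ) * z0 = η := sub_eq_zero.1 (norm_eq_zero.1 h4)
  rw [← h5, htn] at hη
  linarith [ht.1]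

end Pool.Agent.Q79.CV
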