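import Pool.Agent.Q61.CV.Stm

set_option autoImplicit false

open MeasureTheory Set Filter Topology Metric
open scoped ContDiff RealInnerProductSpace ComplexConjugate NNReal

namespace Pool.Agent.Q79.CV

open Pool.Agent.Q61.CV

theorem exp_tenth : 1.1051 < Real.exp (1 / 10) ∧ Real.exp (1 / 10) < 1.1052 := by
  constructor
  · have h1 := Real.sum_le_exp_of_nonneg (x := 1 / 10) (by norm_num) 4
    refine lt_of_lt_of_le ?_ h1
    norm_num [Finset.sum_range_succ, Nat.factorial]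
  · have h1 := Real.exp_bound' (x := 1 / 10) (by norm_num) (by norm_num) (n := 4) (by norm_num)
    refine lt_of_le_of_lt h1 ?_
    norm_num [Finset.sum_range_succ, Nat.factorial]

theorem exp_neg_tenth : 0.9048 < Real.exp (-(1 / 10)) ∧ Real.exp (-(1 / 10)) < 0.9049 := by
  obtain ⟨h1, h2⟩ := exp_tenth
  rw [Real.exp_neg]
  constructor
  · rw [lt_inv_comm₀ (by norm_num) (Real.exp_pos _)]
    refine h2.trans_le ?_
    norm_num
  · rw [inv_lt_comm₀ (Real.exp_pos _) (by norm_num)]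
    refine lt_of_le_of_lt ?_ h1
    norm_num

theorem c6 : S_C6 := by
  obtain ⟨h1, h2⟩ := exp_tenth
  obtain ⟨h3, h4⟩ := exp_neg_tenth
  have hk : kp = 1 / 10 := rfl
  have hY : Y1 = 200 / 99 * (101 / 200 * Real.exp (1 / 10) + 99 / 200 * Real.exp (-(1 / 10))) := by
    unfold Y1 sg
    rw [hk, Real.cosh_eq, Real.sinh_eq]
    ring
  refine ⟨?_, ?_, ?_, ?_⟩
  · rw [hY]
    norm_num at h1 h3 ⊢
    linarith
  · rw [hY]
    norm_num at h2 h4 ⊢
    linarith
  · rw [hk]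
    norm_num at h3 ⊢
    linarith
  · rw [hk]
    norm_num at h4 ⊢
    linarith

/-- `(1 + t / k) ^ k ≤ exp t` -/
theorem pow_le_exp {t : ℝ} (ht : 0 ≤ t) {k : ℕ} (hk : 1 ≤ k) {x : ℝ} (hx0 : 0 ≤ x)
    (hx : x ≤ 1 + t / k) : x ^ k ≤ Real.exp t := by
  have hk0 : (0 : ℝ) < k := by exact_mod_cast hk
  have h1 : x ≤ Real.exp (t / k) := by
    have := Real.add_one_le_exp (t / k)
    linarith
  calc x ^ k ≤ Real.exp (t / k) ^ k := pow_le_pow_left₀ hx0 h1 k
    _ = Real.exp t := by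
      rw [← Real.exp_nat_mul]
      congr 1
      field_simp

theorem sq_sub_one {w : ℂ} {d : ℝ} (hw : ‖w‖ ≤ d) : ‖(1 + w) ^ 2 - 1‖ ≤ 2 * d + d ^ 2 := by
  have h1 : (1 + w) ^ 2 - 1 = 2 * w + w ^ 2 := by ring
  rw [h1]
  refine (norm_add_le _ _).trans ?_
  rw [norm_mul, norm_pow, Complex.norm_ofNat]
  have h0 := norm_nonneg w
  have := pow_le_pow_left₀ h0 hw 2
  linarith

theorem c7 (h : S_C1) : S_C7 := by
  intro k hk z hz
  have hk1 : 1 ≤ k := by omega
  have hk0 : (0 : ℝ) < k := by exact_mod_cast hk1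
  have hkR : (20 : ℝ) ≤ k := by exact_mod_cast hk
  have h1 := h k z hk1
  refine ⟨h1.differentiableAt, ?_⟩
  rw [h1.deriv]
  rw [mem_ball_zero_iff] at hz
  have h2 : ‖z‖ ^ k ≤ Real.exp 1 := pow_le_exp zero_le_one hk1 (norm_nonneg _) hz.le
  have h3 : ‖(bb k : ℂ) * z ^ k‖ ≤ 3 / 20 := by
    rw [norm_mul, norm_pow, Complex.norm_real]
    unfold bb
    rw [Real.norm_of_nonneg (by positivity)]
    have h4 := Real.exp_one_lt_d9
    have h5 : 1 / (k : ℝ) ≤ 1 / 20 := one_div_le_one_div_of_le (by norm_num) hkR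
    calc 1 / (k : ℝ) * ‖z‖ ^ k ≤ 1 / 20 * 3 := by
          refine mul_le_mul h5 (h2.trans (by linarith)) (by positivity) (by norm_num)
      _ = 3 / 20 := by norm_num
  refine (sq_sub_one h3).trans ?_
  norm_num

end Pool.Agent.Q79.CV
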