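import Pool.Agent.Q79.CV.C6

set_option autoImplicit false

open MeasureTheory Set Filter Topology Metric
open scoped ContDiff RealInnerProductSpace ComplexConjugate NNReal

namespace Pool.Agent.Q79.CV

open Pool.Agent.Q61.CV

theorem psi_facts (h5 : S_C5) {k : ℕ} {y : ℕ → ℂ} {A : ℝ} (hk : 1 ≤ k) (hD : Dat k y A) {s : ℂ}
    (hs : ‖s‖ ≤ 3 / 2) : ‖psi y s‖ ≤ 4 / k ∧ ‖deriv (psi y) s‖ ≤ 3 / k ∧
      DifferentiableAt ℂ (psi y) s := by
  obtain ⟨-, h2, -, h4⟩ := h5 k y A hk hD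
  obtain ⟨ha, hb, -⟩ := h4 s hs
  obtain ⟨hY1, hY2, -, -⟩ := c6
  have hk0 : (0 : ℝ) < k := by exact_mod_cast hk
  have hY : ‖(Y1 : ℂ) / k‖ = Y1 / k := by
    rw [norm_div, Complex.norm_real, Complex.norm_natCast, Real.norm_of_nonneg (by linarith)]
  refine ⟨?_, ?_, ?_⟩
  · have h1 : psi y s = (Y1 : ℂ) / k * s + (psi y s - (Y1 : ℂ) / k * s) := by ring
    rw [h1]
    refine (norm_add_le _ _).trans ?_
    rw [norm_mul, hY]
    have h3 : Y1 / k * ‖s‖ ≤ 3.06 / k := by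
      calc Y1 / k * ‖s‖ ≤ 2.04 / k * (3 / 2) := by
            refine mul_le_mul ?_ hs (norm_nonneg _) (by positivity)
            exact div_le_div_of_nonneg_right hY2.le hk0.le
        _ = 3.06 / k := by ring
    have h6 : (1 : ℝ) / (1000 * k) = 0.001 / k := by
      field_simp
      norm_num
    have h7 : (4 : ℝ) / k = 3.06 / k + 0.001 / k + 0.939 / k := by
      field_simp
      norm_num
    have h8 : 0 ≤ (0.939 : ℝ) / k := by positivity
    linarith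
  · have h1 : deriv (psi y) s = (Y1 : ℂ) / k + (deriv (psi y) s - (Y1 : ℂ) / k) := by ring
    rw [h1]
    refine (norm_add_le _ _).trans ?_
    rw [hY]
    have h3 : Y1 / k ≤ 2.04 / k := div_le_div_of_nonneg_right hY2.le hk0.le
    have h6 : (1 : ℝ) / (1000 * k) = 0.001 / k := by
      field_simp
      norm_num
    have h7 : (3 : ℝ) / k = 2.04 / k + 0.001 / k + 0.959 / k := by
      field_simp
      norm_num
    have h8 : 0 ≤ (0.959 : ℝ) / k := by positivity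
    linarith
  · exact (h2 s (mem_ball_zero_iff.2 (by linarith))).differentiableAt
      (isOpen_ball.mem_nhds (mem_ball_zero_iff.2 (by linarith)))

theorem th_deriv {k : ℕ} (hk : 1 ≤ k) {y : ℕ → ℂ} {ζ : ℂ}
    (h : DifferentiableAt ℂ (psi y) (ζ ^ k)) :
    HasDerivAt (Th k y) (Complex.exp (-(Psi y (ζ ^ k) / k)) *
      (1 - ζ ^ k * deriv (psi y) (ζ ^ k))) ζ := by
  have hk0 : (k : ℂ) ≠ 0 := by
    exact_mod_cast (by omega : k ≠ 0)
  have h1 : HasDerivAt (fun ζ : ℂ => Psi y (ζ ^ k))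
      (deriv (psi y) (ζ ^ k) * (k * ζ ^ (k - 1))) ζ := by
    have h2 := (h.hasDerivAt.comp ζ (hasDerivAt_pow k ζ)).const_add (kp : ℂ)
    exact h2
  have h3 := ((h1.div_const (k : ℂ)).neg).cexp
  have h4 := (hasDerivAt_id ζ).mul h3
  refine HasDerivAt.congr_deriv h4 ?_
  simp only [id_eq, one_mul, Pi.neg_apply]
  obtain ⟨m, rfl⟩ : ∃ m, k = m + 1 := ⟨k - 1, by omega⟩
  rw [Nat.add_sub_cancel, pow_succ]
  field_simp
  ring

theorem th_pow {k : ℕ} (hk : 1 ≤ k) (y : ℕ → ℂ) (ζ : ℂ) : (Th k y ζ) ^ k = se y (ζ ^ k) := by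
  have hk0 : (k : ℂ) ≠ 0 := by
    exact_mod_cast (by omega : k ≠ 0)
  unfold Th se
  rw [mul_pow, ← Complex.exp_nat_mul]
  congr 2
  field_simp

theorem pow_lt {k : ℕ} (hk : 1 ≤ k) {ζ : ℂ} (h : ζ ∈ ball (0 : ℂ) (RR k)) : ‖ζ ^ k‖ ≤ 3 / 2 := by
  rw [mem_ball_zero_iff] at h
  have hk0 : (0 : ℝ) < k := by exact_mod_cast hk
  have h1 : ‖ζ‖ ≤ 1 + 1 / 4 / k := by
    refine h.le.trans (le_of_eq ?_)
    unfold RR
    field_simp
  rw [norm_pow]
  refine (pow_le_exp (by norm_num) hk (norm_nonneg _) h1).trans ?_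
  have h2 := Real.exp_bound' (x := 1 / 4) (by norm_num) (by norm_num) (n := 3) (by norm_num)
  refine h2.trans ?_
  norm_num [Finset.sum_range_succ, Nat.factorial]

/-- The bounds for the concrete data. -/
theorem base (h5 : S_C5) {k : ℕ} {y : ℕ → ℂ} {A : ℝ} (hk : 100 ≤ k) (hD : Dat k y A) {s : ℂ}
    (hs : ‖s‖ ≤ 3 / 2) : ‖psi y s‖ ≤ 4 / k ∧ ‖deriv (psi y) s‖ ≤ 3 / k ∧
      DifferentiableAt ℂ (psi y) s ∧ 0.06 ≤ (Psi y s).re ∧ ‖Psi y s‖ ≤ 0.14 ∧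
      ‖Complex.exp (-(Psi y s / k)) - 1‖ ≤ 1 / k ∧ ‖se y s‖ ≤ ‖s‖ := by
  have hk1 : 1 ≤ k := by omega
  have hk0 : (0 : ℝ) < k := by exact_mod_cast hk1
  have hkR : (100 : ℝ) ≤ k := by exact_mod_cast hk
  obtain ⟨h1, h2, h3⟩ := psi_facts h5 hk1 hD hs
  have h4 : (4 : ℝ) / k ≤ 0.04 := by
    rw [div_le_iff₀ hk0]
    linarith
  have h6 : (Psi y s).re = kp + (psi y s).re := by
    unfold Psi
    simp
  have h7 := Complex.abs_re_le_norm (psi y s)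
  have h8 := abs_le.1 h7
  have hkp : kp = 0.1 := by unfold kp; norm_num
  have h9 : 0.06 ≤ (Psi y s).re := by
    rw [h6, hkp]
    linarith [h8.1]
  have h10 : ‖Psi y s‖ ≤ 0.14 := by
    unfold Psi
    refine (norm_add_le _ _).trans ?_
    rw [Complex.norm_real, hkp, Real.norm_of_nonneg (by norm_num)]
    linarith
  refine ⟨h1, h2, h3, h9, h10, ?_, ?_⟩
  · have h11 : ‖-(Psi y s / k)‖ ≤ 0.14 / k := by
      rw [norm_neg, norm_div, Complex.norm_natCast]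
      exact div_le_div_of_nonneg_right h10 hk0.le
    have h12 : (0.14 : ℝ) / k ≤ 1 := by
      rw [div_le_iff₀ hk0]
      linarith
    refine (Complex.norm_exp_sub_one_le (h11.trans h12)).trans ?_
    have h13 : (1 : ℝ) / k = 2 * (0.14 / k) + 0.72 / k := by
      field_simp
      norm_num
    have h14 : 0 ≤ (0.72 : ℝ) / k := by positivity
    linarith
  · unfold se
    rw [norm_mul, Complex.norm_exp, Complex.neg_re]
    have h11 : Real.exp (-(Psi y s).re) ≤ 1 := Real.exp_le_one_iff.2 (by linarith)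
    exact mul_le_of_le_one_right (norm_nonneg _) h11

theorem th_close {k : ℕ} {a w : ℂ} (hk : 100 ≤ k) (ha : ‖a - 1‖ ≤ 1 / k) (hw : ‖w‖ ≤ 4.5 / k) :
    ‖a * (1 - w) - 1‖ ≤ 10 / k := by
  have hk1 : 1 ≤ k := by omega
  have hk0 : (0 : ℝ) < k := by exact_mod_cast hk1
  have hkR : (100 : ℝ) ≤ k := by exact_mod_cast hk
  have h1 : a * (1 - w) - 1 = (a - 1) * (1 - w) - w := by ring
  rw [h1]
  refine (norm_sub_le _ _).trans ?_
  rw [norm_mul]
  have h2 : ‖1 - w‖ ≤ 2 := by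
    refine (norm_sub_le _ _).trans ?_
    rw [norm_one]
    have : (4.5 : ℝ) / k ≤ 1 := by
      rw [div_le_iff₀ hk0]
      linarith
    linarith
  have h3 : ‖a - 1‖ * ‖1 - w‖ ≤ 1 / k * 2 :=
    mul_le_mul ha h2 (norm_nonneg _) (by positivity)
  have h4 : (10 : ℝ) / k = 1 / k * 2 + 4.5 / k + 3.5 / k := by
    field_simp
    norm_num
  have h5 : 0 ≤ (3.5 : ℝ) / k := by positivity
  linarith

theorem th_norm (h5 : S_C5) {k : ℕ} {y : ℕ → ℂ} {A : ℝ} (hk : 100 ≤ k) (hD : Dat k y A) {ζ : ℂ}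
    (hs : ‖ζ ^ k‖ ≤ 3 / 2) : ‖Th k y ζ‖ ≤ ‖ζ‖ ∧ (ζ ≠ 0 → ‖Th k y ζ‖ < ‖ζ‖) := by
  obtain ⟨-, -, -, h4, -⟩ := base h5 hk hD hs
  have hk1 : 1 ≤ k := by omega
  have hk0 : (0 : ℝ) < k := by exact_mod_cast hk1
  have h1 : ‖Th k y ζ‖ = ‖ζ‖ * Real.exp (-((Psi y (ζ ^ k)).re / k)) := by
    unfold Th
    rw [norm_mul, Complex.norm_exp, Complex.neg_re, Complex.div_natCast_re]
  have h2 : Real.exp (-((Psi y (ζ ^ k)).re / k)) < 1 := by
    rw [Real.exp_lt_one_iff]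
    have : 0 < (Psi y (ζ ^ k)).re / k := div_pos (by linarith) hk0
    linarith
  rw [h1]
  exact ⟨mul_le_of_le_one_right (norm_nonneg _) h2.le,
    fun h => mul_lt_of_lt_one_right (norm_pos_iff.2 h) h2⟩

theorem ee_th_deriv (h1 : S_C1) {k : ℕ} (hk : 1 ≤ k) {y : ℕ → ℂ} {ζ : ℂ}
    (h : DifferentiableAt ℂ (psi y) (ζ ^ k)) :
    HasDerivAt (fun ζ => EE k (Th k y ζ)) ((1 + bb k * se y (ζ ^ k)) ^ 2 *
      (Complex.exp (-(Psi y (ζ ^ k) / k)) * (1 - ζ ^ k * deriv (psi y) (ζ ^ k)))) ζ := by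
  have h2 := (h1 k (Th k y ζ) hk).comp ζ (th_deriv hk h)
  rw [th_pow hk] at h2
  exact h2

theorem c8 (h1 : S_C1) (h5 : S_C5) : S_C8 := by
  filter_upwards [eventually_ge_atTop 100] with k hk
  intro y A hD
  have hk1 : 1 ≤ k := by omega
  have hk0 : (0 : ℝ) < k := by exact_mod_cast hk1
  have hkR : (100 : ℝ) ≤ k := by exact_mod_cast hk
  have key : ∀ ζ ∈ ball (0 : ℂ) (RR k), ‖Complex.exp (-(Psi y (ζ ^ k) / k)) *
      (1 - ζ ^ k * deriv (psi y) (ζ ^ k)) - 1‖ ≤ 10 / k := by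
    intro ζ hζ
    have hs := pow_lt hk1 hζ
    obtain ⟨-, b2, -, -, -, b6, -⟩ := base h5 hk hD hs
    refine th_close hk b6 ?_
    rw [norm_mul]
    calc ‖ζ ^ k‖ * ‖deriv (psi y) (ζ ^ k)‖ ≤ 3 / 2 * (3 / k) :=
          mul_le_mul hs b2 (norm_nonneg _) (by norm_num)
      _ = 4.5 / k := by
        field_simp
        norm_num
  have h10 : (10 : ℝ) / k ≤ 1 / 10 := by
    rw [div_le_iff₀ hk0]
    linarith
  refine ⟨?_, ?_, ?_, ?_, ?_⟩
  · intro ζ hζ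
    obtain ⟨-, -, b3, -⟩ := base h5 hk hD (pow_lt hk1 hζ)
    have h2 := th_deriv hk1 b3
    refine ⟨h2.differentiableAt, ?_⟩
    rw [h2.deriv]
    exact (key ζ hζ).trans (by linarith)
  · intro ζ hζ
    obtain ⟨-, -, b3, -, -, -, b7⟩ := base h5 hk hD (pow_lt hk1 hζ)
    have h2 := ee_th_deriv h1 hk1 b3
    refine ⟨h2.differentiableAt, ?_⟩
    rw [h2.deriv]
    have h3 : ‖(bb k : ℂ) * se y (ζ ^ k)‖ ≤ 0.015 := by
      rw [norm_mul, Complex.norm_real]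
      unfold bb
      rw [Real.norm_of_nonneg (by positivity)]
      have h4 : 1 / (k : ℝ) ≤ 1 / 100 := one_div_le_one_div_of_le (by norm_num) hkR
      calc 1 / (k : ℝ) * ‖se y (ζ ^ k)‖ ≤ 1 / 100 * (3 / 2) :=
            mul_le_mul h4 (b7.trans (pow_lt hk1 hζ)) (norm_nonneg _) (by norm_num)
        _ = 0.015 := by norm_num
    have h4 := sq_sub_one h3
    have h6 := key ζ hζ
    set u := (1 + (bb k : ℂ) * se y (ζ ^ k)) ^ 2 with hu
    set v := Complex.exp (-(Psi y (ζ ^ k) / k)) * (1 - ζ ^ k * deriv (psi y) (ζ ^ k)) with hv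
    have h7 : u * v - 1 = (u - 1) * (v - 1) + (u - 1) + (v - 1) := by ring
    rw [h7]
    refine (norm_add₃_le).trans ?_
    rw [norm_mul]
    have h8 : ‖u - 1‖ ≤ 0.04 := h4.trans (by norm_num)
    have h9 : ‖v - 1‖ ≤ 0.1 := h6.trans (by linarith)
    have h11 : ‖u - 1‖ * ‖v - 1‖ ≤ 0.04 * 0.1 :=
      mul_le_mul h8 h9 (norm_nonneg _) (by norm_num)
    norm_num at h11 h8 h9 ⊢
    linarith
  · simp [Th]
  · intro ζ hζ
    have hR : ζ ∈ ball (0 : ℂ) (RR k) := by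
      rw [mem_ball_zero_iff]
      refine lt_of_le_of_lt hζ ?_
      unfold RR
      have : (0 : ℝ) < 1 / (4 * k) := by positivity
      linarith
    obtain ⟨-, h3⟩ := th_norm h5 hk hD (pow_lt hk1 hR)
    rcases eq_or_ne ζ 0 with h | h
    · rw [h]
      simp [Th]
    · exact (h3 h).trans_le hζ
  · intro ζ hζ
    obtain ⟨h3, -⟩ := th_norm h5 hk hD (pow_lt hk1 hζ)
    rw [mem_ball_zero_iff] at hζ ⊢
    exact h3.trans_lt hζ

end Pool.Agent.Q79.CV
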