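import Pool.Agent.Q79.CV.C8

set_option autoImplicit false

open MeasureTheory Set Filter Topology Metric
open scoped ContDiff RealInnerProductSpace ComplexConjugate NNReal

namespace Pool.Agent.Q79.CV

open Pool.Agent.Q61.CV

theorem c9_t1 {δ : ℝ} (hδ0 : 0 ≤ δ) (hδ : δ ≤ 1 / 1000) {s ep w a c : ℂ} (hs : ‖s‖ = 1)
    (h1 : ‖ep - a‖ ≤ 8 * δ) (ha : ‖a‖ ≤ 1) (hw : ‖w - 1‖ ≤ 3 * δ) (hc : ‖c‖ ≤ δ) :
    ‖2 * s * ep * w / (1 + c) - 2 * s * a‖ ≤ 0.03 := by
  have h2 : 0.999 ≤ ‖1 + c‖ := by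
    have h3 : ‖(1 : ℂ)‖ ≤ ‖1 + c‖ + ‖c‖ := by
      have : (1 : ℂ) = (1 + c) - c := by ring
      calc ‖(1 : ℂ)‖ = ‖(1 + c) - c‖ := by rw [← this]
        _ ≤ _ := norm_sub_le _ _
    rw [norm_one] at h3
    linarith
  have h3 : (1 + c) ≠ 0 := by
    intro h
    rw [h, norm_zero] at h2
    norm_num at h2
  have h4 : 2 * s * ep * w / (1 + c) - 2 * s * a =
      2 * s * ((ep - a) * w + a * (w - 1) - a * c) / (1 + c) := by
    field_simp
    ring
  rw [h4, norm_div, norm_mul, norm_mul, hs, Complex.norm_ofNat]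
  have h5 : ‖w‖ ≤ 1.003 := by
    have h6 : w = (w - 1) + 1 := by ring
    rw [h6]
    refine (norm_add_le _ _).trans ?_
    rw [norm_one]
    linarith
  have h6 : ‖(ep - a) * w + a * (w - 1) - a * c‖ ≤ 0.0125 := by
    refine (norm_sub_le _ _).trans ?_
    refine (add_le_add (norm_add_le _ _) le_rfl).trans ?_
    rw [norm_mul, norm_mul, norm_mul]
    have e1 : ‖ep - a‖ * ‖w‖ ≤ (8 * δ) * 1.003 :=
      mul_le_mul h1 h5 (norm_nonneg _) (by positivity)
    have e2 : ‖a‖ * ‖w - 1‖ ≤ 1 * (3 * δ) := mul_le_mul ha hw (norm_nonneg _) (by norm_num)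
    have e3 : ‖a‖ * ‖c‖ ≤ 1 * δ := mul_le_mul ha hc (norm_nonneg _) (by norm_num)
    norm_num at e1 e2 e3 ⊢
    linarith
  rw [div_le_iff₀ (by linarith)]
  have h7 := norm_nonneg ((ep - a) * w + a * (w - 1) - a * c)
  norm_num at h2 h6 ⊢
  linarith

theorem c9_t3 {δ Y : ℝ} (hδ : δ ≤ 1 / 1000) {s w N : ℂ} (hs : ‖s‖ = 1)
    (h1 : ‖N - Y‖ ≤ 0.004) (hY0 : 0 ≤ Y) (hY : Y ≤ 2.04) (hw : ‖w - 1‖ ≤ 3 * δ) :
    ‖s * N / w - Y * s‖ ≤ 0.02 := by
  have h2 : 0.997 ≤ ‖w‖ := by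
    have h3 : ‖(1 : ℂ)‖ ≤ ‖w‖ + ‖w - 1‖ := by
      have : (1 : ℂ) = w - (w - 1) := by ring
      calc ‖(1 : ℂ)‖ = ‖w - (w - 1)‖ := by rw [← this]
        _ ≤ _ := norm_sub_le _ _
    rw [norm_one] at h3
    linarith
  have h3 : w ≠ 0 := by
    intro h
    rw [h, norm_zero] at h2
    norm_num at h2
  have h4 : s * N / w - Y * s = s * ((N - Y) - Y * (w - 1)) / w := by
    field_simp
    ring
  rw [h4, norm_div, norm_mul, hs, one_mul]
  have h6 : ‖(N - Y) - Y * (w - 1)‖ ≤ 0.0102 := by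
    refine (norm_sub_le _ _).trans ?_
    rw [norm_mul, Complex.norm_real, Real.norm_of_nonneg hY0]
    have e1 : Y * ‖w - 1‖ ≤ 2.04 * (3 * δ) := mul_le_mul hY hw (norm_nonneg _) (by norm_num)
    norm_num at e1 h1 ⊢
    linarith
  rw [div_le_iff₀ (by linarith)]
  norm_num at h2 h6 ⊢
  linarith

/-- The derivative of `E ∘ Θ` as a function of `s = ζ ^ k`. -/
noncomputable def gg (k : ℕ) (y : ℕ → ℂ) (s : ℂ) : ℂ :=
  (1 + bb k * se y s) ^ 2 * (Complex.exp (-(Psi y s / k)) * (1 - s * deriv (psi y) s))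

theorem se_deriv {y : ℕ → ℂ} {s : ℂ} (h : DifferentiableAt ℂ (psi y) s) :
    HasDerivAt (se y) (Complex.exp (-Psi y s) * (1 - s * deriv (psi y) s)) s := by
  have h1 : HasDerivAt (Psi y) (deriv (psi y) s) s := h.hasDerivAt.const_add (kp : ℂ)
  have h2 := (hasDerivAt_id s).mul h1.neg.cexp
  refine HasDerivAt.congr_deriv h2 ?_
  simp only [id_eq, one_mul, Pi.neg_apply]
  ring

theorem gg_deriv {k : ℕ} {y : ℕ → ℂ} {s : ℂ} (h : DifferentiableAt ℂ (psi y) s)
    (h' : DifferentiableAt ℂ (deriv (psi y)) s) :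
    HasDerivAt (gg k y) (2 * (1 + bb k * se y s) *
      (bb k * (Complex.exp (-Psi y s) * (1 - s * deriv (psi y) s))) *
      (Complex.exp (-(Psi y s / k)) * (1 - s * deriv (psi y) s)) +
      (1 + bb k * se y s) ^ 2 * (Complex.exp (-(Psi y s / k)) * -(deriv (psi y) s / k) *
        (1 - s * deriv (psi y) s) +
        Complex.exp (-(Psi y s / k)) * -(deriv (psi y) s + s * deriv (deriv (psi y)) s))) s := by
  have h1 : HasDerivAt (Psi y) (deriv (psi y) s) s := h.hasDerivAt.const_add (kp : ℂ)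
  have h2 := (((se_deriv h).const_mul (bb k : ℂ)).const_add 1).pow 2
  have h3 := ((h1.div_const (k : ℂ)).neg).cexp
  have h4 := ((hasDerivAt_id s).mul h'.hasDerivAt).const_sub 1
  have h5 := h2.mul (h3.mul h4)
  refine HasDerivAt.congr_deriv h5 ?_
  simp only [id_eq, one_mul, Pi.neg_apply, Pi.mul_apply, Pi.pow_apply]
  norm_num
  try ring

theorem c9 (h1 : S_C1) (h5 : S_C5) : S_C9 := by
  filter_upwards [eventually_ge_atTop 1000] with k hk
  intro y A hD ζ hζ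
  have hk1 : 1 ≤ k := by omega
  have hk100 : 100 ≤ k := by omega
  have hk0 : (0 : ℝ) < k := by exact_mod_cast hk1
  have hkR : (1000 : ℝ) ≤ k := by exact_mod_cast hk
  have hkC : (k : ℂ) ≠ 0 := by
    exact_mod_cast (by omega : k ≠ 0)
  obtain ⟨y1, y2, y3, y4⟩ := c6
  have hζR : ζ ∈ ball (0 : ℂ) (RR k) := by
    rw [mem_ball_zero_iff, hζ]
    unfold RR
    have : (0 : ℝ) < 1 / (4 * k) := by positivity
    linarith
  have hFg : deriv (fun ζ => EE k (Th k y ζ)) =ᶠ[𝓝 ζ] fun ζ => gg k y (ζ ^ k) := by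
    filter_upwards [isOpen_ball.mem_nhds hζR] with x hx
    obtain ⟨-, -, b3, -⟩ := base h5 hk100 hD (pow_lt hk1 hx)
    exact (ee_th_deriv h1 hk1 b3).deriv
  set s : ℂ := ζ ^ k with hs
  have hs1 : ‖s‖ = 1 := by rw [hs, norm_pow, hζ, one_pow]
  obtain ⟨c1, c2, c3, c4, c5, c6', c7⟩ := base h5 hk100 hD (s := s) (by rw [hs1]; norm_num)
  obtain ⟨-, d2, -, d4⟩ := h5 k y A hk1 hD
  obtain ⟨-, d5, d6⟩ := d4 s (by rw [hs1]; norm_num)
  have hs2 : s ∈ ball (0 : ℂ) 2 := mem_ball_zero_iff.2 (by rw [hs1]; norm_num)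
  have d7 : DifferentiableAt ℂ (deriv (psi y)) s :=
    (d2.deriv isOpen_ball s hs2).differentiableAt (isOpen_ball.mem_nhds hs2)
  have e1 := gg_deriv (k := k) c3 d7
  have e2 : deriv (deriv fun ζ => EE k (Th k y ζ)) ζ = _ :=
    (hFg.deriv_eq).trans ((e1.comp ζ (hasDerivAt_pow k ζ)).deriv)
  have e3 : deriv (fun ζ => EE k (Th k y ζ)) ζ = gg k y s := hFg.eq_of_nhds
  rw [e2, e3]
  set P := deriv (psi y) s with hP
  set Q := deriv (deriv (psi y)) s with hQ
  set ep := Complex.exp (-Psi y s) with hep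
  set e := Complex.exp (-(Psi y s / k)) with he
  have he0 : e ≠ 0 := Complex.exp_ne_zero _
  set w : ℂ := 1 - s * P with hw
  have hδ0 : (0 : ℝ) ≤ 1 / k := by positivity
  have hδ : (1 : ℝ) / k ≤ 1 / 1000 := one_div_le_one_div_of_le (by norm_num) hkR
  have hw1 : ‖w - 1‖ ≤ 3 * (1 / k) := by
    have : w - 1 = -(s * P) := by rw [hw]; ring
    rw [this, norm_neg, norm_mul, hs1, one_mul]
    refine c2.trans (le_of_eq ?_)
    ring
  have hw0 : w ≠ 0 := by
    intro h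
    rw [h, zero_sub, norm_neg, norm_one] at hw1
    linarith
  have hse : se y s = s * ep := rfl
  have hep1 : ‖ep‖ ≤ 1 := by
    rw [hse, norm_mul, hs1, one_mul] at c7
    exact c7
  have hc : ‖(bb k : ℂ) * (s * ep)‖ ≤ 1 / k := by
    rw [norm_mul, Complex.norm_real, norm_mul, hs1, one_mul]
    unfold bb
    rw [Real.norm_of_nonneg (by positivity)]
    exact mul_le_of_le_one_right hδ0 hep1
  have hc0 : 1 + (bb k : ℂ) * (s * ep) ≠ 0 := by
    intro h
    have h2 : (bb k : ℂ) * (s * ep) = -1 := by linear_combination h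
    rw [h2, norm_neg, norm_one] at hc
    linarith
  have hζk : ζ * ((k : ℂ) * ζ ^ (k - 1)) = k * s := by
    rw [hs]
    obtain ⟨m, rfl⟩ : ∃ m, k = m + 1 := ⟨k - 1, by omega⟩
    rw [Nat.add_sub_cancel, pow_succ]
    ring
  have hbk : (bb k : ℂ) = 1 / k := by
    unfold bb
    push_cast
    rfl
  have key : ζ * ((2 * (1 + bb k * se y s) * (bb k * (ep * w)) * (e * w) +
      (1 + bb k * se y s) ^ 2 * (e * -(P / k) * w + e * -(P + s * Q))) * (k * ζ ^ (k - 1))) /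
      gg k y s = 2 * s * ep * w / (1 + bb k * (s * ep)) - s * P - s * (k * (P + s * Q)) / w := by
    have h2 : gg k y s = (1 + bb k * (s * ep)) ^ 2 * (e * w) := rfl
    rw [h2, hse, div_eq_iff (mul_ne_zero (pow_ne_zero 2 hc0) (mul_ne_zero he0 hw0))]
    have h3 : ∀ X : ℂ, ζ * (X * (k * ζ ^ (k - 1))) = X * (k * s) := by
      intro X
      rw [← hζk]
      ring
    rw [h3]
    have h4 : (1 + (bb k : ℂ) * (s * ep)) ≠ 0 := hc0
    set c := (bb k : ℂ) * (s * ep) with hcc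
    have h5 : (bb k : ℂ) * (ep * w) * s = c * w := by rw [hcc]; ring
    have h6 : s * ep = k * c := by
      rw [hcc, hbk]
      field_simp
    have h7 : 2 * s * ep * w / (1 + c) * ((1 + c) ^ 2 * (e * w)) =
        2 * (k * c) * w * (1 + c) * (e * w) := by
      rw [← h6]
      field_simp
    have h8 : s * (k * (P + s * Q)) / w * ((1 + c) ^ 2 * (e * w)) =
        s * (k * (P + s * Q)) * (1 + c) ^ 2 * e := by
      field_simp
    rw [sub_mul, sub_mul, h7, h8]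
    have h9 : P / k * k = P := by field_simp
    calc (2 * (1 + c) * (bb k * (ep * w)) * (e * w) +
        (1 + c) ^ 2 * (e * -(P / k) * w + e * -(P + s * Q))) * (k * s)
        = 2 * (1 + c) * ((bb k : ℂ) * (ep * w) * s) * (e * w) * k -
          (1 + c) ^ 2 * e * (P / k * k) * w * s - (1 + c) ^ 2 * e * (P + s * Q) * (k * s) := by
          ring
      _ = _ := by
          rw [h5, h9]
          ring
  rw [key]
  -- the estimate
  have ha : ‖((Real.exp (-kp) : ℝ) : ℂ)‖ = Real.exp (-kp) := by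
    rw [Complex.norm_real, Real.norm_of_nonneg (Real.exp_pos _).le]
  have f1 : ‖ep - (Real.exp (-kp) : ℝ)‖ ≤ 8 * (1 / k) := by
    have h2 : ep = (Real.exp (-kp) : ℝ) * Complex.exp (-psi y s) := by
      rw [hep, Complex.ofReal_exp, ← Complex.exp_add]
      congr 1
      unfold Psi
      push_cast
      ring
    have h3 : ep - (Real.exp (-kp) : ℝ) = (Real.exp (-kp) : ℝ) * (Complex.exp (-psi y s) - 1) := by
      rw [h2]
      ring
    rw [h3, norm_mul, ha]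
    have h4 : ‖-psi y s‖ ≤ 1 := by
      rw [norm_neg]
      refine c1.trans ?_
      rw [div_le_iff₀ hk0]
      linarith
    have h6 := Complex.norm_exp_sub_one_le h4
    rw [norm_neg] at h6
    have h7 : Real.exp (-kp) ≤ 1 := by linarith
    calc Real.exp (-kp) * ‖Complex.exp (-psi y s) - 1‖ ≤ 1 * (2 * (4 / k)) := by
          refine mul_le_mul h7 (h6.trans ?_) (norm_nonneg _) zero_le_one
          linarith
      _ = 8 * (1 / k) := by ring
  have f2 := c9_t1 hδ0 hδ hs1 f1 (by rw [ha]; linarith) hw1 hc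
  have f3 : ‖(k : ℂ) * (P + s * Q) - (Y1 : ℝ)‖ ≤ 0.004 := by
    have h2 : (k : ℂ) * (P + s * Q) - (Y1 : ℝ) = k * (P - (Y1 : ℂ) / k) + k * (s * Q) := by
      field_simp
      ring
    rw [h2]
    refine (norm_add_le _ _).trans ?_
    rw [norm_mul, norm_mul, norm_mul, hs1, one_mul, Complex.norm_natCast]
    have e1 : (k : ℝ) * ‖P - (Y1 : ℂ) / k‖ ≤ k * (1 / (1000 * k)) :=
      mul_le_mul_of_nonneg_left d5 hk0.le
    have e2 : (k : ℝ) * ‖Q‖ ≤ k * (3 / (1000 * k)) := mul_le_mul_of_nonneg_left d6 hk0.le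
    have e3 : (k : ℝ) * (1 / (1000 * k)) = 0.001 := by
      field_simp
      norm_num
    have e4 : (k : ℝ) * (3 / (1000 * k)) = 0.003 := by
      field_simp
      norm_num
    rw [e3] at e1
    rw [e4] at e2
    norm_num at e1 e2 ⊢
    linarith
  have f4 := c9_t3 (Y := Y1) hδ hs1 f3 (by linarith) y2.le hw1
  have f5 : ‖s * P‖ ≤ 0.003 := by
    rw [norm_mul, hs1, one_mul]
    refine c2.trans ?_
    rw [div_le_iff₀ hk0]
    norm_num
    linarith
  have f6 : ‖2 * s * ((Real.exp (-kp) : ℝ) : ℂ) - (Y1 : ℝ) * s‖ ≤ 0.24 := by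
    have h2 : 2 * s * ((Real.exp (-kp) : ℝ) : ℂ) - (Y1 : ℝ) * s =
        ((2 * Real.exp (-kp) - Y1 : ℝ) : ℂ) * s := by
      push_cast
      ring
    rw [h2, norm_mul, hs1, mul_one, Complex.norm_real, Real.norm_eq_abs, abs_le]
    constructor <;> norm_num at y2 y3 y4 y1 ⊢ <;> linarith
  set T1 := 2 * s * ep * w / (1 + (bb k : ℂ) * (s * ep)) with hT1
  set T3 := s * (k * (P + s * Q)) / w with hT3
  have h9 : T1 - s * P - T3 = (T1 - 2 * s * ((Real.exp (-kp) : ℝ) : ℂ)) - s * P -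
      (T3 - (Y1 : ℝ) * s) + (2 * s * ((Real.exp (-kp) : ℝ) : ℂ) - (Y1 : ℝ) * s) := by
    ring
  rw [h9]
  refine lt_of_le_of_lt (norm_add_le _ _) ?_
  have g1 := norm_sub_le ((T1 - 2 * s * ((Real.exp (-kp) : ℝ) : ℂ)) - s * P) (T3 - (Y1 : ℝ) * s)
  have g2 := norm_sub_le (T1 - 2 * s * ((Real.exp (-kp) : ℝ) : ℂ)) (s * P)
  norm_num at f2 f4 f5 f6 ⊢
  norm_num at g1 g2
  linarith

end Pool.Agent.Q79.CV
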