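import Pool.Agent.Q61.CV.Stm

set_option autoImplicit false

open MeasureTheory Set Filter Topology Metric
open scoped ContDiff RealInnerProductSpace ComplexConjugate NNReal

namespace Pool.Agent.Q79.CV

open Pool.Agent.Q61.CV

theorem cva : S_CVa := by
  intro a χ χ' m r hχ hχ' hper hr hm hma hmb t ht
  have hmono : StrictMono χ := strictMono_of_hasDerivAt_pos hχ hχ'
  have hpi := Real.pi_pos
  rcases le_total (χ t - χ a) Real.pi with h | h
  · have h1 : AntitoneOn m (Icc a t) := by
      refine antitoneOn_of_deriv_nonpos (convex_Icc a t)
        (fun x _ => (hm x).continuousAt.continuousWithinAt)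
        (fun x _ => (hm x).differentiableAt.differentiableWithinAt) ?_
      intro x hx
      rw [interior_Icc] at hx
      rw [(hm x).deriv]
      have h2 := hmono hx.1
      have h3 := hmono hx.2
      have h4 := Real.sin_nonneg_of_nonneg_of_le_pi (x := χ x - χ a) (by linarith) (by linarith)
      have := mul_nonneg (hr x).le h4
      linarith
    have h2 := h1 (left_mem_Icc.2 ht.1) (right_mem_Icc.2 ht.1) ht.1
    rwa [hma] at h2
  · have h1 : MonotoneOn m (Icc t (a + 2 * Real.pi)) := by
      refine monotoneOn_of_deriv_nonneg (convex_Icc _ _)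
        (fun x _ => (hm x).continuousAt.continuousWithinAt)
        (fun x _ => (hm x).differentiableAt.differentiableWithinAt) ?_
      intro x hx
      rw [interior_Icc] at hx
      rw [(hm x).deriv]
      have h2 := hmono hx.1
      have h3 := hmono hx.2
      rw [hper] at h3
      have h4 := Real.sin_nonneg_of_nonneg_of_le_pi (x := χ x - χ a - Real.pi) (by linarith)
        (by linarith)
      rw [Real.sin_sub_pi] at h4
      have := mul_nonneg (hr x).le h4
      linarith
    have h2 := h1 (left_mem_Icc.2 ht.2) (right_mem_Icc.2 ht.2) ht.2
    rwa [hmb] at h2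

end Pool.Agent.Q79.CV
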