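import Pool.Agent.Q79.CV.Inv

set_option autoImplicit false

open MeasureTheory Set Filter Topology Metric
open scoped ContDiff RealInnerProductSpace ComplexConjugate NNReal

namespace Pool.Agent.Q79.CV

open Pool.Agent.Q61.CV

/-- the unit circle -/
noncomputable def ee (t : ℝ) : ℂ := Complex.exp (t * Complex.I)

theorem ee_deriv (t : ℝ) : HasDerivAt ee (ee t * Complex.I) t := by
  have h1 := (((hasDerivAt_id t).ofReal_comp).mul_const Complex.I).cexp
  simp only [id_eq, Complex.ofReal_one, one_mul] at h1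
  exact h1

theorem norm_ee (t : ℝ) : ‖ee t‖ = 1 := Complex.norm_exp_ofReal_mul_I t

theorem ee_add_two_pi (t : ℝ) : ee (t + 2 * Real.pi) = ee t := by
  unfold ee
  have h1 : ((t + 2 * Real.pi : ℝ) : ℂ) * Complex.I =
      (t : ℂ) * Complex.I + 2 * Real.pi * Complex.I := by
    push_cast
    ring
  rw [h1, Complex.exp_add, Complex.exp_two_pi_mul_I, mul_one]

theorem exists_ee (a : ℝ) {ζ : ℂ} (hζ : ‖ζ‖ = 1) :
    ∃ t ∈ Icc a (a + 2 * Real.pi), ee t = ζ := by
  obtain ⟨n, hn, -⟩ := existsUnique_add_zsmul_mem_Ico (a := 2 * Real.pi) (by positivity)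
    (Complex.arg ζ) a
  refine ⟨Complex.arg ζ + n • (2 * Real.pi), ⟨hn.1, hn.2.le⟩, ?_⟩
  unfold ee
  have h1 : ((Complex.arg ζ + n • (2 * Real.pi) : ℝ) : ℂ) * Complex.I =
      (Complex.arg ζ : ℂ) * Complex.I + n * (2 * Real.pi * Complex.I) := by
    push_cast
    simp only [zsmul_eq_mul]
    ring
  rw [h1, Complex.exp_add, Complex.exp_int_mul_two_pi_mul_I, mul_one]
  have h2 := Complex.norm_mul_exp_arg_mul_I ζ
  rwa [hζ, Complex.ofReal_one, one_mul] at h2

/-- chain rule along the circle -/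
theorem comp_ee {f : ℂ → ℂ} {c : ℂ} {t : ℝ} (h : HasDerivAt f c (ee t)) :
    HasDerivAt (fun t => f (ee t)) (c * (ee t * Complex.I)) t := by
  have h1 := (h.hasFDerivAt.restrictScalars ℝ).comp_hasDerivAt t (ee_deriv t)
  refine h1.congr_deriv ?_
  simp [mul_comm]

theorem cvb (h : S_CVa) : S_CVb := by
  intro R f hR hf hc ζ₀ ζ hζ₀ hζ
  have hmemR : ∀ t, ee t ∈ ball (0 : ℂ) R := by
    intro t
    rw [mem_ball_zero_iff, norm_ee]
    exact hR
  set p := deriv f with hp
  have hpne : ∀ t, p (ee t) ≠ 0 := fun t => good_ne hf (hmemR t)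
  have hslit : ∀ t, p (ee t) ∈ Complex.slitPlane := by
    intro t
    have h1 := (hf _ (hmemR t)).2
    left
    have h2 := Complex.abs_re_le_norm (p (ee t) - 1)
    rw [Complex.sub_re, Complex.one_re, abs_le] at h2
    linarith [h2.1]
  have hpd : ∀ t, HasDerivAt p (deriv p (ee t)) (ee t) := fun t =>
    (good_analytic hf (hmemR t)).deriv.differentiableAt.hasDerivAt
  set χ : ℝ → ℝ := fun t => t + (Complex.log (p (ee t))).im with hχ
  have hL : ∀ t, HasDerivAt (fun t => Complex.log (p (ee t)))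
      (deriv p (ee t) * (ee t * Complex.I) / p (ee t)) t := fun t =>
    (comp_ee (hpd t)).clog_real (hslit t)
  have hLim : ∀ t, HasDerivAt (fun t => (Complex.log (p (ee t))).im)
      (deriv p (ee t) * (ee t * Complex.I) / p (ee t)).im t := fun t =>
    Complex.imCLM.hasFDerivAt.comp_hasDerivAt t (hL t)
  have hχd : ∀ t, HasDerivAt χ (1 + (ee t * deriv p (ee t) / p (ee t)).re) t := by
    intro t
    refine ((hasDerivAt_id t).add (hLim t)).congr_deriv ?_
    have h1 : deriv p (ee t) * (ee t * Complex.I) / p (ee t) =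
        (ee t * deriv p (ee t) / p (ee t)) * Complex.I := by ring
    rw [h1, Complex.mul_I_im]
  have hχpos : ∀ t, 0 < 1 + (ee t * deriv p (ee t) / p (ee t)).re := by
    intro t
    have h1 := hc (ee t) (norm_ee t)
    have h2 := Complex.abs_re_le_norm (ee t * deriv p (ee t) / p (ee t))
    rw [abs_le] at h2
    linarith [h2.1]
  have hpolar : ∀ t, ee t * p (ee t) = (‖p (ee t)‖ : ℂ) * Complex.exp (χ t * Complex.I) := by
    intro t
    have h1 : Complex.exp (χ t * Complex.I) =
        ee t * Complex.exp (Complex.arg (p (ee t)) * Complex.I) := by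
      rw [hχ]
      simp only [Complex.log_im]
      unfold ee
      rw [← Complex.exp_add]
      congr 1
      push_cast
      ring
    rw [h1]
    have h2 := Complex.norm_mul_exp_arg_mul_I (p (ee t))
    calc ee t * p (ee t) = ee t * ((‖p (ee t)‖ : ℂ) *
          Complex.exp (Complex.arg (p (ee t)) * Complex.I)) := by rw [h2]
      _ = _ := by ring
  obtain ⟨a, -, ha⟩ := exists_ee 0 hζ₀
  obtain ⟨t, ht, hte⟩ := exists_ee a hζ
  set m : ℝ → ℝ := fun t => (conj (ζ₀ * p ζ₀) * (f (ee t) - f ζ₀)).re with hm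
  have hmd : ∀ t, HasDerivAt m (-((‖p ζ₀‖ * ‖p (ee t)‖) * Real.sin (χ t - χ a))) t := by
    intro t
    have h1 : HasDerivAt (fun t => f (ee t)) (p (ee t) * (ee t * Complex.I)) t :=
      comp_ee (hf _ (hmemR t)).1.hasDerivAt
    have h2 := Complex.reCLM.hasFDerivAt.comp_hasDerivAt t
      ((h1.sub_const (f ζ₀)).const_mul (conj (ζ₀ * p ζ₀)))
    refine HasDerivAt.congr_deriv h2 ?_
    have h3 : conj (ζ₀ * p ζ₀) * (p (ee t) * (ee t * Complex.I)) =
        ((‖p ζ₀‖ * ‖p (ee t)‖ : ℝ) : ℂ) *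
          (Complex.exp (((χ t - χ a : ℝ) : ℂ) * Complex.I) * Complex.I) := by
      have h4 := hpolar a
      rw [ha] at h4
      rw [h4]
      have h5 : p (ee t) * (ee t * Complex.I) = (ee t * p (ee t)) * Complex.I := by ring
      rw [h5, hpolar t, map_mul, Complex.conj_ofReal, ← Complex.exp_conj, map_mul,
        Complex.conj_ofReal, Complex.conj_I]
      have h6 : Complex.exp (((χ t - χ a : ℝ) : ℂ) * Complex.I) =
          Complex.exp (χ a * -Complex.I) * Complex.exp (χ t * Complex.I) := by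
        rw [← Complex.exp_add]
        congr 1
        push_cast
        ring
      rw [h6]
      push_cast
      ring
    show (conj (ζ₀ * p ζ₀) * (p (ee t) * (ee t * Complex.I))).re = _
    rw [h3, Complex.re_ofReal_mul, Complex.mul_I_re, Complex.exp_ofReal_mul_I_im]
    ring
  have hma : m a = 0 := by
    rw [hm]
    simp only
    rw [ha, sub_self, mul_zero, Complex.zero_re]
  have hmb : m (a + 2 * Real.pi) = 0 := by
    rw [hm]
    simp only
    rw [ee_add_two_pi, ha, sub_self, mul_zero, Complex.zero_re]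
  have hper : χ (a + 2 * Real.pi) = χ a + 2 * Real.pi := by
    rw [hχ]
    simp only
    rw [ee_add_two_pi]
    ring
  have h1 := h a χ _ m (fun t => ‖p ζ₀‖ * ‖p (ee t)‖) hχd hχpos hper (fun t => by
    have h2 := hpne t
    have h3 := hpne a
    rw [ha] at h3
    exact mul_pos (norm_pos_iff.2 h3) (norm_pos_iff.2 h2)) hmd hma hmb t ht
  rw [hm] at h1
  simp only at h1
  rwa [hte] at h1

end Pool.Agent.Q79.CV
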