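import Pool.Agent.Q79.CV.Inv

set_option autoImplicit false

open MeasureTheory Set Filter Topology Metric
open scoped ContDiff RealInnerProductSpace ComplexConjugate NNReal

namespace Pool.Agent.Q79.CV

open Pool.Agent.Q61.CV

theorem preconn_frontier {X : Type*} [TopologicalSpace X] {s D : Set X} (hs : IsPreconnected s)
    (hD : IsOpen D) (h1 : (s ∩ D).Nonempty) (h2 : (s ∩ Dᶜ).Nonempty) :
    (s ∩ frontier D).Nonempty := by
  by_contra hcon
  have hno : ∀ x ∈ s, x ∉ frontier D := fun x hx hxf => hcon ⟨x, hx, hxf⟩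
  rw [hD.frontier_eq] at hno
  have h3 : s ⊆ D ∪ (closure D)ᶜ := by
    intro x hx
    by_cases hxD : x ∈ D
    · exact Or.inl hxD
    · exact Or.inr fun hxc => hno x hx ⟨hxc, hxD⟩
  have h4 : (s ∩ (closure D)ᶜ).Nonempty := by
    obtain ⟨x, hx, hxD⟩ := h2
    exact ⟨x, hx, fun hxc => hno x hx ⟨hxc, hxD⟩⟩
  obtain ⟨x, -, hx1, hx2⟩ := hs D (closure D)ᶜ hD isClosed_closure.isOpen_compl h3 h1 h4
  exact hx2 (subset_closure hx1)

theorem cvc (hd : S_DOM) : S_CVc := by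
  intro R f hR hf hc
  obtain ⟨hdom, -, hfr, -⟩ := hd R f hR hf
  have hsub : closedBall (0 : ℂ) 1 ⊆ ball (0 : ℂ) R := closedBall_subset_ball hR
  -- strict supporting lines
  have key : ∀ ζ₀ : ℂ, ‖ζ₀‖ = 1 → ∀ ζ ∈ ball (0 : ℂ) 1,
      (conj (ζ₀ * deriv f ζ₀) * (f ζ - f ζ₀)).re < 0 := by
    intro ζ₀ hζ₀ ζ hζ
    set c : ℂ := conj (ζ₀ * deriv f ζ₀) with hcdef
    have hζ₀R : ζ₀ ∈ ball (0 : ℂ) R := hsub (by rw [mem_closedBall_zero_iff, hζ₀])
    have hc0 : c ≠ 0 := by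
      rw [hcdef, Ne, map_eq_zero, mul_eq_zero, not_or]
      refine ⟨?_, good_ne hf hζ₀R⟩
      intro h
      rw [h, norm_zero] at hζ₀
      exact zero_ne_one hζ₀
    set G : ℂ → ℂ := fun z => Complex.exp (c * (f z - f ζ₀)) with hG
    have hGd : ∀ z ∈ ball (0 : ℂ) R, HasDerivAt G (G z * (c * deriv f z)) z := by
      intro z hz
      exact (((hf z hz).1.hasDerivAt.sub_const (f ζ₀)).const_mul c).cexp
    have hGn : ∀ z, ‖G z‖ = Real.exp (c * (f z - f ζ₀)).re := fun z => Complex.norm_exp _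
    have hle : ∀ z ∈ closedBall (0 : ℂ) 1, ‖G z‖ ≤ 1 := by
      intro z hz
      have h1 : DiffContOnCl ℂ G (ball (0 : ℂ) 1) := by
        apply DifferentiableOn.diffContOnCl
        rw [closure_ball (0 : ℂ) one_ne_zero]
        exact fun w hw => (hGd w (hsub hw)).differentiableAt.differentiableWithinAt
      refine Complex.norm_le_of_forall_mem_frontier_norm_le isBounded_ball h1 ?_
        (by rwa [closure_ball (0 : ℂ) one_ne_zero])
      intro w hw
      rw [frontier_ball (0 : ℂ) one_ne_zero, mem_sphere_zero_iff_norm] at hw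
      rw [hGn, Real.exp_le_one_iff]
      exact hc ζ₀ w hζ₀ hw
    have h1 := hle ζ (ball_subset_closedBall hζ)
    rw [hGn, Real.exp_le_one_iff] at h1
    refine lt_of_le_of_ne h1 fun h2 => ?_
    have h3 : ‖G ζ‖ = 1 := by rw [hGn, h2, Real.exp_zero]
    have h4 : IsMaxOn (norm ∘ G) (ball (0 : ℂ) 1) ζ := by
      intro w hw
      show ‖G w‖ ≤ ‖G ζ‖
      rw [h3]
      exact hle w (ball_subset_closedBall hw)
    have h5 := Complex.eqOn_of_isPreconnected_of_isMaxOn_norm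
      (convex_ball (0 : ℂ) 1).isPreconnected isOpen_ball
      (fun w hw => (hGd w (hsub (ball_subset_closedBall hw))).differentiableAt.differentiableWithinAt)
      hζ h4
    have h6 : G =ᶠ[𝓝 ζ] fun _ => G ζ := by
      filter_upwards [isOpen_ball.mem_nhds hζ] with w hw
      exact h5 hw
    have h7 : deriv G ζ = 0 := by
      rw [h6.deriv_eq]
      exact deriv_const _ _
    have hζR : ζ ∈ ball (0 : ℂ) R := hsub (ball_subset_closedBall hζ)
    rw [(hGd ζ hζR).deriv] at h7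
    have h8 : G ζ ≠ 0 := Complex.exp_ne_zero _
    exact (mul_ne_zero h8 (mul_ne_zero hc0 (good_ne hf hζR))) h7
  rw [convex_iff_segment_subset]
  intro z1 hz1 z2 hz2
  by_contra hcon
  rw [not_subset] at hcon
  obtain ⟨z, hz, hzD⟩ := hcon
  have h1 : (segment ℝ z1 z2 ∩ frontier (f '' ball (0 : ℂ) 1)).Nonempty := by
    exact preconn_frontier (convex_segment z1 z2).isPreconnected hdom.isOpen
      ⟨z1, left_mem_segment ℝ z1 z2, hz1⟩ ⟨z, hz, hzD⟩
  obtain ⟨x, hx, hxf⟩ := h1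
  rw [hfr] at hxf
  obtain ⟨ζ₀, hζ₀, rfl⟩ := hxf
  rw [mem_sphere_zero_iff_norm] at hζ₀
  obtain ⟨w1, hw1, rfl⟩ := hz1
  obtain ⟨w2, hw2, rfl⟩ := hz2
  have h2 := key ζ₀ hζ₀ w1 hw1
  have h3 := key ζ₀ hζ₀ w2 hw2
  obtain ⟨a, b, ha, hb, hab, hx⟩ := hx
  have h4 : (conj (ζ₀ * deriv f ζ₀) * (f ζ₀ - f ζ₀)).re =
      a * (conj (ζ₀ * deriv f ζ₀) * (f w1 - f ζ₀)).re +
      b * (conj (ζ₀ * deriv f ζ₀) * (f w2 - f ζ₀)).re := by
    rw [← Complex.re_ofReal_mul, ← Complex.re_ofReal_mul, ← Complex.add_re]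
    congr 1
    have hab' : (a : ℂ) + b = 1 := by exact_mod_cast hab
    have hx' : (a : ℂ) * f w1 + b * f w2 = f ζ₀ := by
      rw [← hx]
      simp
    calc conj (ζ₀ * deriv f ζ₀) * (f ζ₀ - f ζ₀)
        = conj (ζ₀ * deriv f ζ₀) * (((a : ℂ) * f w1 + b * f w2) - ((a : ℂ) + b) * f ζ₀) := by
          rw [hx', hab', one_mul]
      _ = _ := by ring
  rw [sub_self, mul_zero, Complex.zero_re] at h4
  rcases ha.lt_or_eq with ha' | ha'
  · have h5 := mul_neg_of_pos_of_neg ha' h2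
    have h6 := mul_nonpos_of_nonneg_of_nonpos hb h3.le
    linarith
  · have hb1 : b = 1 := by linarith
    rw [← ha', hb1] at h4
    linarith

end Pool.Agent.Q79.CV
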