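import Pool.Agent.Q79.CV.Inv

set_option autoImplicit false

open MeasureTheory Set Filter Topology Metric
open scoped ContDiff RealInnerProductSpace ComplexConjugate NNReal

namespace Pool.Agent.Q79.CV

open Pool.Agent.Q61.CV

/-- the gradient of `‖g y‖ ^ 2 - 1` -/
theorem grad_rho {g : ℂ → ℂ} {x ζ c : ℂ} (hg : HasDerivAt g c x) (hx : g x = ζ) :
    HasGradientAt (fun y => ‖g y‖ ^ 2 - 1) (2 * ζ * conj c) x := by
  rw [hasGradientAt_iff_hasFDerivAt]
  have h1 := (hg.hasFDerivAt.restrictScalars ℝ).norm_sq.sub_const 1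
  refine h1.congr_fderiv ?_
  ext v
  simp only [hx, smul_apply, ContinuousLinearMap.comp_apply,
    innerSL_apply_apply, InnerProductSpace.toDual_apply_apply, Complex.inner]
  simp only [ContinuousLinearMap.coe_restrictScalars', ContinuousLinearMap.toSpanSingleton_apply,
    smul_eq_mul, map_mul, Complex.conj_conj]
  have h2 : conj (2 : ℂ) = 2 := Complex.conj_ofNat 2
  rw [h2]
  have h3 : v * (2 * conj ζ * c) = ((2 : ℝ) : ℂ) * (v * c * conj ζ) := by
    push_cast
    ring
  rw [h3, Complex.re_ofReal_mul]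
  simp
  ring

theorem normal_of_inv {R : ℝ} {f g : ℂ → ℂ} (hR : 1 < R) (hf : Good R f)
    (hinj : InjOn f (ball (0 : ℂ) R)) (hg : IsInv R f g) {ζ : ℂ} (hζ : ‖ζ‖ = 1) :
    IsOutwardNormal (f '' ball (0 : ℂ) 1) (f ζ) (ζ * deriv f ζ / (‖deriv f ζ‖ : ℂ)) := by
  have hζR : ζ ∈ ball (0 : ℂ) R := by
    rw [mem_ball_zero_iff, hζ]
    exact hR
  have hne := good_ne hf hζR
  have h1 := grad_rho (hg.deriv ζ hζR) (hg.left ζ hζR)
  have h2 : gradient (fun y => ‖g y‖ ^ 2 - 1) (f ζ) = 2 * ζ * conj (deriv f ζ)⁻¹ := h1.gradient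
  have h3 : ‖2 * ζ * conj (deriv f ζ)⁻¹‖ = 2 * ‖deriv f ζ‖⁻¹ := by
    rw [norm_mul, norm_mul, hζ, RCLike.norm_conj, norm_inv]
    norm_num
  have hpos : 0 < ‖deriv f ζ‖ := norm_pos_iff.2 hne
  refine ⟨f '' ball (0 : ℂ) R, fun y => ‖g y‖ ^ 2 - 1, hg.isOpen, ⟨ζ, hζR, rfl⟩, ?_, ?_, ?_, ?_, ?_⟩
  · exact (hg.smooth.norm_sq ℝ).sub contDiffOn_const
  · simp only
    rw [hg.left ζ hζR, hζ]
    norm_num
  · rw [h2, ← norm_pos_iff, h3]
    positivity
  · rw [h2, h3, Complex.real_smul]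
    have h4 : conj (deriv f ζ)⁻¹ = deriv f ζ / ((‖deriv f ζ‖ : ℂ) ^ 2) := by
      rw [map_inv₀, inv_eq_one_div, div_eq_div_iff (by simpa using hne)
        (pow_ne_zero 2 (by exact_mod_cast hpos.ne')), one_mul, Complex.mul_conj,
        Complex.normSq_eq_norm_sq]
      push_cast
      rfl
    rw [h4]
    have h5 : (‖deriv f ζ‖ : ℂ) ≠ 0 := by exact_mod_cast hpos.ne'
    push_cast
    field_simp
  · rintro _ ⟨w, hw, rfl⟩
    simp only
    rw [hg.left w hw]
    constructor
    · rintro ⟨u, hu, huw⟩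
      have hu1 : ‖u‖ < 1 := by simpa using hu
      have : u = w := hinj (by
        rw [mem_ball_zero_iff]
        linarith) hw huw
      rw [← this]
      have := norm_nonneg u
      nlinarith
    · intro h
      refine ⟨w, ?_, rfl⟩
      rw [mem_ball_zero_iff]
      have := norm_nonneg w
      nlinarith

theorem dom (h : S_INJ) (hi : S_INV) : S_DOM := by
  intro R f hR hf
  obtain ⟨g, hg⟩ := hi R f (by linarith) hf
  have hinj := good_injOn h hf
  have hsub : closedBall (0 : ℂ) 1 ⊆ ball (0 : ℂ) R := closedBall_subset_ball hR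
  have hcont : ContinuousOn f (closedBall (0 : ℂ) 1) :=
    fun z hz => (hf z (hsub hz)).1.continuousAt.continuousWithinAt
  have hopen : IsOpen (f '' ball (0 : ℂ) 1) :=
    good_open hf isOpen_ball (ball_subset_ball hR.le)
  have hcomp : IsCompact (f '' closedBall (0 : ℂ) 1) :=
    (isCompact_closedBall _ _).image_of_continuousOn hcont
  have hcl : closure (f '' ball (0 : ℂ) 1) = f '' closedBall (0 : ℂ) 1 := by
    apply Subset.antisymm
    · exact closure_minimal (image_mono ball_subset_closedBall) hcomp.isClosed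
    · rw [← closure_ball (0 : ℂ) one_ne_zero]
      apply ContinuousOn.image_closure
      rw [closure_ball (0 : ℂ) one_ne_zero]
      exact hcont
  have hfr : frontier (f '' ball (0 : ℂ) 1) = f '' sphere (0 : ℂ) 1 := by
    rw [hopen.frontier_eq, hcl]
    ext y
    constructor
    · rintro ⟨⟨z, hz, rfl⟩, h2⟩
      refine ⟨z, ?_, rfl⟩
      rw [mem_sphere_zero_iff_norm]
      rw [mem_closedBall_zero_iff] at hz
      refine le_antisymm hz ?_
      by_contra hcon
      exact h2 ⟨z, by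
        rw [mem_ball_zero_iff]
        exact not_le.1 hcon, rfl⟩
    · rintro ⟨z, hz, rfl⟩
      have hz' := hz
      rw [mem_sphere_zero_iff_norm] at hz
      refine ⟨⟨z, sphere_subset_closedBall hz', rfl⟩, ?_⟩
      rintro ⟨w, hw, hwz⟩
      have : w = z := hinj (hsub (ball_subset_closedBall hw))
        (hsub (sphere_subset_closedBall hz')) hwz
      rw [this, mem_ball_zero_iff, hz] at hw
      exact lt_irrefl _ hw
  have hn : ∀ ζ : ℂ, ‖ζ‖ = 1 →
      IsOutwardNormal (f '' ball (0 : ℂ) 1) (f ζ) (ζ * deriv f ζ / (‖deriv f ζ‖ : ℂ)) :=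
    fun ζ hζ => normal_of_inv hR hf hinj hg hζ
  refine ⟨⟨?_, ?_, hopen, ?_⟩, hcl, hfr, hn⟩
  · exact hcomp.isBounded.subset (image_mono ball_subset_closedBall)
  · refine IsConnected.image ⟨⟨0, mem_ball_self one_pos⟩, (convex_ball _ _).isPreconnected⟩ f ?_
    exact hcont.mono ball_subset_closedBall
  · intro x hx
    rw [hfr] at hx
    obtain ⟨ζ, hζ, rfl⟩ := hx
    exact ⟨_, hn ζ (by rwa [mem_sphere_zero_iff_norm] at hζ)⟩

end Pool.Agent.Q79.CV
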