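import Pool.Agent.Q61.CV.Wie

set_option autoImplicit false

open Set Filter Topology
open scoped ComplexConjugate
open Pool.Agent.Helper87.VT (TW tau sBB eB wt)

namespace Pool.Agent.Q79.CV

open Pool.Agent.Q61.CV

section
variable {B : Type} [NormedCommRing B] [NormedAlgebra ℂ B] [CompleteSpace B]

theorem norm_one_B (T : TW ℂ B) : ‖(1 : B)‖ = 1 := by
  rw [← T.mon_one, T.mon_norm, Pool.Agent.Helper87.VT.wt_zero, norm_one, one_mul]

theorem ex_eq (x : B) : ex x = NormedSpace.exp x := by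
  rw [NormedSpace.exp_eq_tsum ℂ]
  rfl

theorem ex_hs (x : B) : HasSum (fun n : ℕ => ((n.factorial : ℂ)⁻¹) • x ^ n) (ex x) := by
  have h := NormedSpace.exp_series_hasSum_exp' (𝕂 := ℂ) x
  rw [← ex_eq] at h
  exact h

theorem real_hs (m : ℝ) : HasSum (fun n : ℕ => ((n.factorial : ℝ)⁻¹) * m ^ n) (Real.exp m) := by
  have h := NormedSpace.exp_series_hasSum_exp' (𝕂 := ℝ) m
  rw [← Real.exp_eq_exp_ℝ] at h
  exact h

theorem norm_fact (n : ℕ) : ‖((n.factorial : ℂ)⁻¹)‖ = ((n.factorial : ℝ)⁻¹) := by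
  rw [norm_inv, Complex.norm_natCast]

theorem ex_le (T : TW ℂ B) (x : B) : ‖ex x‖ ≤ Real.exp ‖x‖ := by
  have : NormOneClass B := ⟨norm_one_B T⟩
  rw [← (ex_hs x).tsum_eq]
  refine tsum_of_norm_bounded (real_hs ‖x‖) fun n => ?_
  rw [norm_smul, norm_fact]
  exact mul_le_mul_of_nonneg_left (norm_pow_le x n) (by positivity)

theorem pow_diff (T : TW ℂ B) {x y : B} {m : ℝ} (hx : ‖x‖ ≤ m) (hy : ‖y‖ ≤ m) (n : ℕ) :
    ‖x ^ (n + 1) - y ^ (n + 1)‖ ≤ (n + 1) * m ^ n * ‖x - y‖ := by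
  have : NormOneClass B := ⟨norm_one_B T⟩
  induction n with
  | zero => simp
  | succ n ih =>
    have h1 : x ^ (n + 1 + 1) - y ^ (n + 1 + 1) = x ^ (n + 1) * (x - y) +
        (x ^ (n + 1) - y ^ (n + 1)) * y := by ring
    rw [h1]
    have hm : 0 ≤ m := (norm_nonneg x).trans hx
    have h2 : ‖x ^ (n + 1)‖ ≤ m ^ (n + 1) :=
      (norm_pow_le x _).trans (pow_le_pow_left₀ (norm_nonneg _) hx _)
    calc ‖x ^ (n + 1) * (x - y) + (x ^ (n + 1) - y ^ (n + 1)) * y‖
        ≤ ‖x ^ (n + 1)‖ * ‖x - y‖ + ‖x ^ (n + 1) - y ^ (n + 1)‖ * ‖y‖ :=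
          (norm_add_le _ _).trans (add_le_add (norm_mul_le _ _) (norm_mul_le _ _))
      _ ≤ m ^ (n + 1) * ‖x - y‖ + ((n + 1) * m ^ n * ‖x - y‖) * m := by
          refine add_le_add (mul_le_mul_of_nonneg_right h2 (norm_nonneg _)) ?_
          exact mul_le_mul ih hy (norm_nonneg _) (by positivity)
      _ = _ := by
          push_cast
          ring

theorem fact_succ_inv (n : ℕ) : (((n + 1).factorial : ℝ)⁻¹) * ((n : ℝ) + 1) =
    ((n.factorial : ℝ)⁻¹) := by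
  rw [Nat.factorial_succ]
  push_cast
  field_simp

theorem ex_diff (T : TW ℂ B) (x y : B) :
    ‖ex x - ex y‖ ≤ ‖x - y‖ * Real.exp (max ‖x‖ ‖y‖) := by
  set m := max ‖x‖ ‖y‖ with hm
  have h1 : HasSum (fun n : ℕ => ((n.factorial : ℂ)⁻¹) • (x ^ n - y ^ n)) (ex x - ex y) := by
    have := (ex_hs x).sub (ex_hs y)
    simpa only [smul_sub] using this
  have h2 := (hasSum_nat_add_iff' (f := fun n : ℕ => ((n.factorial : ℂ)⁻¹) • (x ^ n - y ^ n)) 1).2
    h1
  simp only [Finset.sum_range_one, pow_zero, sub_self, smul_zero, sub_zero] at h2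
  rw [← h2.tsum_eq]
  refine tsum_of_norm_bounded ((real_hs m).mul_left ‖x - y‖) fun n => ?_
  rw [norm_smul, norm_fact]
  calc (((n + 1).factorial : ℝ)⁻¹) * ‖x ^ (n + 1) - y ^ (n + 1)‖
      ≤ (((n + 1).factorial : ℝ)⁻¹) * ((n + 1) * m ^ n * ‖x - y‖) :=
        mul_le_mul_of_nonneg_left (pow_diff T (le_max_left _ _) (le_max_right _ _) n)
          (by positivity)
    _ = ‖x - y‖ * (((((n + 1).factorial : ℝ)⁻¹) * ((n : ℝ) + 1)) * m ^ n) := by ring
    _ = _ := by rw [fact_succ_inv]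

theorem ex_diff2 (T : TW ℂ B) (x y : B) :
    ‖(ex x - x) - (ex y - y)‖ ≤ ‖x - y‖ * (max ‖x‖ ‖y‖ * Real.exp (max ‖x‖ ‖y‖)) := by
  set m := max ‖x‖ ‖y‖ with hm
  have hm0 : 0 ≤ m := (norm_nonneg x).trans (le_max_left _ _)
  have h1 : HasSum (fun n : ℕ => ((n.factorial : ℂ)⁻¹) • (x ^ n - y ^ n)) (ex x - ex y) := by
    have := (ex_hs x).sub (ex_hs y)
    simpa only [smul_sub] using this
  have h2 := (hasSum_nat_add_iff' (f := fun n : ℕ => ((n.factorial : ℂ)⁻¹) • (x ^ n - y ^ n)) 2).2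
    h1
  have h3 : ex x - ex y - ∑ i ∈ Finset.range 2, ((i.factorial : ℂ)⁻¹) • (x ^ i - y ^ i) =
      (ex x - x) - (ex y - y) := by
    simp [Finset.sum_range_succ]
    abel
  rw [h3] at h2
  rw [← h2.tsum_eq]
  have h4 : ∀ n : ℕ, (((n + 2).factorial : ℝ)⁻¹) * (((n : ℝ) + 1) + 1) ≤
      ((n.factorial : ℝ)⁻¹) := by
    intro n
    have h5 := fact_succ_inv (n + 1)
    push_cast at h5
    rw [show n + 2 = n + 1 + 1 from rfl, h5]
    have h6 : (n.factorial : ℝ) ≤ ((n + 1).factorial : ℝ) := by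
      exact_mod_cast Nat.factorial_le (Nat.le_succ n)
    exact inv_anti₀ (by positivity) h6
  refine tsum_of_norm_bounded (((real_hs m).mul_left m).mul_left ‖x - y‖) fun n => ?_
  rw [norm_smul, norm_fact]
  have h7 := pow_diff T (le_max_left ‖x‖ ‖y‖) (le_max_right ‖x‖ ‖y‖) (n + 1)
  rw [← hm] at h7
  push_cast at h7
  calc (((n + 2).factorial : ℝ)⁻¹) * ‖x ^ (n + 2) - y ^ (n + 2)‖
      ≤ (((n + 2).factorial : ℝ)⁻¹) * (((n : ℝ) + 1 + 1) * m ^ (n + 1) * ‖x - y‖) :=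
        mul_le_mul_of_nonneg_left h7 (by positivity)
    _ = ((((n + 2).factorial : ℝ)⁻¹) * ((n : ℝ) + 1 + 1)) * (m ^ (n + 1) * ‖x - y‖) := by ring
    _ ≤ ((n.factorial : ℝ)⁻¹) * (m ^ (n + 1) * ‖x - y‖) :=
        mul_le_mul_of_nonneg_right (h4 n) (by positivity)
    _ = _ := by
        rw [pow_succ]
        ring

end

/-- CV-28 -/
theorem e1' : S_E1 := by
  intro B _ _ _ T
  exact ⟨norm_one_B T, ex_le T⟩

/-- CV-28 -/
theorem e2' : S_E2 := by
  intro B _ _ _ T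
  have hb : ∀ x : B, x ∈ Metric.eball (0 : B) (NormedSpace.expSeries ℂ B).radius := by
    intro x
    rw [NormedSpace.expSeries_radius_eq_top]
    simp
  refine ⟨?_, ?_, ?_⟩
  · rw [ex_eq, NormedSpace.exp_zero]
  · intro x y
    rw [ex_eq, ex_eq, ex_eq]
    exact NormedSpace.exp_add_of_mem_ball (𝕂 := ℂ) (hb x) (hb y)
  · intro c
    have h := NormedSpace.algebraMap_exp_comm (𝕂 := ℂ) (𝔸 := B) c
    rw [← Complex.exp_eq_exp_ℂ, Algebra.algebraMap_eq_smul_one, Algebra.algebraMap_eq_smul_one]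
      at h
    rw [ex_eq, h]

/-- CV-29 -/
theorem e3' : S_E3 := by
  intro B _ _ _ T x y
  exact ex_diff T x y

/-- CV-29 -/
theorem e4' : S_E4 := by
  intro B _ _ _ T x y
  exact ex_diff2 T x y

theorem sBB_one {B : Type} [NormedCommRing B] [NormedAlgebra ℂ B] [CompleteSpace B] (T : TW ℂ B) :
    sBB T 1 = 1 := by
  have h := Pool.Agent.Helper87.VT.sBB_mon T 0 1
  rw [T.mon_one, neg_zero, map_one (starRingEnd ℂ), T.mon_one] at h
  exact h

theorem sBB_pow {B : Type} [NormedCommRing B] [NormedAlgebra ℂ B] [CompleteSpace B] (T : TW ℂ B)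
    (x : B) (n : ℕ) : sBB T (x ^ n) = sBB T x ^ n := by
  induction n with
  | zero => rw [pow_zero, pow_zero, sBB_one]
  | succ n ih => rw [pow_succ, pow_succ, Pool.Agent.Helper87.VT.sBB_mul, ih]

theorem eB_one {B : Type} [NormedCommRing B] [NormedAlgebra ℂ B] [CompleteSpace B] (T : TW ℂ B)
    {z : ℂ} (hz : ‖z‖ = 1) : eB T z 1 = 1 := by
  have h := Pool.Agent.Helper87.VT.eB_mon T hz 0 1
  rw [T.mon_one, zpow_zero, mul_one] at h
  exact h

theorem eB_pow {B : Type} [NormedCommRing B] [NormedAlgebra ℂ B] [CompleteSpace B] (T : TW ℂ B)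
    {z : ℂ} (hz : ‖z‖ = 1) (x : B) (n : ℕ) : eB T z (x ^ n) = eB T z x ^ n := by
  induction n with
  | zero => rw [pow_zero, pow_zero, eB_one T hz]
  | succ n ih => rw [pow_succ, pow_succ, Pool.Agent.Helper87.VT.eB_mul T hz, ih]

/-- CV-30 -/
theorem e5' : S_E5 := by
  intro B _ _ _ T x
  refine ⟨?_, ?_⟩
  · have h1 := (ex_hs x).mapL (sBB T)
    have h2 := ex_hs (sBB T x)
    have h3 : (fun n : ℕ => sBB T (((n.factorial : ℂ)⁻¹) • x ^ n)) =
        fun n : ℕ => ((n.factorial : ℂ)⁻¹) • (sBB T x) ^ n := by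
      funext n
      rw [Pool.Agent.Helper87.VT.sBB_smul, sBB_pow, map_inv₀, map_natCast]
    rw [h3] at h1
    exact h1.unique h2
  · intro z hz
    have h1 := (ex_hs x).mapL (eB T z)
    have h2 := NormedSpace.exp_series_hasSum_exp' (𝕂 := ℂ) (eB T z x)
    rw [← Complex.exp_eq_exp_ℂ] at h2
    have h3 : (fun n : ℕ => eB T z (((n.factorial : ℂ)⁻¹) • x ^ n)) =
        fun n : ℕ => ((n.factorial : ℂ)⁻¹) • (eB T z x) ^ n := by
      funext n
      rw [map_smul, eB_pow T hz]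
    rw [h3] at h1
    exact h1.unique h2

/-- CV-31 -/
theorem pr' : S_PR := by
  intro B _ _ _ T
  have hb : ∀ (n : ℤ) (r : ℂ), ‖(if 1 ≤ n then T.mon n else 0) r‖ ≤ 1 * (wt n * ‖r‖) := by
    intro n r
    rw [one_mul]
    by_cases h : 1 ≤ n
    · rw [if_pos h, T.mon_norm]
    · rw [if_neg h, _root_.zero_apply, norm_zero]
      exact mul_nonneg (Pool.Agent.Helper87.VT.wt_pos n).le (norm_nonneg _)
  refine ⟨T.exL (fun n => if 1 ≤ n then T.mon n else 0) 1 hb, ?_, ?_⟩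
  · intro n x
    by_cases hn : 1 ≤ n
    · rw [if_pos hn]
      revert x
      refine T.ind_eq _ _ (by fun_prop) (by fun_prop) (fun x y => by simp only [map_add])
        (fun x y => by simp only [map_add]) ?_
      intro m c
      rw [T.exL_mon]
      by_cases hm : 1 ≤ m
      · rw [if_pos hm]
      · rw [if_neg hm, _root_.zero_apply, map_zero, T.co_mon, if_neg (by omega)]
    · rw [if_neg hn]
      revert x
      refine T.ind_eq _ _ (by fun_prop) continuous_const (fun x y => by simp only [map_add])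
        (fun x y => by simp) ?_
      intro m c
      rw [T.exL_mon]
      by_cases hm : 1 ≤ m
      · rw [if_pos hm, T.co_mon, if_neg (by omega)]
      · rw [if_neg hm, _root_.zero_apply, map_zero]
  · intro x
    have h := T.exL_norm (fun n => if 1 ≤ n then T.mon n else 0) 1 hb x
    rwa [one_mul] at h

/-- CV-33 -/
theorem ep' (h1 : S_E1) (h3 : S_E3) : S_EP := by
  intro B _ _ _ T x y hx hy
  obtain ⟨-, g1⟩ := h1 T
  have c1 := Real.exp_one_lt_d9
  have c2 : Real.exp kp ≤ 1.2 := by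
    have h4 := Real.exp_bound' (x := kp) (by unfold kp; norm_num) (by unfold kp; norm_num) (n := 3)
      (by norm_num)
    refine h4.trans ?_
    unfold kp
    norm_num [Finset.sum_range_succ, Nat.factorial]
  have c3 : Real.exp (-kp) ≤ 1 := by
    rw [Real.exp_le_one_iff]
    unfold kp
    norm_num
  have key : ∀ z : B, ‖z‖ ≤ 1 → ‖ex z‖ ≤ 2.72 := fun z hz =>
    (g1 z).trans ((Real.exp_le_exp.2 hz).trans (by linarith))
  have n1 : ∀ c : ℝ, ‖((Real.exp c : ℝ) : ℂ)‖ = Real.exp c := fun c => by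
    rw [Complex.norm_real, Real.norm_of_nonneg (Real.exp_pos _).le]
  have d1 : ∀ z w : B, ‖z‖ ≤ 1 → ‖w‖ ≤ 1 → ‖ex z - ex w‖ ≤ 2.72 * ‖z - w‖ := by
    intro z w hz hw
    refine (h3 T z w).trans ?_
    rw [mul_comm]
    refine mul_le_mul_of_nonneg_right ?_ (norm_nonneg _)
    refine (Real.exp_le_exp.2 (max_le hz hw)).trans (by linarith)
  have hx' : ‖-x‖ ≤ 1 := by rwa [norm_neg]
  have hy' : ‖-y‖ ≤ 1 := by rwa [norm_neg]
  have e0 : Real.exp kp * 2.72 ≤ 4 := by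
    have := mul_le_mul_of_nonneg_right c2 (by norm_num : (0 : ℝ) ≤ 2.72)
    norm_num at this ⊢
    linarith
  refine ⟨?_, ?_, ?_, ?_⟩
  · unfold epB
    rw [norm_smul, n1]
    calc Real.exp (-kp) * ‖ex (-x)‖ ≤ 1 * 2.72 :=
          mul_le_mul c3 (key _ hx') (norm_nonneg _) zero_le_one
      _ ≤ 4 := by norm_num
  · unfold eiB
    rw [norm_smul, n1]
    exact (mul_le_mul_of_nonneg_left (key _ hx) (Real.exp_pos _).le).trans e0
  · unfold epB
    rw [← smul_sub, norm_smul, n1]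
    have h5 := d1 _ _ hx' hy'
    have h6 : ‖-x - -y‖ = ‖x - y‖ := by
      rw [← norm_neg]
      congr 1
      ring
    rw [h6] at h5
    calc Real.exp (-kp) * ‖ex (-x) - ex (-y)‖ ≤ 1 * (2.72 * ‖x - y‖) :=
          mul_le_mul c3 h5 (norm_nonneg _) zero_le_one
      _ ≤ 4 * ‖x - y‖ := by
          rw [one_mul]
          exact mul_le_mul_of_nonneg_right (by norm_num) (norm_nonneg _)
  · unfold eiB
    rw [← smul_sub, norm_smul, n1]
    calc Real.exp kp * ‖ex x - ex y‖ ≤ Real.exp kp * (2.72 * ‖x - y‖) :=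
          mul_le_mul_of_nonneg_left (d1 _ _ hx hy) (Real.exp_pos _).le
      _ = (Real.exp kp * 2.72) * ‖x - y‖ := by ring
      _ ≤ 4 * ‖x - y‖ := mul_le_mul_of_nonneg_right e0 (norm_nonneg _)

end Pool.Agent.Q79.CV
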