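import Pool.Agent.Q79.CV.N0b
import Pool.Agent.Q79.CV.Fix

set_option autoImplicit false

open Set Filter Topology
open scoped ComplexConjugate
open Pool.Agent.Helper87.VT (TW tau sBB eB wt tau_norm)

namespace Pool.Agent.Q79.CV

open Pool.Agent.Q61.CV

section
variable {B : Type} [NormedCommRing B] [NormedAlgebra ℂ B] [CompleteSpace B]

theorem XB_symm (T : TW ℂ B) (x : B) : sBB T (XB T x) = XB T x := by
  unfold XB
  rw [map_add, Pool.Agent.Helper87.VT.sBB_sBB, add_comm]

theorem co_symm (T : TW ℂ B) {z : B} (hz : sBB T z = z) (m : ℤ) :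
    T.co m z = conj (T.co (-m) z) := by
  have := Pool.Agent.Helper87.VT.co_sBB T m z
  rwa [hz] at this

theorem co_one (T : TW ℂ B) (m : ℤ) : T.co m (1 : B) = if m = 0 then 1 else 0 := by
  rw [← tau_zero T]
  exact Pool.Agent.Helper87.VT.co_tau T m 0

/-- The difference is a real constant. -/
theorem diff_const (hs : S_NS) (T : TW ℂ B) {P : B →L[ℂ] B} (hP : IsProj T P) {k : ℕ} {x : B}
    (hx : P (NB T k x) = x) : ∃ r : ℝ, NB T k x = XB T x + (r : ℂ) • (1 : B) := by
  set z := NB T k x with hz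
  have hzs : sBB T z = z := hs T k x
  have hxneg : ∀ m : ℤ, m < 1 → T.co m x = 0 := by
    intro m hm
    rw [← hx, hP.co, if_neg (by omega)]
  have hpos : ∀ m : ℤ, 1 ≤ m → T.co m z = T.co m (XB T x) := by
    intro m hm
    have h1 : T.co m x = T.co m z := by
      conv_lhs => rw [← hx]
      rw [hP.co, if_pos hm]
    unfold XB
    rw [map_add, Pool.Agent.Helper87.VT.co_sBB, hxneg (-m) (by omega), map_zero, add_zero, h1]
  have hneg : ∀ m : ℤ, m ≤ -1 → T.co m z = T.co m (XB T x) := by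
    intro m hm
    rw [co_symm T hzs, co_symm T (XB_symm T x) m, hpos (-m) (by omega)]
  have hr : conj (T.co 0 (z - XB T x)) = T.co 0 (z - XB T x) := by
    have h1 : sBB T (z - XB T x) = z - XB T x := by
      rw [map_sub, hzs, XB_symm]
    have h2 := co_symm T h1 0
    rw [neg_zero] at h2
    exact h2.symm
  refine ⟨(T.co 0 (z - XB T x)).re, ?_⟩
  rw [Complex.conj_eq_iff_re.1 hr]
  refine T.ext_co _ _ fun m => ?_
  rw [map_add, map_smul, co_one, smul_eq_mul]
  rcases lt_trichotomy m 0 with h | h | h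
  · rw [if_neg (by omega), mul_zero, add_zero, hneg m (by omega)]
  · rw [if_pos h, mul_one, h, map_sub]
    ring
  · rw [if_neg (by omega), mul_zero, add_zero, hpos m (by omega)]

theorem eB_psi (T : TW ℂ B) {x : B} (hx : ∀ m : ℤ, m < 1 → T.co m x = 0) {s : ℂ} (hs : ‖s‖ = 1) :
    eB T s x = psi (fun n : ℕ => T.co n x) s := by
  have h1 := Pool.Agent.Helper87.VT.eB_sum T hs x
  have h2 : HasSum ((fun n : ℤ => T.co n x * s ^ n) ∘ ((↑) : ℕ → ℤ)) (eB T s x) := by
    rw [Function.Injective.hasSum_iff Nat.cast_injective]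
    · exact h1
    · intro m hm
      have hm0 : m < 0 := by
        by_contra h
        exact hm ⟨m.toNat, Int.toNat_of_nonneg (not_lt.1 h)⟩
      rw [hx m (by omega), zero_mul]
  have h3 := h2.tsum_eq
  rw [← h3]
  unfold psi
  refine tsum_congr fun n => ?_
  simp

theorem eB_tau (T : TW ℂ B) {s : ℂ} (hs : ‖s‖ = 1) (n : ℤ) : eB T s (tau T n) = s ^ n := by
  unfold tau
  rw [Pool.Agent.Helper87.VT.eB_mon T hs, mul_one]

end

/-- CV-40 -/
theorem ev' (h5 : S_E5) (hs : S_NS) : S_EV := by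
  intro B _ _ _ T P hP k x hk hx hclose
  have hk0 : (0 : ℝ) < k := by exact_mod_cast hk
  have hkC : (k : ℂ) ≠ 0 := by
    exact_mod_cast (by omega : k ≠ 0)
  obtain ⟨r, hr⟩ := diff_const hs T hP hx
  have hxneg : ∀ m : ℤ, m < 1 → T.co m x = 0 := by
    intro m hm
    rw [← hx, hP.co, if_neg (by omega)]
  set y : ℕ → ℂ := fun n => T.co n x with hy
  have hco : ∀ n : ℕ, y n - (if n = 1 then (Y1 : ℂ) / k else 0) =
      T.co n (x - ((Y1 : ℂ) / k) • tau T 1) := by
    intro n
    rw [map_sub, map_smul, Pool.Agent.Helper87.VT.co_tau, smul_eq_mul]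
    by_cases h : n = 1
    · rw [if_pos h, if_pos (by omega), mul_one]
    · rw [if_neg h, if_neg (by omega), mul_zero]
  have hn := T.hn (x - ((Y1 : ℂ) / k) • tau T 1)
  have hterm : (fun n : ℕ => ‖y n - (if n = 1 then (Y1 : ℂ) / k else 0)‖ * 2 ^ n) =
      (fun n : ℤ => wt n * ‖T.co n (x - ((Y1 : ℂ) / k) • tau T 1)‖) ∘ ((↑) : ℕ → ℤ) := by
    funext n
    rw [hco, Function.comp_apply, Pool.Agent.Helper87.VT.wt_nat, mul_comm]
  refine ⟨r * (1 - sg) / (4 * k) - (1 - sg) * H0 k, ?_, ?_, ?_, ?_⟩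
  · exact hxneg 0 (by norm_num)
  · rw [hterm]
    exact hn.summable.comp_injective Nat.cast_injective
  · rw [hterm]
    refine (tsum_comp_le_tsum_of_inj hn.summable (fun m =>
      mul_nonneg (Pool.Agent.Helper87.VT.wt_pos m).le (norm_nonneg _)) Nat.cast_injective).trans ?_
    rw [hn.tsum_eq]
    exact hclose
  · intro s hs1
    have hs0 : s ≠ 0 := by
      intro h
      rw [h, norm_zero] at hs1
      exact zero_ne_one hs1
    have hpsi := eB_psi T hxneg hs1
    rw [← hy] at hpsi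
    obtain ⟨-, hexp⟩ := h5 T x
    have eX : eB T s (XB T x) = ((2 * (psi y s).re : ℝ) : ℂ) := by
      unfold XB
      rw [map_add, Pool.Agent.Helper87.VT.eB_sBB T hs1, hpsi, Complex.add_conj]
    have eep : s * eB T s (epB x) = se y s := by
      unfold epB se Psi
      rw [map_smul, (h5 T (-x)).2 s hs1, map_neg, hpsi, neg_add, Complex.exp_add, smul_eq_mul]
      push_cast
      rfl
    have eei : s⁻¹ * eB T s (eiB x) = (se y s)⁻¹ := by
      unfold eiB se Psi
      rw [map_smul, hexp s hs1, hpsi, Complex.exp_neg, mul_inv, inv_inv, Complex.exp_add,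
        smul_eq_mul]
      push_cast
      rfl
    have eQ : eB T s (QB T k x) = 1 + e1 k * se y s + e2 k * se y s ^ 2 := by
      unfold QB
      rw [map_add, map_add, eB_one T hs1, map_smul, map_smul,
        Pool.Agent.Helper87.VT.eB_mul T hs1, Pool.Agent.Helper87.VT.eB_mul T hs1, eB_pow T hs1,
        eB_tau T hs1, eB_tau T hs1, zpow_one, smul_eq_mul, smul_eq_mul, ← eep]
      have : s ^ (2 : ℤ) = s ^ 2 := by norm_cast
      rw [this]
      ring
    have eR : eB T s (RB T k x) = q2 k / 2 * se y s ^ 2 + q1 k * se y s - qm1 k / se y s -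
        qm2 k / (2 * se y s ^ 2) := by
      have d1 : qm1 k / se y s = qm1 k * (s⁻¹ * eB T s (eiB x)) := by
        rw [eei, div_eq_mul_inv]
      have d2 : qm2 k / (2 * se y s ^ 2) = qm2 k / 2 * (s⁻¹ * eB T s (eiB x)) ^ 2 := by
        rw [eei, inv_pow]
        field_simp
      rw [d1, d2, ← eep]
      unfold RB
      rw [map_sub, map_sub, map_add, map_smul, map_smul, map_smul, map_smul,
        Pool.Agent.Helper87.VT.eB_mul T hs1, Pool.Agent.Helper87.VT.eB_mul T hs1,
        Pool.Agent.Helper87.VT.eB_mul T hs1, Pool.Agent.Helper87.VT.eB_mul T hs1, eB_pow T hs1,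
        eB_pow T hs1, eB_tau T hs1, eB_tau T hs1, eB_tau T hs1, eB_tau T hs1, zpow_one,
        smul_eq_mul, smul_eq_mul, smul_eq_mul, smul_eq_mul]
      have f1 : s ^ (2 : ℤ) = s ^ 2 := by norm_cast
      have f2 : s ^ (-1 : ℤ) = s⁻¹ := zpow_neg_one s
      have f3 : s ^ (-2 : ℤ) = (s⁻¹) ^ 2 := by
        rw [zpow_neg, f1, inv_pow]
      rw [f1, f2, f3]
      ring
    have hconj : conj s = s⁻¹ := by
      rw [Complex.inv_def, Complex.normSq_eq_norm_sq, hs1]
      simp
    have eE : eB T s (ex (-((1 / (k : ℂ)) • ((2 * kp : ℂ) • (1 : B) + XB T x)))) =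
        ((Real.exp (-(2 * (Psi y s).re / k)) : ℝ) : ℂ) := by
      rw [(h5 T _).2 s hs1, map_neg, map_smul, map_add, map_smul, eB_one T hs1, eX,
        Complex.ofReal_exp]
      congr 1
      unfold Psi
      rw [Complex.add_re, Complex.ofReal_re, smul_eq_mul, smul_eq_mul]
      push_cast
      ring
    set q : ℂ := 1 + e1 k * se y s + e2 k * se y s ^ 2 with hq
    set R : ℂ := q2 k / 2 * se y s ^ 2 + q1 k * se y s - qm1 k / se y s -
        qm2 k / (2 * se y s ^ 2) with hR
    have eQQ : eB T s (QB T k x * sBB T (QB T k x)) = ((‖q‖ ^ 2 : ℝ) : ℂ) := by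
      rw [Pool.Agent.Helper87.VT.eB_mul T hs1, Pool.Agent.Helper87.VT.eB_sBB T hs1, eQ,
        Complex.mul_conj, Complex.normSq_eq_norm_sq]
    have eRR : eB T s (RB T k x + sBB T (RB T k x)) = ((2 * R.re : ℝ) : ℂ) := by
      rw [map_add, Pool.Agent.Helper87.VT.eB_sBB T hs1, eR, Complex.add_conj]
    have hy1 : T.co 1 x = y 1 := by
      rw [hy]
      simp
    have eW : eB T s (B1 k (T.co 1 x) • tau T (-1) + conj (B1 k (T.co 1 x)) • tau T 1 +
        (B2 k : ℂ) • (tau T 2 + tau T (-2))) =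
        ((2 * (B1 k (y 1) / s).re + 2 * B2 k * (s ^ 2).re : ℝ) : ℂ) := by
      have f1 : s ^ (2 : ℤ) = s ^ 2 := by norm_cast
      have f2 : s ^ (-1 : ℤ) = s⁻¹ := zpow_neg_one s
      have f3 : s ^ (-2 : ℤ) = conj (s ^ 2) := by
        rw [zpow_neg, f1, map_pow, hconj, inv_pow]
      have f4 : conj (B1 k (y 1)) * s = conj (B1 k (y 1) * s⁻¹) := by
        rw [map_mul, map_inv₀, hconj, inv_inv]
      rw [map_add, map_add, map_smul, map_smul, map_smul, map_add, eB_tau T hs1, eB_tau T hs1,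
        eB_tau T hs1, eB_tau T hs1, zpow_one, f1, f2, f3, smul_eq_mul, smul_eq_mul, smul_eq_mul,
        hy1, f4, Complex.add_conj, Complex.add_conj, div_eq_mul_inv]
      push_cast
      ring
    have h1 := congrArg (eB T s) hr
    unfold NB at h1
    rw [map_sub, map_sub, map_add, map_smul, Pool.Agent.Helper87.VT.eB_mul T hs1, eE, eQQ, eX,
      map_smul, eRR, map_smul, eW, map_add, eX, map_smul, eB_one T hs1, smul_eq_mul, smul_eq_mul,
      smul_eq_mul, smul_eq_mul, mul_one] at h1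
    have h2 : (k : ℝ) * (Real.exp (-(2 * (Psi y s).re / k)) * ‖q‖ ^ 2) + 2 * (psi y s).re -
        2 * (2 * R.re) - 4 * k / (1 - sg) * (2 * (B1 k (y 1) / s).re + 2 * B2 k * (s ^ 2).re) =
        2 * (psi y s).re + r := by
      exact_mod_cast h1
    have hsg := sg_facts.1.ne'
    set E := Real.exp (-(2 * (Psi y s).re / k)) with hE
    set W1 := (B1 k (y 1) / s).re with hW1
    set W2 := (s ^ 2).re with hW2
    have h3 : r = (k : ℝ) * (E * ‖q‖ ^ 2) - 2 * (2 * R.re) -
        4 * k / (1 - sg) * (2 * W1 + 2 * B2 k * W2) := by linarith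
    rw [h3]
    field_simp
    ring

end Pool.Agent.Q79.CV
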