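import Pool.Agent.Q79.CV.Inv

set_option autoImplicit false

open MeasureTheory Set Filter Topology Metric
open scoped ContDiff RealInnerProductSpace ComplexConjugate NNReal

namespace Pool.Agent.Q79.CV

open Pool.Agent.Q61.CV

theorem gl2 (h : S_INJ) (_hi : S_INV) (hg : S_GLUE) : S_GL2 := by
  intro R Θ f₁ f₂ L₁ L₂ hR hΘ hΘ1 hL₁ hL₂ heq
  refine ⟨max (2 * L₁) L₂, fun w hw1 hw2 => ?_⟩
  have hsub : closedBall (0 : ℂ) 1 ⊆ ball (0 : ℂ) R := closedBall_subset_ball hR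
  have hinj := good_injOn h hΘ
  have hcont : ContinuousOn Θ (closedBall (0 : ℂ) 1) :=
    fun z hz => (hΘ z (hsub hz)).1.continuousAt.continuousWithinAt
  have hK : IsCompact (Θ '' closedBall (0 : ℂ) 1) :=
    (isCompact_closedBall _ _).image_of_continuousOn hcont
  have hKK : ∀ y ∈ Θ '' closedBall (0 : ℂ) 1, ∀ z ∈ Θ '' closedBall (0 : ℂ) 1,
      dist (w y) (w z) ≤ (2 * L₁ : ℝ≥0) * dist y z := by
    rintro _ ⟨a, ha, rfl⟩ _ ⟨b, hb, rfl⟩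
    rw [hw1 a ha, hw1 b hb]
    have h1 := hL₁.dist_le_mul a ha b hb
    have h2 := (h R Θ hΘ a (hsub ha) b (hsub hb)).1
    rw [← dist_eq_norm, ← dist_eq_norm] at h2
    refine h1.trans ?_
    push_cast
    have h3 : (0 : ℝ) ≤ L₁ := L₁.2
    nlinarith
  have hLe1 : ((2 * L₁ : ℝ≥0) : ℝ) ≤ ((max (2 * L₁) L₂ : ℝ≥0) : ℝ) := by
    exact_mod_cast le_max_left _ _
  have hLe2 : ((L₂ : ℝ≥0) : ℝ) ≤ ((max (2 * L₁) L₂ : ℝ≥0) : ℝ) := by
    exact_mod_cast le_max_right _ _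
  have hout : ∀ z ∈ closedBall (0 : ℂ) 1, z ∉ Θ '' closedBall (0 : ℂ) 1 →
      ∃ V ∈ 𝓝 z, LipschitzOnWith (max (2 * L₁) L₂) w (V ∩ closedBall (0 : ℂ) 1) := by
    intro z hz hzK
    obtain ⟨V, hV, hVL⟩ := hL₂ z hz fun hm => hzK (image_mono ball_subset_closedBall hm)
    refine ⟨V ∩ (Θ '' closedBall (0 : ℂ) 1)ᶜ,
      inter_mem hV (hK.isClosed.isOpen_compl.mem_nhds hzK), ?_⟩
    refine LipschitzOnWith.of_dist_le_mul ?_
    rintro x ⟨⟨hx1, hx2⟩, hx3⟩ y ⟨⟨hy1, hy2⟩, hy3⟩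
    rw [hw2 x hx3 hx2, hw2 y hy3 hy2]
    exact (hVL.dist_le_mul x hx1 y hy1).trans (mul_le_mul_of_nonneg_right hLe2 dist_nonneg)
  have hpt : ∀ z ∈ closedBall (0 : ℂ) 1, ∃ V ∈ 𝓝 z, ∀ y ∈ V ∩ closedBall (0 : ℂ) 1,
      dist (w y) (w z) ≤ (max (2 * L₁) L₂ : ℝ≥0) * dist y z := by
    intro z hz
    by_cases hzK : z ∈ Θ '' closedBall (0 : ℂ) 1
    · obtain ⟨ζ, hζ, rfl⟩ := hzK
      by_cases hζ1 : ‖ζ‖ < 1
      · have h1 : Θ '' ball (0 : ℂ) 1 ∈ 𝓝 (Θ ζ) :=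
          (good_open hΘ isOpen_ball (ball_subset_ball hR.le)).mem_nhds
            ⟨ζ, by rwa [mem_ball_zero_iff], rfl⟩
        refine ⟨_, h1, fun y hy => ?_⟩
        exact (hKK y (image_mono ball_subset_closedBall hy.1) _ ⟨ζ, hζ, rfl⟩).trans
          (mul_le_mul_of_nonneg_right hLe1 dist_nonneg)
      · have hζ2 : ‖ζ‖ = 1 := by
          rw [mem_closedBall_zero_iff] at hζ
          exact le_antisymm hζ (not_lt.1 hζ1)
        obtain ⟨V, hV, hVL⟩ := hL₂ (Θ ζ) hz (by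
          rintro ⟨b, hb, hbζ⟩
          have : b = ζ := hinj (hsub (ball_subset_closedBall hb)) (hsub hζ) hbζ
          rw [this, mem_ball_zero_iff] at hb
          exact hζ1 hb)
        refine ⟨V, hV, fun y hy => ?_⟩
        by_cases hyK : y ∈ Θ '' closedBall (0 : ℂ) 1
        · exact (hKK y hyK _ ⟨ζ, hζ, rfl⟩).trans (mul_le_mul_of_nonneg_right hLe1 dist_nonneg)
        · rw [hw2 y hy.2 hyK, hw1 ζ hζ, heq ζ hζ2]
          exact (hVL.dist_le_mul y hy.1 _ (mem_of_mem_nhds hV)).trans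
            (mul_le_mul_of_nonneg_right hLe2 dist_nonneg)
    · obtain ⟨V, hV, hVL⟩ := hout z hz hzK
      exact ⟨V, hV, fun y hy => hVL.dist_le_mul y hy z ⟨mem_of_mem_nhds hV, hz⟩⟩
  have hwc : ContinuousOn w (closedBall (0 : ℂ) 1) := by
    intro z hz
    obtain ⟨V, hV, hVw⟩ := hpt z hz
    show Tendsto w (𝓝[closedBall (0 : ℂ) 1] z) (𝓝 (w z))
    rw [tendsto_iff_dist_tendsto_zero]
    have h1 : Tendsto (fun y => ((max (2 * L₁) L₂ : ℝ≥0) : ℝ) * dist y z)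
        (𝓝[closedBall (0 : ℂ) 1] z) (𝓝 0) := by
      have h2 : Tendsto (fun y => ((max (2 * L₁) L₂ : ℝ≥0) : ℝ) * dist y z) (𝓝 z)
          (𝓝 (((max (2 * L₁) L₂ : ℝ≥0) : ℝ) * dist z z)) :=
        Continuous.tendsto (by fun_prop) z
      rw [dist_self, mul_zero] at h2
      exact h2.mono_left nhdsWithin_le_nhds
    refine squeeze_zero' (Eventually.of_forall fun _ => dist_nonneg) ?_ h1
    filter_upwards [mem_nhdsWithin_of_mem_nhds hV, self_mem_nhdsWithin] with y hy1 hy2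
    exact hVw y ⟨hy1, hy2⟩
  refine hg (closedBall (0 : ℂ) 1) (Θ '' closedBall (0 : ℂ) 1) w _ (convex_closedBall _ _)
    hK.isClosed hwc ?_ hout
  refine LipschitzOnWith.of_dist_le_mul ?_
  intro x hx y hy
  exact (hKK x hx.1 y hy.1).trans (mul_le_mul_of_nonneg_right hLe1 dist_nonneg)

end Pool.Agent.Q79.CV
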