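import Pool.Agent.Q61.CV.Stm

set_option autoImplicit false

open MeasureTheory Set Filter Topology Metric
open scoped ContDiff RealInnerProductSpace ComplexConjugate NNReal

namespace Pool.Agent.Q79.CV

open Pool.Agent.Q61.CV

theorem glue_aux {U K : Set ℂ} {f : ℂ → ℝ} {L : ℝ≥0} (hU : Convex ℝ U)
    (hf : ContinuousOn f U)
    (hloc : ∀ z ∈ U, z ∉ K → ∃ V ∈ 𝓝 z, LipschitzOnWith L f (V ∩ U)) {a b : ℂ}
    (ha : a ∈ U) (hb : b ∈ U) (hK : ∀ r ∈ Ico (0 : ℝ) 1, AffineMap.lineMap a b r ∉ K) :
    dist (f a) (f b) ≤ L * dist a b := by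
  set p : ℝ → ℂ := fun r => AffineMap.lineMap a b r with hp
  have hpc : Continuous p := AffineMap.lineMap_continuous
  have hpU : ∀ r ∈ Icc (0 : ℝ) 1, p r ∈ U := fun r hr => hU.lineMap_mem ha hb hr
  have hpd : ∀ r r', dist (p r) (p r') = dist r r' * dist a b := fun r r' =>
    dist_lineMap_lineMap a b r r'
  have hp0 : p 0 = a := AffineMap.lineMap_apply_zero a b
  have hp1 : p 1 = b := AffineMap.lineMap_apply_one a b
  have hclosed : IsClosed ({r : ℝ | dist (f a) (f (p r)) ≤ L * dist a b * r} ∩ Icc 0 1) := by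
    have h1 : ({r : ℝ | dist (f a) (f (p r)) ≤ L * dist a b * r} ∩ Icc 0 1) =
        {r ∈ Icc (0 : ℝ) 1 | dist (f a) (f (p r)) ≤ L * dist a b * r} := by
      ext r
      exact and_comm
    rw [h1]
    refine isClosed_Icc.isClosed_le ?_ (by fun_prop)
    exact Continuous.comp_continuousOn (g := fun v => dist (f a) v)
      (continuous_const.dist continuous_id) (hf.comp hpc.continuousOn hpU)
  have h1 : Icc (0 : ℝ) 1 ⊆ {r : ℝ | dist (f a) (f (p r)) ≤ L * dist a b * r} := by
    refine hclosed.Icc_subset_of_forall_exists_gt ?_ ?_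
    · show dist (f a) (f (p 0)) ≤ L * dist a b * 0
      rw [hp0, dist_self, mul_zero]
    · rintro x ⟨hx, hx0, hx1⟩ y hy
      obtain ⟨V, hV, hVL⟩ := hloc (p x) (hpU x ⟨hx0, hx1.le⟩) (hK x ⟨hx0, hx1⟩)
      have h2 : ∀ᶠ r in 𝓝[>] x, p r ∈ V :=
        nhdsWithin_le_nhds (hpc.continuousAt.preimage_mem_nhds hV)
      have h3 : ∀ᶠ r in 𝓝[>] x, r ∈ Ioc x (min y 1) :=
        Ioc_mem_nhdsGT (lt_min hy hx1)
      obtain ⟨r, hr1, hr2, hr3⟩ := (h2.and h3).exists
      have hrU : p r ∈ U := hpU r ⟨hx0.trans hr2.le, hr3.trans (min_le_right _ _)⟩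
      refine ⟨r, ?_, hr2, hr3.trans (min_le_left _ _)⟩
      have h4 := hVL.dist_le_mul (p x) ⟨mem_of_mem_nhds hV, hpU x ⟨hx0, hx1.le⟩⟩ (p r) ⟨hr1, hrU⟩
      have hxr : dist x r = r - x := by
        rw [dist_comm, Real.dist_eq, abs_of_pos (sub_pos.2 hr2)]
      rw [hpd, hxr] at h4
      have hx' : dist (f a) (f (p x)) ≤ L * dist a b * x := hx
      show dist (f a) (f (p r)) ≤ L * dist a b * r
      have h5 := dist_triangle (f a) (f (p x)) (f (p r))
      calc dist (f a) (f (p r)) ≤ dist (f a) (f (p x)) + dist (f (p x)) (f (p r)) := h5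
        _ ≤ L * dist a b * x + L * ((r - x) * dist a b) := add_le_add hx' h4
        _ = L * dist a b * r := by ring
  have h2 := h1 (right_mem_Icc.2 zero_le_one)
  simp only [mem_ofPred_eq, hp1, mul_one] at h2
  exact h2

theorem glue : S_GLUE := by
  intro U K f L hU hK hf hLK hloc
  refine LipschitzOnWith.of_dist_le_mul ?_
  intro a ha b hb
  set p : ℝ → ℂ := fun r => AffineMap.lineMap a b r with hp
  have hpc : Continuous p := AffineMap.lineMap_continuous
  have hpU : ∀ r ∈ Icc (0 : ℝ) 1, p r ∈ U := fun r hr => hU.lineMap_mem ha hb hr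
  have hpd : ∀ r r', dist (p r) (p r') = dist r r' * dist a b := fun r r' =>
    dist_lineMap_lineMap a b r r'
  have hp0 : p 0 = a := AffineMap.lineMap_apply_zero a b
  have hp1 : p 1 = b := AffineMap.lineMap_apply_one a b
  set T : Set ℝ := Icc (0 : ℝ) 1 ∩ p ⁻¹' K with hT
  have hTc : IsCompact T := isCompact_Icc.inter_right (hK.preimage hpc)
  by_cases hTn : T.Nonempty
  · have h1 := hTc.sInf_mem hTn
    have h2 := hTc.sSup_mem hTn
    set t1 := sInf T
    set t2 := sSup T
    have h12 : t1 ≤ t2 := csInf_le_csSup hTn hTc.bddBelow hTc.bddAbove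
    have e1 : dist (f a) (f (p t1)) ≤ L * (t1 * dist a b) := by
      rcases h1.1.1.eq_or_lt with h0 | h0
      · rw [← h0, hp0, dist_self, zero_mul, mul_zero]
      · have h3 := glue_aux hU hf hloc ha (hpU t1 h1.1) (by
          intro r hr hmem
          have h4 : AffineMap.lineMap a (p t1) r = p (r * t1) := by
            simp only [hp, AffineMap.lineMap_apply, vsub_eq_sub, vadd_eq_add, add_sub_cancel_right,
              smul_smul]
          rw [h4] at hmem
          have h5 : r * t1 < t1 := by nlinarith [hr.2]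
          have h6 : r * t1 ∈ T := ⟨⟨mul_nonneg hr.1 h0.le, h5.le.trans h1.1.2⟩, hmem⟩
          exact absurd (csInf_le hTc.bddBelow h6) (not_le.2 h5))
        have h4 : dist a (p t1) = t1 * dist a b := by
          have := hpd 0 t1
          rw [hp0, Real.dist_eq, zero_sub, abs_neg, abs_of_pos h0] at this
          exact this
        rwa [h4] at h3
    have e2 : dist (f (p t1)) (f (p t2)) ≤ L * ((t2 - t1) * dist a b) := by
      have h3 := hLK.dist_le_mul (p t1) ⟨h1.2, hpU t1 h1.1⟩ (p t2) ⟨h2.2, hpU t2 h2.1⟩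
      have hxr : dist t1 t2 = t2 - t1 := by
        rw [dist_comm, Real.dist_eq, abs_of_nonneg (sub_nonneg.2 h12)]
      rwa [hpd, hxr] at h3
    have e3 : dist (f b) (f (p t2)) ≤ L * ((1 - t2) * dist a b) := by
      rcases h2.1.2.eq_or_lt with h0 | h0
      · rw [h0, hp1, dist_self, sub_self, zero_mul, mul_zero]
      · have h3 := glue_aux hU hf hloc hb (hpU t2 h2.1) (by
          intro r hr hmem
          have h4 : AffineMap.lineMap b (p t2) r = p (1 - r * (1 - t2)) := by
            simp only [hp, AffineMap.lineMap_apply, vsub_eq_sub, vadd_eq_add]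
            simp only [Complex.real_smul]
            push_cast
            ring
          rw [h4] at hmem
          have h5 : t2 < 1 - r * (1 - t2) := by nlinarith [hr.2]
          have h6 : 1 - r * (1 - t2) ∈ T := ⟨⟨by linarith [h2.1.1], by nlinarith [hr.1]⟩, hmem⟩
          exact absurd (le_csSup hTc.bddAbove h6) (not_le.2 h5))
        have h4 : dist b (p t2) = (1 - t2) * dist a b := by
          have := hpd 1 t2
          rw [hp1, Real.dist_eq, abs_of_pos (sub_pos.2 h0)] at this
          exact this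
        rwa [h4] at h3
    have h3 := dist_triangle4 (f a) (f (p t1)) (f (p t2)) (f b)
    rw [dist_comm (f (p t2)) (f b)] at h3
    calc dist (f a) (f b) ≤ L * (t1 * dist a b) + L * ((t2 - t1) * dist a b) +
          L * ((1 - t2) * dist a b) := h3.trans (add_le_add (add_le_add e1 e2) e3)
      _ = L * dist a b := by ring
  · refine glue_aux hU hf hloc ha hb ?_
    intro r hr hmem
    exact hTn ⟨r, ⟨hr.1, hr.2.le⟩, hmem⟩

theorem ext : S_EXT := by
  intro Ω u L hΩ hL hz
  have key : ∀ x ∈ Ω, ∀ y, y ∉ closure Ω → dist (u x) (u y) ≤ L * dist x y := by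
    intro x hx y hy
    have hyΩ : y ∉ Ω := fun h => hy (subset_closure h)
    obtain ⟨c, hc1, hc2⟩ : (segment ℝ x y ∩ frontier Ω).Nonempty := by
      by_contra hcon
      have hno : ∀ z ∈ segment ℝ x y, z ∉ frontier Ω := fun z hz hzf => hcon ⟨z, hz, hzf⟩
      rw [hΩ.frontier_eq] at hno
      have h3 : segment ℝ x y ⊆ Ω ∪ (closure Ω)ᶜ := by
        intro z hz
        by_cases hzD : z ∈ Ω
        · exact Or.inl hzD
        · exact Or.inr fun hzc => hno z hz ⟨hzc, hzD⟩
      obtain ⟨z, -, hz1, hz2⟩ := (convex_segment x y).isPreconnected Ω (closure Ω)ᶜ hΩ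
        isClosed_closure.isOpen_compl h3 ⟨x, left_mem_segment ℝ x y, hx⟩
        ⟨y, right_mem_segment ℝ x y, hy⟩
      exact hz2 (subset_closure hz1)
    rw [hΩ.frontier_eq] at hc2
    have h1 := hL.dist_le_mul x (subset_closure hx) c hc2.1
    rw [hz c hc2.2] at h1
    rw [hz y hyΩ]
    refine h1.trans (mul_le_mul_of_nonneg_left ?_ L.2)
    have h2 := dist_add_dist_of_mem_segment hc1
    have h3 := dist_nonneg (x := c) (y := y)
    linarith
  refine LipschitzWith.of_dist_le_mul ?_
  intro x y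
  by_cases hx : x ∈ closure Ω
  · by_cases hy : y ∈ closure Ω
    · exact hL.dist_le_mul x hx y hy
    · by_cases hxΩ : x ∈ Ω
      · exact key x hxΩ y hy
      · rw [hz x hxΩ, hz y (fun h => hy (subset_closure h)), dist_self]
        positivity
  · by_cases hyΩ : y ∈ Ω
    · rw [dist_comm (u x), dist_comm x]
      exact key y hyΩ x hx
    · rw [hz x (fun h => hx (subset_closure h)), hz y hyΩ, dist_self]
      positivity

end Pool.Agent.Q79.CV
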