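import Pool.Agent.Q61.CV.Stm

set_option autoImplicit false

open MeasureTheory Set Filter Topology Metric
open scoped ContDiff RealInnerProductSpace ComplexConjugate NNReal

namespace Pool.Agent.Q79.CV

open Pool.Agent.Q61.CV

theorem inj : S_INJ := by
  intro R f hf a ha b hb
  have h1 : ∀ z ∈ ball (0 : ℂ) R, DifferentiableAt ℂ (fun z => f z - z) z :=
    fun z hz => (hf z hz).1.sub differentiableAt_id
  have h2 : ∀ z ∈ ball (0 : ℂ) R, ‖deriv (fun z => f z - z) z‖ ≤ 1 / 2 := by
    intro z hz
    have h3 : deriv (fun z => f z - z) z = deriv f z - 1 := by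
      rw [deriv_fun_sub (hf z hz).1 differentiableAt_fun_id]
      simp
    rw [h3]
    exact (hf z hz).2
  have h3 := Convex.norm_image_sub_le_of_norm_deriv_le h1 h2 (convex_ball (0 : ℂ) R) hb ha
  have h4 : f a - a - (f b - b) = (f a - f b) - (a - b) := by ring
  rw [h4] at h3
  have h5 := norm_sub_norm_le (a - b) (f a - f b)
  have h6 := norm_sub_norm_le (f a - f b) (a - b)
  rw [norm_sub_rev (a - b) (f a - f b)] at h5
  have h7 := norm_nonneg (a - b)
  constructor <;> linarith

end Pool.Agent.Q79.CV
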