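import Pool.Agent.Q61.CV.Stm

set_option autoImplicit false

open MeasureTheory Set Filter Topology Metric
open scoped ContDiff RealInnerProductSpace ComplexConjugate NNReal

namespace Pool.Agent.Q79.CV

open Pool.Agent.Q61.CV

theorem good_analytic {R : ℝ} {f : ℂ → ℂ} (hf : Good R f) {z : ℂ} (hz : z ∈ ball (0 : ℂ) R) :
    AnalyticAt ℂ f z := by
  have h1 : DifferentiableOn ℂ f (ball (0 : ℂ) R) :=
    fun w hw => (hf w hw).1.differentiableWithinAt
  exact h1.analyticAt (isOpen_ball.mem_nhds hz)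

theorem good_ne {R : ℝ} {f : ℂ → ℂ} (hf : Good R f) {z : ℂ} (hz : z ∈ ball (0 : ℂ) R) :
    deriv f z ≠ 0 := by
  intro h
  have h1 := (hf z hz).2
  rw [h, zero_sub, norm_neg, norm_one] at h1
  norm_num at h1

theorem good_injOn (h : S_INJ) {R : ℝ} {f : ℂ → ℂ} (hf : Good R f) :
    InjOn f (ball (0 : ℂ) R) := by
  intro a ha b hb hab
  have h1 := (h R f hf a ha b hb).1
  rw [hab, sub_self, norm_zero] at h1
  have h2 : ‖a - b‖ = 0 := le_antisymm (by linarith) (norm_nonneg _)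
  exact sub_eq_zero.1 (norm_eq_zero.1 h2)

theorem good_nhds {R : ℝ} {f : ℂ → ℂ} (hf : Good R f) {z : ℂ} (hz : z ∈ ball (0 : ℂ) R)
    {s : Set ℂ} (hs : s ∈ 𝓝 z) : f '' s ∈ 𝓝 (f z) := by
  have h1 := (good_analytic hf hz).hasStrictDerivAt
  rw [← h1.map_nhds_eq (good_ne hf hz)]
  exact image_mem_map hs

theorem good_open {R : ℝ} {f : ℂ → ℂ} (hf : Good R f) {U : Set ℂ} (hU : IsOpen U)
    (hUR : U ⊆ ball (0 : ℂ) R) : IsOpen (f '' U) := by
  rw [isOpen_iff_mem_nhds]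
  rintro _ ⟨z, hz, rfl⟩
  exact good_nhds hf (hUR hz) (hU.mem_nhds hz)

theorem inv (h : S_INJ) : S_INV := by
  intro R f _ hf
  have hinj := good_injOn h hf
  have hopen : IsOpen (f '' ball (0 : ℂ) R) := good_open hf isOpen_ball Subset.rfl
  set g := Function.invFunOn f (ball (0 : ℂ) R) with hg
  have hleft : ∀ z ∈ ball (0 : ℂ) R, g (f z) = z := hinj.leftInvOn_invFunOn
  have hlip : LipschitzOnWith 2 g (f '' ball (0 : ℂ) R) := by
    refine LipschitzOnWith.of_dist_le_mul ?_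
    rintro _ ⟨a, ha, rfl⟩ _ ⟨b, hb, rfl⟩
    rw [hleft a ha, hleft b hb, dist_eq_norm, dist_eq_norm]
    have h1 := (h R f hf a ha b hb).1
    norm_num
    linarith
  have hderiv : ∀ z ∈ ball (0 : ℂ) R, HasDerivAt g (deriv f z)⁻¹ (f z) := by
    intro z hz
    have hmem : f '' ball (0 : ℂ) R ∈ 𝓝 (f z) := hopen.mem_nhds ⟨z, hz, rfl⟩
    refine HasDerivAt.of_local_left_inverse (f := f) ?_ ?_ (good_ne hf hz) ?_
    · exact hlip.continuousOn.continuousAt hmem
    · rw [hleft z hz]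
      exact (hf z hz).1.hasDerivAt
    · filter_upwards [hmem] with y hy
      obtain ⟨w, hw, rfl⟩ := hy
      rw [hleft w hw]
  refine ⟨g, hleft, hopen, hderiv, hlip, ?_⟩
  have h1 : DifferentiableOn ℂ g (f '' ball (0 : ℂ) R) := by
    rintro _ ⟨z, hz, rfl⟩
    exact (hderiv z hz).differentiableAt.differentiableWithinAt
  exact (h1.contDiffOn hopen).restrict_scalars ℝ

end Pool.Agent.Q79.CV
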