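import Pool.Agent.Q61.CV.Wie

set_option autoImplicit false

open Set Filter Topology

namespace Pool.Agent.Q79.CV

open Pool.Agent.Q61.CV

theorem cc_bounds {k : ℕ} (hk : 1 ≤ k) : 0 < bb k ∧ bb k ≤ 1 ∧ bb k * k = 1 ∧ 0 ≤ e1 k ∧
    e1 k ≤ 2 * bb k ^ 2 ∧ e1 k * (k * (k + 1)) = 2 ∧
    0 ≤ e2 k ∧ e2 k ≤ bb k ^ 3 ∧ -(5 / 2) * bb k ^ 3 ≤ cc k + 1 / 2 ∧
    cc k + 1 / 2 ≤ bb k ^ 2 / 2 := by
  have hk0 : (0 : ℝ) < k := by exact_mod_cast hk
  have hk1 : (1 : ℝ) ≤ k := by exact_mod_cast hk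
  have hb : bb k * k = 1 := by
    unfold bb
    field_simp
  have hb0 : 0 < bb k := by
    unfold bb
    positivity
  have hb1 : bb k ≤ 1 := by
    unfold bb
    rw [div_le_one hk0]
    exact hk1
  have he1 : e1 k * (k * (k + 1)) = 2 := by
    unfold e1 bb
    field_simp
  have he10 : 0 ≤ e1 k := by
    unfold e1
    positivity
  have he1b : e1 k ≤ 2 * bb k ^ 2 := by
    have h1 : e1 k = 2 / (k * (k + 1)) := by
      rw [eq_div_iff (by positivity)]
      exact he1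
    have h2 : 2 * bb k ^ 2 = 2 / (k * k) := by
      unfold bb
      field_simp
    rw [h1, h2]
    refine div_le_div_of_nonneg_left (by norm_num) (by positivity) ?_
    nlinarith
  have he20 : 0 ≤ e2 k := by
    unfold e2
    positivity
  have he2b : e2 k ≤ bb k ^ 3 := by
    unfold e2
    rw [div_le_iff₀ (by positivity)]
    have h1 : bb k ^ 3 * (2 * k + 1) = bb k ^ 2 * (2 * (bb k * k)) + bb k ^ 3 := by ring
    rw [h1, hb]
    nlinarith [pow_pos hb0 2, pow_pos hb0 3]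
  have hN : (cc k + 1 / 2) * (2 * (1 + bb k ^ 2)) =
      bb k ^ 2 - 2 * bb k * e1 k - bb k ^ 2 * e2 k := by
    unfold cc
    have : (1 + bb k ^ 2) ≠ 0 := by positivity
    field_simp
    ring
  have hD : 0 < 2 * (1 + bb k ^ 2) := by positivity
  have p2 := pow_pos hb0 2
  have p3 := pow_pos hb0 3
  have p5 : bb k ^ 5 ≤ bb k ^ 3 := pow_le_pow_of_le_one hb0.le hb1 (by norm_num)
  have g1 : bb k * e1 k ≤ bb k * (2 * bb k ^ 2) := mul_le_mul_of_nonneg_left he1b hb0.le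
  have g2 : bb k ^ 2 * e2 k ≤ bb k ^ 2 * bb k ^ 3 := mul_le_mul_of_nonneg_left he2b p2.le
  have g3 : 0 ≤ bb k * e1 k := by positivity
  have g4 : 0 ≤ bb k ^ 2 * e2 k := by positivity
  have g5 : bb k * (2 * bb k ^ 2) = 2 * bb k ^ 3 := by ring
  have g6 : bb k ^ 2 * bb k ^ 3 = bb k ^ 5 := by ring
  refine ⟨hb0, hb1, hb, he10, he1b, he1, he20, he2b, ?_, ?_⟩
  · refine le_of_mul_le_mul_right ?_ hD
    rw [hN]
    have g7 : -(5 / 2) * bb k ^ 3 * (2 * (1 + bb k ^ 2)) = -5 * bb k ^ 3 - 5 * bb k ^ 5 := by ring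
    rw [g7]
    have p5' := pow_pos hb0 5
    linarith
  · refine le_of_mul_le_mul_right ?_ hD
    rw [hN]
    have g7 : bb k ^ 2 / 2 * (2 * (1 + bb k ^ 2)) = bb k ^ 2 + bb k ^ 4 := by ring
    rw [g7]
    have p4 := pow_pos hb0 4
    linarith

/-- CV-32 -/
theorem k' : S_K := by
  intro k hk
  obtain ⟨hb0, hb1, hb, he10, he1b, he1, he20, he2b, hc1, hc2⟩ := cc_bounds hk
  have hk0 : (0 : ℝ) < k := by exact_mod_cast hk
  have hbk : bb k = 1 / k := rfl
  have c2 : ∀ c : ℝ, c / (k : ℝ) = c * bb k := by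
    intro c
    rw [hbk]
    ring
  have c3 : ∀ c : ℝ, c / (k : ℝ) ^ 2 = c * bb k ^ 2 := by
    intro c
    rw [hbk]
    ring
  have c4 : ∀ c : ℝ, c / (k : ℝ) ^ 3 = c * bb k ^ 3 := by
    intro c
    rw [hbk]
    ring
  have p2 : bb k ^ 2 ≤ bb k := by nlinarith
  have p3 : bb k ^ 3 ≤ bb k := by nlinarith
  have p20 := pow_pos hb0 2
  have p30 := pow_pos hb0 3
  have hke : (k : ℝ) * e1 k = 2 / (k + 1) := by
    rw [eq_div_iff (by positivity)]
    linarith
  have hk1 : 1 / ((k : ℝ) + 1) ≤ bb k := by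
    rw [hbk]
    exact one_div_le_one_div_of_le hk0 (by linarith)
  have hk10 : 0 < 1 / ((k : ℝ) + 1) := by positivity
  have hbe0 : 0 ≤ bb k * e1 k := by positivity
  have hbe : bb k * e1 k ≤ 2 * bb k := by
    have : e1 k ≤ 2 := by nlinarith
    nlinarith
  have hq1 : (k : ℝ) * q1 k = 1 + bb k * e1 k / 2 + cc k := by
    unfold q1
    have h1 : (k : ℝ) * (bb k + bb k ^ 2 * e1 k / 2 + cc k * bb k) =
        (bb k * k) * (1 + bb k * e1 k / 2 + cc k) := by ring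
    rw [h1, hb, one_mul]
  have hqm1 : (k : ℝ) * qm1 k = 1 / (k + 1) + e2 k + cc k := by
    unfold qm1
    have h1 : (k : ℝ) * ((e1 k + 2 * bb k * e2 k) / 2 + cc k * bb k) =
        (k * e1 k) / 2 + (bb k * k) * (e2 k + cc k) := by ring
    rw [h1, hb, hke]
    ring
  have d1 : q1 k = bb k * (1 + bb k * e1 k / 2 + cc k) := by
    unfold q1
    ring
  have d2 : qm1 k = bb k * (1 / (k + 1) + e2 k + cc k) := by
    rw [← hqm1]
    have : bb k * ((k : ℝ) * qm1 k) = (bb k * k) * qm1 k := by ring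
    rw [this, hb, one_mul]
  have he2' : e2 k ≤ bb k := he2b.trans p3
  refine ⟨he10, ?_, ?_, he20, ?_, ?_, ?_, ?_, ?_, ?_, ?_, ?_, ?_⟩
  · rw [c3]
    exact he1b
  · have h1 : (k : ℝ) ^ 2 * e1 k - 2 = -(2 * (1 / (k + 1))) := by
      have h2 : (k : ℝ) ^ 2 * e1 k = k * (k * e1 k) := by ring
      rw [h2, hke]
      field_simp
      ring
    rw [h1, abs_neg, abs_of_pos (by positivity), c2]
    linarith
  · rw [c4]
    linarith
  · rw [d1, abs_mul, abs_of_pos hb0, c2, mul_comm]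
    refine mul_le_mul_of_nonneg_right ?_ hb0.le
    rw [abs_le]
    constructor <;> linarith
  · rw [hq1, c2, abs_le]
    constructor <;> linarith
  · rw [d2, abs_mul, abs_of_pos hb0, c2, mul_comm]
    refine mul_le_mul_of_nonneg_right ?_ hb0.le
    rw [abs_le]
    constructor <;> linarith
  · rw [hqm1, c2, abs_le]
    constructor <;> linarith
  · unfold q2
    positivity
  · unfold q2
    rw [c3]
    linarith
  · unfold qm2
    positivity
  · unfold qm2
    rw [c4]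
    linarith

end Pool.Agent.Q79.CV
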