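import Pool.Agent.Q79.CV.N1

set_option autoImplicit false

open Set Filter Topology
open scoped ComplexConjugate
open Pool.Agent.Helper87.VT (TW tau sBB eB wt tau_norm)

namespace Pool.Agent.Q79.CV

open Pool.Agent.Q61.CV

section
variable {B : Type} [NormedCommRing B] [NormedAlgebra ℂ B] [CompleteSpace B]

theorem tau_mul (T : TW ℂ B) (m n : ℤ) : tau T m * tau T n = tau T (m + n) := by
  unfold tau
  rw [T.mon_mul, one_mul]

theorem tau_zero (T : TW ℂ B) : tau T 0 = 1 := by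
  unfold tau
  exact T.mon_one

theorem P_tau (T : TW ℂ B) {P : B →L[ℂ] B} (hP : IsProj T P) (n : ℤ) :
    P (tau T n) = if 1 ≤ n then tau T n else 0 := by
  refine T.ext_co _ _ fun m => ?_
  rw [hP.co, Pool.Agent.Helper87.VT.co_tau]
  by_cases h : 1 ≤ n
  · rw [if_pos h, Pool.Agent.Helper87.VT.co_tau]
    by_cases h2 : m = n
    · rw [if_pos h2, if_pos (by omega)]
    · rw [if_neg h2, ite_self]
  · rw [if_neg h, map_zero]
    by_cases h2 : m = n
    · rw [if_neg (by omega)]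
    · rw [if_neg h2, ite_self]

/-- The value of `N` at `0`. -/
theorem NB_zero (h2 : S_E2) (T : TW ℂ B) {k : ℕ} {a α β γ δ ε η b c g : ℝ}
    (ha : a = Real.exp (-(2 * kp / k)))
    (hα : α = e1 k * Real.exp (-kp)) (hβ : β = e2 k * Real.exp (-kp) ^ 2)
    (hγ : γ = q2 k / 2 * Real.exp (-kp) ^ 2) (hδ : δ = q1 k * Real.exp (-kp))
    (hε : ε = qm1 k * Real.exp kp) (hη : η = qm2 k / 2 * Real.exp kp ^ 2)
    (hb : b = qm1 k / k * Real.exp kp) (hc : c = 4 * k / (1 - sg)) (hg : g = B2 k) :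
    NB T k (0 : B) = ((k * a * (1 + α ^ 2 + β ^ 2) : ℝ) : ℂ) • (1 : B) +
      ((k * a * (α + α * β) - 2 * (δ - ε) - c * b : ℝ) : ℂ) • (tau T 1 + tau T (-1)) +
      ((k * a * β - 2 * (γ - η) - c * g : ℝ) : ℂ) • (tau T 2 + tau T (-2)) := by
  obtain ⟨g1, -, g3⟩ := h2 T
  have hX : XB T (0 : B) = 0 := by
    unfold XB
    rw [map_zero, add_zero]
  have hep : epB (0 : B) = (Real.exp (-kp) : ℂ) • (1 : B) := by
    unfold epB
    rw [neg_zero, g1]
  have hei : eiB (0 : B) = (Real.exp kp : ℂ) • (1 : B) := by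
    unfold eiB
    rw [g1]
  have hQ : QB T k (0 : B) = 1 + (α : ℂ) • tau T 1 + (β : ℂ) • tau T 2 := by
    unfold QB
    rw [hep, smul_pow, one_pow, mul_smul_comm, mul_smul_comm, smul_smul, smul_smul, mul_one,
      mul_one, hα, hβ]
    push_cast
    rfl
  have hQs : sBB T (QB T k (0 : B)) = 1 + (α : ℂ) • tau T (-1) + (β : ℂ) • tau T (-2) := by
    rw [hQ, map_add, map_add, sBB_one, Pool.Agent.Helper87.VT.sBB_smul,
      Pool.Agent.Helper87.VT.sBB_smul, Pool.Agent.Helper87.VT.sBB_tau,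
      Pool.Agent.Helper87.VT.sBB_tau, Complex.conj_ofReal, Complex.conj_ofReal]
  have hR : RB T k (0 : B) = (γ : ℂ) • tau T 2 + (δ : ℂ) • tau T 1 - (ε : ℂ) • tau T (-1) -
      (η : ℂ) • tau T (-2) := by
    unfold RB
    rw [hep, hei, smul_pow, smul_pow, one_pow, mul_smul_comm, mul_smul_comm, mul_smul_comm,
      mul_smul_comm, smul_smul, smul_smul, smul_smul, smul_smul, mul_one, mul_one, mul_one,
      mul_one, hγ, hδ, hε, hη]
    push_cast
    rfl
  have hRs : sBB T (RB T k (0 : B)) = (γ : ℂ) • tau T (-2) + (δ : ℂ) • tau T (-1) -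
      (ε : ℂ) • tau T 1 - (η : ℂ) • tau T 2 := by
    rw [hR, map_sub, map_sub, map_add]
    simp only [Pool.Agent.Helper87.VT.sBB_smul, Pool.Agent.Helper87.VT.sBB_tau,
      Complex.conj_ofReal, neg_neg]
  have hB1 : B1 k (T.co 1 (0 : B)) = (b : ℂ) := by
    unfold B1
    rw [map_zero, mul_zero, add_zero, hb]
    push_cast
    rfl
  unfold NB
  rw [ex_shift h2 T k (XB T (0 : B)), hX, smul_zero, neg_zero, g1, add_zero, hQs, hQ, hRs, hR, hB1,
    Complex.conj_ofReal, ← ha, ← hc, ← hg]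
  have t1 : tau T 1 * tau T (-1) = (1 : B) := by
    rw [tau_mul, add_neg_cancel, tau_zero]
  have t2 : tau T 2 * tau T (-2) = (1 : B) := by
    rw [tau_mul, add_neg_cancel, tau_zero]
  have t3 : tau T 1 * tau T (-2) = (tau T (-1) : B) := by
    rw [tau_mul]
    norm_num
  have t4 : tau T 2 * tau T (-1) = (tau T 1 : B) := by
    rw [tau_mul]
    norm_num
  have hprod : (1 + (α : ℂ) • tau T 1 + (β : ℂ) • tau T 2) *
      (1 + (α : ℂ) • tau T (-1) + (β : ℂ) • tau T (-2)) =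
      ((1 + α ^ 2 + β ^ 2 : ℝ) : ℂ) • (1 : B) + ((α + α * β : ℝ) : ℂ) • (tau T 1 + tau T (-1)) +
        (β : ℂ) • (tau T 2 + tau T (-2)) := by
    have e : (1 + (α : ℂ) • tau T 1 + (β : ℂ) • tau T 2) *
      (1 + (α : ℂ) • tau T (-1) + (β : ℂ) • tau T (-2)) =
      1 + (α : ℂ) • tau T (-1) + (β : ℂ) • tau T (-2) + (α : ℂ) • tau T 1 +
      ((α : ℂ) * α) • (tau T 1 * tau T (-1)) + ((α : ℂ) * β) • (tau T 1 * tau T (-2)) +
      (β : ℂ) • tau T 2 + ((β : ℂ) * α) • (tau T 2 * tau T (-1)) +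
      ((β : ℂ) * β) • (tau T 2 * tau T (-2)) := by
      simp only [mul_add, add_mul, smul_mul_smul_comm, one_mul, mul_one]
      abel
    rw [e, t1, t2, t3, t4]
    push_cast
    module
  rw [hprod]
  simp only [smul_mul_assoc, one_mul]
  push_cast
  module

/-- The projection of `N 0`. -/
theorem P_NB_zero (T : TW ℂ B) {P : B →L[ℂ] B} (hP : IsProj T P) (c0 c1 c2 : ℂ) :
    P (c0 • (1 : B) + c1 • (tau T 1 + tau T (-1)) + c2 • (tau T 2 + tau T (-2))) =
      c1 • tau T 1 + c2 • tau T 2 := by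
  have h0 : P (1 : B) = 0 := by
    rw [← tau_zero T, P_tau T hP, if_neg (by norm_num)]
  rw [map_add, map_add, map_smul, map_smul, map_smul, map_add, map_add, h0, P_tau T hP 1,
    P_tau T hP (-1), P_tau T hP 2, P_tau T hP (-2), if_pos (by norm_num), if_neg (by norm_num),
    if_pos (by norm_num), if_neg (by norm_num), smul_zero, zero_add, add_zero, add_zero]

end

end Pool.Agent.Q79.CV
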