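import Pool.Agent.Q79.CV.QR

set_option autoImplicit false

open Set Filter Topology
open scoped ComplexConjugate
open Pool.Agent.Helper87.VT (TW tau sBB eB wt tau_norm)

namespace Pool.Agent.Q79.CV

open Pool.Agent.Q61.CV

section
variable {B : Type} [NormedCommRing B] [NormedAlgebra ℂ B] [CompleteSpace B]

theorem co_le (T : TW ℂ B) (n : ℤ) (z : B) : ‖T.co n z‖ ≤ ‖z‖ := by
  have h := le_hasSum (T.hn z) n (fun j _ =>
    mul_nonneg (Pool.Agent.Helper87.VT.wt_pos j).le (norm_nonneg _))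
  have h2 := Pool.Agent.Helper87.VT.one_le_wt n
  have h3 : ‖T.co n z‖ ≤ wt n * ‖T.co n z‖ := le_mul_of_one_le_left (norm_nonneg _) h2
  exact h3.trans h

theorem ex_shift (h2 : S_E2) (T : TW ℂ B) (k : ℕ) (X : B) :
    ex (-((1 / (k : ℂ)) • ((2 * kp : ℂ) • (1 : B) + X))) =
      ((Real.exp (-(2 * kp / k)) : ℝ) : ℂ) • ex (-((1 / (k : ℂ)) • X)) := by
  obtain ⟨-, g2, g3⟩ := h2 T
  have e : -((1 / (k : ℂ)) • ((2 * kp : ℂ) • (1 : B) + X)) =
      (-(2 * kp / k : ℂ)) • (1 : B) + -((1 / (k : ℂ)) • X) := by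
    rw [smul_add, smul_smul, neg_add, ← neg_smul]
    congr 2
    ring
  rw [e, g2, g3, smul_mul_assoc, one_mul]
  congr 1
  rw [Complex.ofReal_exp]
  push_cast
  rfl

theorem exp_two_le : Real.exp 2 ≤ 8 := by
  have h1 := Real.exp_one_lt_d9
  have h2 : Real.exp 2 = Real.exp 1 * Real.exp 1 := by
    rw [← Real.exp_add]
    norm_num
  rw [h2]
  have h3 := Real.exp_pos 1
  nlinarith

theorem XB_sub (T : TW ℂ B) (x y : B) : XB T x - XB T y = XB T (x - y) := by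
  unfold XB
  rw [map_sub]
  ring

theorem XB_norm (T : TW ℂ B) (x : B) : ‖XB T x‖ ≤ 2 * ‖x‖ := by
  unfold XB
  refine (norm_add_le _ _).trans ?_
  have := sBB_norm T x
  linarith

/-- The exponential part. -/
theorem n1_exp (h1 : S_E1) (h3 : S_E3) (h4 : S_E4) (T : TW ℂ B) {k : ℕ} (hk : 1 ≤ k) {C : ℝ}
    (hC : 0 ≤ C) {x y U V : B} (hx : ‖x‖ ≤ 1) (hy : ‖y‖ ≤ 1) (hU : ‖U - 1‖ ≤ C / (k : ℝ) ^ 2)
    (hUV : ‖U - V‖ ≤ C / (k : ℝ) ^ 2 * ‖x - y‖) {a : ℝ} (ha0 : 0 ≤ a) (ha1 : a ≤ 1)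
    (ha : 1 - a ≤ 2 * kp / k) :
    ‖(k : ℂ) • (((a : ℂ) • ex (-((1 / (k : ℂ)) • XB T x))) * U) + XB T x -
      ((k : ℂ) • (((a : ℂ) • ex (-((1 / (k : ℂ)) • XB T y))) * V) + XB T y)‖ ≤
      (33 + 24 * C) / k * ‖x - y‖ := by
  have hk0 : (0 : ℝ) < k := by exact_mod_cast hk
  have hk1 : (1 : ℝ) ≤ k := by exact_mod_cast hk
  have hkC : (k : ℂ) ≠ 0 := by
    exact_mod_cast (by omega : k ≠ 0)
  obtain ⟨-, g1⟩ := h1 T
  set d := ‖x - y‖ with hd
  have hd0 : 0 ≤ d := norm_nonneg _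
  set X := XB T x with hX
  set Y := XB T y with hY
  set Zx := -((1 / (k : ℂ)) • X) with hZx
  set Zy := -((1 / (k : ℂ)) • Y) with hZy
  have hik : ‖(1 / (k : ℂ))‖ = 1 / k := by
    rw [norm_div, norm_one, Complex.norm_natCast]
  have hXn : ‖X‖ ≤ 2 := (XB_norm T x).trans (by linarith)
  have hYn : ‖Y‖ ≤ 2 := (XB_norm T y).trans (by linarith)
  have hXY : ‖X - Y‖ ≤ 2 * d := by
    rw [hX, hY, XB_sub]
    exact XB_norm T _
  have hZxn : ‖Zx‖ ≤ 2 / k := by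
    rw [hZx, norm_neg, norm_smul, hik]
    calc 1 / (k : ℝ) * ‖X‖ ≤ 1 / k * 2 := mul_le_mul_of_nonneg_left hXn (by positivity)
      _ = 2 / k := by ring
  have hZyn : ‖Zy‖ ≤ 2 / k := by
    rw [hZy, norm_neg, norm_smul, hik]
    calc 1 / (k : ℝ) * ‖Y‖ ≤ 1 / k * 2 := mul_le_mul_of_nonneg_left hYn (by positivity)
      _ = 2 / k := by ring
  have hZ : Zx - Zy = -((1 / (k : ℂ)) • (X - Y)) := by
    rw [hZx, hZy, smul_sub]
    ring
  have hZn : ‖Zx - Zy‖ ≤ 2 / k * d := by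
    rw [hZ, norm_neg, norm_smul, hik]
    calc 1 / (k : ℝ) * ‖X - Y‖ ≤ 1 / k * (2 * d) := mul_le_mul_of_nonneg_left hXY (by positivity)
      _ = 2 / k * d := by ring
  have h2k : 2 / (k : ℝ) ≤ 2 := by
    rw [div_le_iff₀ hk0]
    linarith
  have hm : max ‖Zx‖ ‖Zy‖ ≤ 2 / k := max_le hZxn hZyn
  have hem : Real.exp (max ‖Zx‖ ‖Zy‖) ≤ 8 :=
    (Real.exp_le_exp.2 (hm.trans h2k)).trans exp_two_le
  have hey : ‖ex Zy‖ ≤ 8 :=
    (g1 Zy).trans ((Real.exp_le_exp.2 (hZyn.trans h2k)).trans exp_two_le)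
  have f3 := h3 T Zx Zy
  have f4 := h4 T Zx Zy
  have key : (k : ℂ) • (((a : ℂ) • ex Zx) * U) + X - ((k : ℂ) • (((a : ℂ) • ex Zy) * V) + Y) =
      ((k * a : ℝ) : ℂ) • ((ex Zx - Zx) - (ex Zy - Zy)) + ((1 - a : ℝ) : ℂ) • (X - Y) +
      ((k * a : ℝ) : ℂ) • ((ex Zx - ex Zy) * (U - 1) + ex Zy * (U - V)) := by
    have e1 : ((k * a : ℝ) : ℂ) • (Zx - Zy) = -((a : ℂ) • (X - Y)) := by
      rw [hZ, smul_neg, smul_smul]
      congr 2
      push_cast
      field_simp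
    have e2 : ((k * a : ℝ) : ℂ) • ((ex Zx - Zx) - (ex Zy - Zy)) =
        ((k * a : ℝ) : ℂ) • (ex Zx - ex Zy) + (a : ℂ) • (X - Y) := by
      have : (ex Zx - Zx) - (ex Zy - Zy) = (ex Zx - ex Zy) - (Zx - Zy) := by ring
      rw [this, smul_sub _ (ex Zx - ex Zy), e1]
      ring
    have e3 : ((1 - a : ℝ) : ℂ) • (X - Y) = (X - Y) - (a : ℂ) • (X - Y) := by
      push_cast
      rw [sub_smul, one_smul]
    have e4 : ∀ W : B, (k : ℂ) • ((a : ℂ) • W) = ((k * a : ℝ) : ℂ) • W := by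
      intro W
      rw [smul_smul]
      push_cast
      rfl
    rw [e2, e3, smul_mul_assoc, smul_mul_assoc, e4, e4]
    have e5 : (ex Zx - ex Zy) * (U - 1) + ex Zy * (U - V) =
        ex Zx * U - ex Zy * V - (ex Zx - ex Zy) := by ring
    rw [e5, smul_sub _ (ex Zx * U - ex Zy * V), smul_sub _ (ex Zx * U)]
    ring
  rw [key]
  refine norm_add₃_le.trans ?_
  rw [norm_smul, norm_smul, norm_smul, Complex.norm_real, Complex.norm_real,
    Real.norm_of_nonneg (by positivity), Real.norm_of_nonneg (by linarith)]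
  have hka : (k : ℝ) * a ≤ k := mul_le_of_le_one_right hk0.le ha1
  have t1 : (k : ℝ) * a * ‖ex Zx - Zx - (ex Zy - Zy)‖ ≤ 32 / k * d := by
    have s1 : ‖ex Zx - Zx - (ex Zy - Zy)‖ ≤ (2 / k * d) * (2 / k * 8) := by
      refine f4.trans (mul_le_mul hZn ?_ (by positivity) (by positivity))
      exact mul_le_mul hm hem (Real.exp_pos _).le (by positivity)
    calc (k : ℝ) * a * ‖ex Zx - Zx - (ex Zy - Zy)‖ ≤ k * ((2 / k * d) * (2 / k * 8)) :=
          mul_le_mul hka s1 (norm_nonneg _) hk0.le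
      _ = 32 / k * d := by
          field_simp
          ring
  have t2 : (1 - a) * ‖X - Y‖ ≤ 1 / k * d := by
    have s1 : (1 - a) * ‖X - Y‖ ≤ (2 * kp / k) * (2 * d) :=
      mul_le_mul ha hXY (norm_nonneg _) (by unfold kp; positivity)
    refine s1.trans ?_
    unfold kp
    have s2 : 2 * (1 / 10) / (k : ℝ) * (2 * d) = 0.4 * (1 / k * d) := by ring
    rw [s2]
    have : 0 ≤ 1 / (k : ℝ) * d := by positivity
    linarith
  have t3 : (k : ℝ) * a * ‖(ex Zx - ex Zy) * (U - 1) + ex Zy * (U - V)‖ ≤ 24 * C / k * d := by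
    have s1 : ‖ex Zx - ex Zy‖ ≤ 16 * d := by
      refine f3.trans ?_
      calc ‖Zx - Zy‖ * Real.exp (max ‖Zx‖ ‖Zy‖) ≤ (2 / k * d) * 8 :=
            mul_le_mul hZn hem (Real.exp_pos _).le (by positivity)
        _ ≤ (2 * d) * 8 :=
            mul_le_mul_of_nonneg_right (mul_le_mul_of_nonneg_right h2k hd0) (by norm_num)
        _ = 16 * d := by ring
    have s2 : ‖(ex Zx - ex Zy) * (U - 1) + ex Zy * (U - V)‖ ≤
        (16 * d) * (C / (k : ℝ) ^ 2) + 8 * (C / (k : ℝ) ^ 2 * d) := by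
      refine (norm_add_le _ _).trans (add_le_add ?_ ?_)
      · exact (norm_mul_le _ _).trans (mul_le_mul s1 hU (norm_nonneg _) (by positivity))
      · exact (norm_mul_le _ _).trans (mul_le_mul hey hUV (norm_nonneg _) (by norm_num))
    calc (k : ℝ) * a * ‖(ex Zx - ex Zy) * (U - 1) + ex Zy * (U - V)‖
        ≤ k * ((16 * d) * (C / (k : ℝ) ^ 2) + 8 * (C / (k : ℝ) ^ 2 * d)) :=
          mul_le_mul hka s2 (norm_nonneg _) hk0.le
      _ = 24 * C / k * d := by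
          field_simp
          ring
  have t4 : (33 + 24 * C) / k * d = 32 / k * d + 1 / k * d + 24 * C / k * d := by ring
  rw [t4]
  exact add_le_add (add_le_add t1 t2) t3

theorem b1_sub (hK : S_K) (T : TW ℂ B) {k : ℕ} (hk : 1 ≤ k) (x y : B) :
    ‖B1 k (T.co 1 x) - B1 k (T.co 1 y)‖ ≤ 2 / (k : ℝ) ^ 4 * ‖x - y‖ := by
  have hk0 : (0 : ℝ) < k := by exact_mod_cast hk
  obtain ⟨-, -, -, -, -, -, -, -, -, -, -, a12, a13⟩ := hK k hk
  have h : B1 k (T.co 1 x) - B1 k (T.co 1 y) =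
      ((qm2 k / k * Real.exp (2 * kp) : ℝ) : ℂ) * T.co 1 (x - y) := by
    unfold B1
    rw [map_sub]
    push_cast
    ring
  rw [h, norm_mul, Complex.norm_real, Real.norm_of_nonneg (by positivity)]
  have c2 : Real.exp (2 * kp) ≤ 2 := by
    have h4 := Real.exp_bound' (x := 2 * kp) (by unfold kp; norm_num) (by unfold kp; norm_num)
      (n := 3) (by norm_num)
    refine h4.trans ?_
    unfold kp
    norm_num [Finset.sum_range_succ, Nat.factorial]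
  have c3 : qm2 k / k ≤ 1 / (k : ℝ) ^ 4 := by
    rw [div_le_iff₀ hk0]
    refine a13.trans (le_of_eq ?_)
    field_simp
  calc qm2 k / k * Real.exp (2 * kp) * ‖T.co 1 (x - y)‖ ≤ 1 / (k : ℝ) ^ 4 * 2 * ‖x - y‖ := by
        refine mul_le_mul ?_ (co_le T 1 _) (norm_nonneg _) (by positivity)
        exact mul_le_mul c3 c2 (Real.exp_pos _).le (by positivity)
    _ = _ := by ring

end

theorem a_facts {k : ℕ} (hk : 1 ≤ k) : 0 ≤ Real.exp (-(2 * kp / k)) ∧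
    Real.exp (-(2 * kp / k)) ≤ 1 ∧ 1 - Real.exp (-(2 * kp / k)) ≤ 2 * kp / k := by
  have hk0 : (0 : ℝ) < k := by exact_mod_cast hk
  refine ⟨(Real.exp_pos _).le, ?_, ?_⟩
  · rw [Real.exp_le_one_iff, neg_nonpos]
    unfold kp
    positivity
  · have := Real.add_one_le_exp (-(2 * kp / k))
    linarith

theorem sg_facts : (0 : ℝ) < 1 - sg ∧ 4 / (1 - sg) ≤ 5 := by
  unfold sg
  norm_num

/-- CV-36 -/
theorem n1' (h1 : S_E1) (h2 : S_E2) (h3 : S_E3) (h4 : S_E4) (hK : S_K) (hQ : S_QQ)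
    (hR : S_RL) : S_N1 := by
  obtain ⟨CQ, hQ⟩ := hQ
  obtain ⟨CR, hR⟩ := hR
  refine ⟨33 + 24 * |CQ| + 4 * |CR| + 40, ?_⟩
  intro B _ _ _ T k hk x y hx hy
  have hk0 : (0 : ℝ) < k := by exact_mod_cast hk
  have hk1 : (1 : ℝ) ≤ k := by exact_mod_cast hk
  obtain ⟨a0, a1, a2⟩ := a_facts hk
  obtain ⟨q1', q2'⟩ := hQ T k hk x y hx hy
  have hr := hR T k hk x y hx hy
  have hd0 : 0 ≤ ‖x - y‖ := norm_nonneg _
  have hCQ : CQ / (k : ℝ) ^ 2 ≤ |CQ| / (k : ℝ) ^ 2 :=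
    div_le_div_of_nonneg_right (le_abs_self _) (by positivity)
  have hCR : CR / (k : ℝ) ≤ |CR| / (k : ℝ) :=
    div_le_div_of_nonneg_right (le_abs_self _) (by positivity)
  have g1 := n1_exp h1 h3 h4 T hk (abs_nonneg CQ) hx hy (q1'.trans hCQ)
    (q2'.trans (mul_le_mul_of_nonneg_right hCQ hd0)) a0 a1 a2
  have g2 : ‖RB T k x - RB T k y‖ ≤ |CR| / k * ‖x - y‖ :=
    hr.trans (mul_le_mul_of_nonneg_right hCR hd0)
  have g3 : ‖sBB T (RB T k x - RB T k y)‖ ≤ |CR| / k * ‖x - y‖ := (sBB_norm T _).trans g2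
  have g4 := b1_sub hK T hk x y
  obtain ⟨s1, s2⟩ := sg_facts
  unfold NB
  rw [ex_shift h2 T k (XB T x), ex_shift h2 T k (XB T y)]
  set a := Real.exp (-(2 * kp / k)) with ha
  set P1 := (k : ℂ) • (((a : ℂ) • ex (-((1 / (k : ℂ)) • XB T x))) *
    (QB T k x * sBB T (QB T k x))) + XB T x with hP1
  set P2 := (k : ℂ) • (((a : ℂ) • ex (-((1 / (k : ℂ)) • XB T y))) *
    (QB T k y * sBB T (QB T k y))) + XB T y with hP2
  set b1 := B1 k (T.co 1 x) with hb1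
  set b2 := B1 k (T.co 1 y) with hb2
  have key : P1 - (2 : ℂ) • (RB T k x + sBB T (RB T k x)) -
      ((4 * k / (1 - sg) : ℝ) : ℂ) • (b1 • tau T (-1) + conj b1 • tau T 1 +
        (B2 k : ℂ) • (tau T 2 + tau T (-2))) -
      (P2 - (2 : ℂ) • (RB T k y + sBB T (RB T k y)) -
      ((4 * k / (1 - sg) : ℝ) : ℂ) • (b2 • tau T (-1) + conj b2 • tau T 1 +
        (B2 k : ℂ) • (tau T 2 + tau T (-2)))) =
      (P1 - P2) - (2 : ℂ) • ((RB T k x - RB T k y) + sBB T (RB T k x - RB T k y)) -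
        ((4 * k / (1 - sg) : ℝ) : ℂ) • ((b1 - b2) • tau T (-1) + conj (b1 - b2) • tau T 1) := by
    simp only [map_sub, sub_smul, smul_sub, smul_add]
    ring
  rw [key]
  have t2 : ‖(2 : ℂ) • ((RB T k x - RB T k y) + sBB T (RB T k x - RB T k y))‖ ≤
      4 * |CR| / k * ‖x - y‖ := by
    rw [norm_smul, Complex.norm_ofNat]
    have := norm_add_le (RB T k x - RB T k y) (sBB T (RB T k x - RB T k y))
    have e : 4 * |CR| / k * ‖x - y‖ = 2 * (|CR| / k * ‖x - y‖ + |CR| / k * ‖x - y‖) := by ring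
    rw [e]
    linarith
  have t3 : ‖((4 * k / (1 - sg) : ℝ) : ℂ) • ((b1 - b2) • tau T (-1) + conj (b1 - b2) • tau T 1)‖ ≤
      40 / k * ‖x - y‖ := by
    rw [norm_smul, Complex.norm_real, Real.norm_of_nonneg (by positivity)]
    have e1 : ‖(b1 - b2) • tau T (-1) + conj (b1 - b2) • tau T 1‖ ≤
        2 / (k : ℝ) ^ 4 * ‖x - y‖ * 4 := by
      refine (norm_add_le _ _).trans ?_
      rw [norm_smul, norm_smul, taum1, tau1, Complex.norm_conj]
      linarith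
    have e2 : 4 * (k : ℝ) / (1 - sg) ≤ 5 * k := by
      have : 4 * (k : ℝ) / (1 - sg) = 4 / (1 - sg) * k := by ring
      rw [this]
      exact mul_le_mul_of_nonneg_right s2 hk0.le
    calc 4 * (k : ℝ) / (1 - sg) * ‖(b1 - b2) • tau T (-1) + conj (b1 - b2) • tau T 1‖
        ≤ (5 * k) * (2 / (k : ℝ) ^ 4 * ‖x - y‖ * 4) :=
          mul_le_mul e2 e1 (norm_nonneg _) (by positivity)
      _ = 40 / (k : ℝ) ^ 3 * ‖x - y‖ := by
          field_simp
          ring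
      _ ≤ 40 / k * ‖x - y‖ := by
          refine mul_le_mul_of_nonneg_right ?_ hd0
          refine div_le_div_of_nonneg_left (by norm_num) hk0 ?_
          nlinarith [mul_pos hk0 hk0, mul_self_nonneg ((k : ℝ) - 1)]
  refine (norm_sub_le _ _).trans ?_
  refine (add_le_add (norm_sub_le _ _) le_rfl).trans ?_
  refine (add_le_add (add_le_add g1 t2) t3).trans (le_of_eq ?_)
  ring

end Pool.Agent.Q79.CV
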