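import Pool.Agent.Q79.CV.E

set_option autoImplicit false

open Set Filter Topology
open scoped ComplexConjugate
open Pool.Agent.Helper87.VT (TW tau sBB eB wt tau_norm)

namespace Pool.Agent.Q79.CV

open Pool.Agent.Q61.CV

section
variable {B : Type} [NormedCommRing B] [NormedAlgebra ℂ B] [CompleteSpace B]

theorem sBB_norm (T : TW ℂ B) (x : B) : ‖sBB T x‖ ≤ ‖x‖ := by
  have h := T.exR_norm (fun n => ((T.mon (-n) : ℂ →ₗ[ℂ] B) : ℂ →+ B).comp
    (starRingEnd ℂ : ℂ →+ ℂ)) 1 (fun n r => by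
      change ‖T.mon (-n) (conj r)‖ ≤ _
      rw [T.mon_norm, Pool.Agent.Helper87.VT.wt_neg, Complex.norm_conj, one_mul]) x
  rw [one_mul] at h
  exact h

theorem tau1 (T : TW ℂ B) : ‖tau T 1‖ = 2 := by
  rw [tau_norm]
  simp [wt]

theorem tau2 (T : TW ℂ B) : ‖tau T 2‖ = 4 := by
  rw [tau_norm]
  norm_num [wt]

theorem taum1 (T : TW ℂ B) : ‖tau T (-1)‖ = 2 := by
  rw [tau_norm]
  simp [wt]

theorem taum2 (T : TW ℂ B) : ‖tau T (-2)‖ = 4 := by
  rw [tau_norm]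
  norm_num [wt]

omit [CompleteSpace B] in
theorem smul_tau_le {a r : ℝ} {c : ℂ} {t u : B} (hc : ‖c‖ ≤ a) (ht : ‖t‖ = r)
    (ha : 0 ≤ a) {m : ℝ} (hu : ‖u‖ ≤ m) : ‖c • (t * u)‖ ≤ a * (r * m) := by
  rw [norm_smul]
  have hr : 0 ≤ r := ht ▸ norm_nonneg t
  refine mul_le_mul hc ?_ (norm_nonneg _) ha
  refine (norm_mul_le _ _).trans ?_
  rw [ht]
  exact mul_le_mul_of_nonneg_left hu hr

omit [CompleteSpace B] in
theorem sq_le {u : B} {m : ℝ} (hu : ‖u‖ ≤ m) : ‖u ^ 2‖ ≤ m * m := by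
  rw [pow_two]
  exact (norm_mul_le _ _).trans (mul_le_mul hu hu (norm_nonneg _) ((norm_nonneg u).trans hu))

omit [CompleteSpace B] in
theorem sq_sub_le {u v : B} {m d : ℝ} (hu : ‖u‖ ≤ m) (hv : ‖v‖ ≤ m) (hd : ‖u - v‖ ≤ d) :
    ‖u ^ 2 - v ^ 2‖ ≤ (m + m) * d := by
  have h : u ^ 2 - v ^ 2 = (u + v) * (u - v) := by ring
  rw [h]
  have hm : 0 ≤ m := (norm_nonneg u).trans hu
  refine (norm_mul_le _ _).trans (mul_le_mul ?_ hd (norm_nonneg _) (by linarith))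
  exact (norm_add_le _ _).trans (add_le_add hu hv)

/-- CV-34 -/
theorem qq_aux (T : TW ℂ B) {k : ℕ} (hk : 1 ≤ k) (hK : S_K) (hP : S_EP) {x y : B} (hx : ‖x‖ ≤ 1)
    (hy : ‖y‖ ≤ 1) : ‖QB T k x - 1‖ ≤ 80 / (k : ℝ) ^ 2 ∧
      ‖QB T k x - QB T k y‖ ≤ 144 / (k : ℝ) ^ 2 * ‖x - y‖ := by
  have hk0 : (0 : ℝ) < k := by exact_mod_cast hk
  have hk1 : (1 : ℝ) ≤ k := by exact_mod_cast hk
  obtain ⟨a1, a2, -, a4, a5, -⟩ := hK k hk
  obtain ⟨b1, -, b3, -⟩ := hP T x y hx hy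
  obtain ⟨b1', -, -, -⟩ := hP T y x hy hx
  have n1 : ‖(e1 k : ℂ)‖ ≤ 2 / (k : ℝ) ^ 2 := by
    rw [Complex.norm_real, Real.norm_of_nonneg a1]
    exact a2
  have n2 : ‖(e2 k : ℂ)‖ ≤ 1 / (k : ℝ) ^ 2 := by
    rw [Complex.norm_real, Real.norm_of_nonneg a4]
    refine a5.trans (one_div_le_one_div_of_le (by positivity) ?_)
    nlinarith [pow_pos hk0 2]
  constructor
  · have h : QB T k x - 1 = (e1 k : ℂ) • (tau T 1 * epB x) + (e2 k : ℂ) • (tau T 2 * epB x ^ 2) := by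
      unfold QB
      ring
    rw [h]
    refine (norm_add_le _ _).trans ?_
    have c1 := smul_tau_le n1 (tau1 T) (by positivity) b1
    have c2 := smul_tau_le n2 (tau2 T) (by positivity) (sq_le b1)
    refine (add_le_add c1 c2).trans (le_of_eq ?_)
    ring
  · have h : QB T k x - QB T k y = (e1 k : ℂ) • (tau T 1 * (epB x - epB y)) +
        (e2 k : ℂ) • (tau T 2 * (epB x ^ 2 - epB y ^ 2)) := by
      unfold QB
      rw [mul_sub, mul_sub, smul_sub, smul_sub]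
      ring
    rw [h]
    refine (norm_add_le _ _).trans ?_
    have c1 := smul_tau_le n1 (tau1 T) (by positivity) b3
    have c2 := smul_tau_le n2 (tau2 T) (by positivity) (sq_sub_le b1 b1' b3)
    refine (add_le_add c1 c2).trans (le_of_eq ?_)
    ring

end

/-- CV-34 -/
theorem qq' (hK : S_K) (hP : S_EP) : S_QQ := by
  refine ⟨30000, ?_⟩
  intro B _ _ _ T k hk x y hx hy
  have hk0 : (0 : ℝ) < k := by exact_mod_cast hk
  have hk1 : (1 : ℝ) ≤ k := by exact_mod_cast hk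
  obtain ⟨c1, c2⟩ := qq_aux T hk hK hP hx hy
  obtain ⟨c3, -⟩ := qq_aux T hk hK hP hy hx
  set u := QB T k x with hu
  set v := QB T k y with hv
  have s1 : sBB T u = 1 + sBB T (u - 1) := by
    rw [map_sub, sBB_one]
    ring
  have s2 : sBB T v = 1 + sBB T (v - 1) := by
    rw [map_sub, sBB_one]
    ring
  set D : ℝ := 1 / (k : ℝ) ^ 2 with hD
  have hD0 : 0 < D := by positivity
  have hD1 : D ≤ 1 := by
    rw [hD, div_le_one (by positivity)]
    nlinarith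
  have f1 : (80 : ℝ) / (k : ℝ) ^ 2 = 80 * D := by rw [hD]; ring
  have f2 : (144 : ℝ) / (k : ℝ) ^ 2 = 144 * D := by rw [hD]; ring
  have f3 : (30000 : ℝ) / (k : ℝ) ^ 2 = 30000 * D := by rw [hD]; ring
  rw [f1] at c1 c3
  rw [f2] at c2
  rw [f3]
  have g1 : ‖sBB T (u - 1)‖ ≤ 80 * D := (sBB_norm T _).trans c1
  have g3 : ‖sBB T (v - 1)‖ ≤ 80 * D := (sBB_norm T _).trans c3
  have g2 : ‖sBB T (u - v)‖ ≤ 144 * D * ‖x - y‖ := (sBB_norm T _).trans c2
  have hn := norm_nonneg (x - y)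
  constructor
  · have h : u * sBB T u - 1 = (u - 1) + sBB T (u - 1) + (u - 1) * sBB T (u - 1) := by
      rw [s1]
      ring
    rw [h]
    refine norm_add₃_le.trans ?_
    have m1 : ‖(u - 1) * sBB T (u - 1)‖ ≤ (80 * D) * (80 * D) :=
      (norm_mul_le _ _).trans (mul_le_mul c1 g1 (norm_nonneg _) (by positivity))
    nlinarith
  · have h : u * sBB T u - v * sBB T v = (u - v) + sBB T (u - v) + ((u - v) * sBB T (u - 1) +
        (v - 1) * sBB T (u - v)) := by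
      have s3 : sBB T (u - v) = sBB T (u - 1) - sBB T (v - 1) := by
        rw [← map_sub]
        congr 1
        ring
      rw [s3, s1, s2]
      ring
    rw [h]
    refine norm_add₃_le.trans ?_
    have m1 : ‖(u - v) * sBB T (u - 1)‖ ≤ (144 * D * ‖x - y‖) * (80 * D) :=
      (norm_mul_le _ _).trans (mul_le_mul c2 g1 (norm_nonneg _) (by positivity))
    have m2 : ‖(v - 1) * sBB T (u - v)‖ ≤ (80 * D) * (144 * D * ‖x - y‖) :=
      (norm_mul_le _ _).trans (mul_le_mul c3 g2 (norm_nonneg _) (by positivity))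
    have m3 := norm_add_le ((u - v) * sBB T (u - 1)) ((v - 1) * sBB T (u - v))
    have m4 : D * D * ‖x - y‖ ≤ D * ‖x - y‖ := by
      refine mul_le_mul_of_nonneg_right ?_ hn
      nlinarith
    have m5 : 0 ≤ D * ‖x - y‖ := by positivity
    nlinarith

/-- CV-35 -/
theorem rl' (hK : S_K) (hP : S_EP) : S_RL := by
  refine ⟨192, ?_⟩
  intro B _ _ _ T k hk x y hx hy
  have hk0 : (0 : ℝ) < k := by exact_mod_cast hk
  have hk1 : (1 : ℝ) ≤ k := by exact_mod_cast hk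
  obtain ⟨-, -, -, -, -, a6, -, a8, -, a10, a11, a12, a13⟩ := hK k hk
  obtain ⟨b1, b2, b3, b4⟩ := hP T x y hx hy
  obtain ⟨b1', b2', -, -⟩ := hP T y x hy hx
  have i2 : 1 / (k : ℝ) ^ 2 ≤ 1 / k := one_div_le_one_div_of_le hk0 (by nlinarith)
  have i3 : 1 / (k : ℝ) ^ 3 ≤ 1 / k := by
    refine one_div_le_one_div_of_le hk0 ?_
    nlinarith [mul_pos hk0 hk0, mul_self_nonneg ((k : ℝ) - 1)]
  have n1 : ‖(q1 k : ℂ)‖ ≤ 4 / (k : ℝ) := by
    rw [Complex.norm_real]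
    exact a6
  have n2 : ‖(qm1 k : ℂ)‖ ≤ 4 / (k : ℝ) := by
    rw [Complex.norm_real]
    exact a8
  have n3 : ‖(q2 k : ℂ) / 2‖ ≤ 1 / 2 / (k : ℝ) := by
    rw [norm_div, Complex.norm_real, Real.norm_of_nonneg a10, Complex.norm_ofNat]
    have : 1 / 2 / (k : ℝ) = 1 / k / 2 := by ring
    rw [this]
    linarith
  have n4 : ‖(qm2 k : ℂ) / 2‖ ≤ 1 / 2 / (k : ℝ) := by
    rw [norm_div, Complex.norm_real, Real.norm_of_nonneg a12, Complex.norm_ofNat]
    have : 1 / 2 / (k : ℝ) = 1 / k / 2 := by ring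
    rw [this]
    linarith
  have h : RB T k x - RB T k y = ((q2 k : ℂ) / 2) • (tau T 2 * (epB x ^ 2 - epB y ^ 2)) +
      (q1 k : ℂ) • (tau T 1 * (epB x - epB y)) - (qm1 k : ℂ) • (tau T (-1) * (eiB x - eiB y)) -
      ((qm2 k : ℂ) / 2) • (tau T (-2) * (eiB x ^ 2 - eiB y ^ 2)) := by
    unfold RB
    simp only [mul_sub, smul_sub]
    ring
  rw [h]
  have c1 := smul_tau_le n3 (tau2 T) (by positivity) (sq_sub_le b1 b1' b3)
  have c2 := smul_tau_le n1 (tau1 T) (by positivity) b3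
  have c3 := smul_tau_le n2 (taum1 T) (by positivity) b4
  have c4 := smul_tau_le n4 (taum2 T) (by positivity) (sq_sub_le b2 b2' b4)
  refine (norm_sub_le _ _).trans ?_
  refine (add_le_add (norm_sub_le _ _) le_rfl).trans ?_
  refine (add_le_add (add_le_add (norm_add_le _ _) le_rfl) le_rfl).trans ?_
  refine (add_le_add (add_le_add (add_le_add c1 c2) c3) c4).trans (le_of_eq ?_)
  ring

end Pool.Agent.Q79.CV
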