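import Pool.Agent.Q79.CV.Inv
import Pool.Agent.Q79.CV.Glue

set_option autoImplicit false

open MeasureTheory Set Filter Topology Metric
open scoped ContDiff RealInnerProductSpace ComplexConjugate NNReal

namespace Pool.Agent.Q79.CV

open Pool.Agent.Q61.CV

/-- uniform local Lipschitz constant on a compact set -/
theorem loc_lip {f : ℂ → ℝ} {O C : Set ℂ} (hO : IsOpen O) (hf : ContDiffOn ℝ 1 f O)
    (hC : IsCompact C) (hCO : C ⊆ O) :
    ∃ L : ℝ≥0, ∀ z ∈ C, ∃ V ∈ 𝓝 z, LipschitzOnWith L f V := by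
  have h1 : ∀ x : ℂ, ∃ (K : ℝ≥0) (t : Set ℂ), x ∈ C → t ∈ 𝓝 x ∧ LipschitzOnWith K f t := by
    intro x
    by_cases hx : x ∈ C
    · obtain ⟨K, t, ht, hK⟩ := (hf.contDiffAt (hO.mem_nhds (hCO hx))).exists_lipschitzOnWith
      exact ⟨K, t, fun _ => ⟨ht, hK⟩⟩
    · exact ⟨0, ∅, fun h => absurd h hx⟩
  choose K t hKt using h1
  obtain ⟨s, hs, hcov⟩ := hC.elim_nhds_subcover (fun x => interior (t x))
    (fun x hx => interior_mem_nhds.2 (hKt x hx).1)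
  refine ⟨s.sup K, fun z hz => ?_⟩
  obtain ⟨x, hx, hzx⟩ := mem_iUnion₂.1 (hcov hz)
  refine ⟨interior (t x), isOpen_interior.mem_nhds hzx, ?_⟩
  exact ((hKt x (hs x hx)).2.mono interior_subset).weaken (Finset.le_sup hx)

/-- Lipschitz constant on a convex compact set -/
theorem conv_lip {f : ℂ → ℝ} {O C : Set ℂ} (hO : IsOpen O) (hf : ContDiffOn ℝ 1 f O)
    (hC : IsCompact C) (hCO : C ⊆ O) (hconv : Convex ℝ C) :
    ∃ L : ℝ≥0, LipschitzOnWith L f C := by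
  obtain ⟨L, hL⟩ := loc_lip hO hf hC hCO
  refine ⟨L, glue C ∅ f L hconv isClosed_empty (hf.continuousOn.mono hCO) ?_ ?_⟩
  · rw [empty_inter]
    exact lipschitzOnWith_empty L f
  · intro z hz _
    obtain ⟨V, hV, hVL⟩ := hL z hz
    exact ⟨V, hV, hVL.mono inter_subset_left⟩

section
variable {σ c R : ℝ} {E Θ H h gE gF : ℂ → ℂ}

theorem Fmem (hS : Setup σ c R E Θ H h) {ζ : ℂ} (hζ : ‖ζ‖ ≤ 1) : ζ ∈ ball (0 : ℂ) R := by
  rw [mem_ball_zero_iff]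
  exact hζ.trans_lt hS.R1

theorem Θmem (hS : Setup σ c R E Θ H h) {ζ : ℂ} (hζ : ‖ζ‖ ≤ 1) : Θ ζ ∈ ball (0 : ℂ) R := by
  rw [mem_ball_zero_iff]
  exact (hS.Θmap ζ hζ).trans hS.R1

theorem mem_cl_core (hj : S_INJ) (hd : S_DOM) (hS : Setup σ c R E Θ H h) {η : ℂ}
    (hη : η ∈ ball (0 : ℂ) R) :
    E η ∈ closure (core E Θ) ↔ η ∈ Θ '' closedBall (0 : ℂ) 1 := by
  have h1 := (hd R _ hS.R1 hS.goodF).2.1
  unfold core
  rw [h1]
  constructor
  · rintro ⟨ζ, hζ, hζE⟩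
    refine ⟨ζ, hζ, ?_⟩
    exact good_injOn hj hS.goodE (Θmem hS (mem_closedBall_zero_iff.1 hζ)) hη hζE
  · rintro ⟨ζ, hζ, rfl⟩
    exact ⟨ζ, hζ, rfl⟩

theorem mem_outer (hj : S_INJ) (hS : Setup σ c R E Θ H h) {η : ℂ} (hη : η ∈ ball (0 : ℂ) R) :
    E η ∈ outer E ↔ ‖η‖ < 1 := by
  constructor
  · rintro ⟨ζ, hζ, hζE⟩
    rw [mem_ball_zero_iff] at hζ
    have : ζ = η := good_injOn hj hS.goodE (Fmem hS hζ.le) hη hζE
    rwa [← this]
  · intro h1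
    exact ⟨η, by rwa [mem_ball_zero_iff], rfl⟩

theorem cl_core_outer (hd : S_DOM) (hS : Setup σ c R E Θ H h) :
    closure (core E Θ) ⊆ outer E := by
  have h1 := (hd R _ hS.R1 hS.goodF).2.1
  unfold core
  rw [h1]
  rintro _ ⟨ζ, hζ, rfl⟩
  exact ⟨Θ ζ, by
    rw [mem_ball_zero_iff]
    exact hS.Θmap ζ (mem_closedBall_zero_iff.1 hζ), rfl⟩

theorem zero_core (hS : Setup σ c R E Θ H h) : E 0 ∈ core E Θ :=
  ⟨0, mem_ball_self one_pos, by simp only [hS.Θ0]⟩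

theorem smooth_norm {f : ℂ → ℂ} (hf : Good R f) : ContDiffOn ℝ 1 (fun z => -(‖f z‖ ^ 2 / 4))
    (ball (0 : ℂ) R) := by
  have h1 : ContDiffOn ℂ 1 f (ball (0 : ℂ) R) :=
    DifferentiableOn.contDiffOn (fun z hz => (hf z hz).1.differentiableWithinAt) isOpen_ball
  have h2 := (h1.restrict_scalars ℝ).norm_sq ℝ
  exact (h2.div_const 4).neg

theorem smooth_hol {f : ℂ → ℂ} {O : Set ℂ} (hO : IsOpen O)
    (hf : ∀ z ∈ O, DifferentiableAt ℂ f z) : ContDiffOn ℝ 1 f O :=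
  (DifferentiableOn.contDiffOn (fun z hz => (hf z hz).differentiableWithinAt) hO).restrict_scalars ℝ

theorem pun_open : IsOpen (ball (0 : ℂ) R \ {0}) := isOpen_ball.sdiff isClosed_singleton

theorem tra (hj : S_INJ) (_hi : S_INV) (hd : S_DOM) (hg : S_GL2) : S_TRa := by
  intro σ c R E Θ H h gE gF hS hE hF
  have hsub : closedBall (0 : ℂ) 1 ⊆ ball (0 : ℂ) R := closedBall_subset_ball hS.R1
  obtain ⟨L₁, hL₁⟩ := conv_lip (f := fun ζ => (h ζ).im) isOpen_ball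
    (Complex.imCLM.contDiff.comp_contDiffOn (smooth_hol isOpen_ball hS.hd))
    (isCompact_closedBall (0 : ℂ) 1) hsub (convex_closedBall _ _)
  have hopen : IsOpen (Θ '' ball (0 : ℂ) 1) :=
    good_open hS.goodΘ isOpen_ball (ball_subset_ball hS.R1.le)
  obtain ⟨L₂, hL₂⟩ := loc_lip (f := fun η => (H η).im) (C := closedBall (0 : ℂ) 1 \ Θ '' ball (0 : ℂ) 1)
    (pun_open (R := R))
    (Complex.imCLM.contDiff.comp_contDiffOn (smooth_hol pun_open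
      fun z hz => hS.Hd z hz.1 hz.2)) ((isCompact_closedBall (0 : ℂ) 1).diff hopen) (by
      rintro z ⟨hz1, hz2⟩
      refine ⟨hsub hz1, ?_⟩
      intro h0
      rw [mem_singleton_iff] at h0
      exact hz2 ⟨0, mem_ball_self one_pos, by rw [hS.Θ0, h0]⟩)
  obtain ⟨L, hL⟩ := hg R Θ (fun ζ => (h ζ).im) (fun η => (H η).im) L₁ L₂ hS.R1 hS.goodΘ hS.Θmap
    hL₁ (fun η hη hη2 => hL₂ η ⟨hη, hη2⟩) hS.im
  have hw := hL (fun η => ss E Θ H h gE gF (E η)) (by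
    intro ζ hζ
    have h1 : E (Θ ζ) ∈ closure (core E Θ) :=
      (mem_cl_core hj hd hS (Θmem hS (mem_closedBall_zero_iff.1 hζ))).2 ⟨ζ, hζ, rfl⟩
    have h2 : gF (E (Θ ζ)) = ζ := hF.left ζ (hsub hζ)
    simp only [ss, if_pos h1, h2]) (by
    intro η hη hη2
    have h1 : E η ∉ closure (core E Θ) := fun h => hη2 ((mem_cl_core hj hd hS (hsub hη)).1 h)
    simp only [ss, if_neg h1, hE.left η (hsub hη)])
  refine ⟨L * 2, LipschitzOnWith.of_dist_le_mul ?_⟩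
  rintro _ ⟨a, ha, rfl⟩ _ ⟨b, hb, rfl⟩
  have h1 := hw.dist_le_mul a (ball_subset_closedBall ha) b (ball_subset_closedBall hb)
  have haR := hsub (ball_subset_closedBall ha)
  have hbR := hsub (ball_subset_closedBall hb)
  have h2 := hE.lip.dist_le_mul (E a) ⟨a, haR, rfl⟩ (E b) ⟨b, hbR, rfl⟩
  rw [hE.left a haR, hE.left b hbR] at h2
  refine h1.trans ?_
  push_cast
  rw [mul_assoc]
  exact mul_le_mul_of_nonneg_left (by simpa using h2) L.2

theorem trb (hj : S_INJ) (_hi : S_INV) (hd : S_DOM) (hg : S_GL2) : S_TRb := by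
  intro σ c R E Θ H h gE gF hS hE hF
  have hsub : closedBall (0 : ℂ) 1 ⊆ ball (0 : ℂ) R := closedBall_subset_ball hS.R1
  obtain ⟨L₁, hL₁⟩ := conv_lip (f := fun ζ => σ⁻¹ * (-(‖E (Θ ζ)‖ ^ 2 / 4) + (h ζ).re)) isOpen_ball
    (contDiffOn_const.mul ((smooth_norm hS.goodF).add
      (Complex.reCLM.contDiff.comp_contDiffOn (smooth_hol isOpen_ball hS.hd))))
    (isCompact_closedBall (0 : ℂ) 1) hsub (convex_closedBall _ _)
  have hopen : IsOpen (Θ '' ball (0 : ℂ) 1) :=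
    good_open hS.goodΘ isOpen_ball (ball_subset_ball hS.R1.le)
  obtain ⟨L₂, hL₂⟩ := loc_lip (f := fun η => -(‖E η‖ ^ 2 / 4) + (H η).re)
    (C := closedBall (0 : ℂ) 1 \ Θ '' ball (0 : ℂ) 1)
    (pun_open (R := R))
    (((smooth_norm hS.goodE).mono sdiff_subset).add
      (Complex.reCLM.contDiff.comp_contDiffOn (smooth_hol pun_open
      fun z hz => hS.Hd z hz.1 hz.2))) ((isCompact_closedBall (0 : ℂ) 1).diff hopen) (by
      rintro z ⟨hz1, hz2⟩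
      refine ⟨hsub hz1, ?_⟩
      intro h0
      rw [mem_singleton_iff] at h0
      exact hz2 ⟨0, mem_ball_self one_pos, by rw [hS.Θ0, h0]⟩)
  obtain ⟨L, hL⟩ := hg R Θ (fun ζ => σ⁻¹ * (-(‖E (Θ ζ)‖ ^ 2 / 4) + (h ζ).re))
    (fun η => -(‖E η‖ ^ 2 / 4) + (H η).re) L₁ L₂ hS.R1 hS.goodΘ hS.Θmap
    hL₁ (fun η hη hη2 => hL₂ η ⟨hη, hη2⟩) (by
      intro ζ hζ
      have h1 := hS.re ζ hζ
      rw [h1, inv_mul_cancel_left₀ hS.σ0.ne'])
  have hw := hL (fun η => uu σ E Θ H h gE gF (E η)) (by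
    intro ζ hζ
    have h1 : E (Θ ζ) ∈ closure (core E Θ) :=
      (mem_cl_core hj hd hS (Θmem hS (mem_closedBall_zero_iff.1 hζ))).2 ⟨ζ, hζ, rfl⟩
    have h2 : gF (E (Θ ζ)) = ζ := hF.left ζ (hsub hζ)
    simp only [uu, if_pos h1, h2]) (by
    intro η hη hη2
    have h1 : E η ∉ closure (core E Θ) := fun h => hη2 ((mem_cl_core hj hd hS (hsub hη)).1 h)
    by_cases hη3 : ‖η‖ < 1
    · have h2 : E η ∈ outer E := (mem_outer hj hS (hsub hη)).2 hη3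
      simp only [uu, if_neg h1, if_pos h2, hE.left η (hsub hη)]
    · have h2 : E η ∉ outer E := fun h => hη3 ((mem_outer hj hS (hsub hη)).1 h)
      simp only [uu, if_neg h1, if_neg h2]
      exact (hS.bd η (le_antisymm (mem_closedBall_zero_iff.1 hη) (not_lt.1 hη3))).symm)
  refine ⟨L * 2, LipschitzOnWith.of_dist_le_mul ?_⟩
  have hcl : closure (outer E) = E '' closedBall (0 : ℂ) 1 := (hd R E hS.R1 hS.goodE).2.1
  rw [hcl]
  rintro _ ⟨a, ha, rfl⟩ _ ⟨b, hb, rfl⟩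
  have h1 := hw.dist_le_mul a ha b hb
  have haR := hsub ha
  have hbR := hsub hb
  have h2 := hE.lip.dist_le_mul (E a) ⟨a, haR, rfl⟩ (E b) ⟨b, hbR, rfl⟩
  rw [hE.left a haR, hE.left b hbR] at h2
  refine h1.trans ?_
  push_cast
  rw [mul_assoc]
  exact mul_le_mul_of_nonneg_left (by simpa using h2) L.2

end

end Pool.Agent.Q79.CV
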