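import Pool.Agent.Q79.CV.TrBas

set_option autoImplicit false

open MeasureTheory Set Filter Topology Metric
open scoped ContDiff RealInnerProductSpace ComplexConjugate NNReal

namespace Pool.Agent.Q79.CV

open Pool.Agent.Q61.CV

/-- derivative of `-‖y‖ ^ 2 / 4` -/
theorem deriv_sq (z v : ℂ) : HasFDerivAt (fun y : ℂ => -(‖y‖ ^ 2 / 4))
    (-((1 / 2 : ℝ) • (innerSL ℝ z))) z ∧ (-((1 / 2 : ℝ) • (innerSL ℝ z)) : ℂ →L[ℝ] ℝ) v =
      -((z.re * v.re + z.im * v.im) / 2) := by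
  constructor
  · have h1 := (((hasStrictFDerivAt_norm_sq z).hasFDerivAt).const_mul (1 / 4 : ℝ)).neg
    have h2 : (fun y : ℂ => -(‖y‖ ^ 2 / 4)) = fun y : ℂ => -(1 / 4 * ‖y‖ ^ 2) := by
      funext y
      ring
    rw [h2]
    refine h1.congr_fderiv ?_
    ext v
    simp
    ring
  · have hin : (innerSL ℝ z) v = z.re * v.re + z.im * v.im := by
      rw [innerSL_apply_apply, Complex.inner, Complex.mul_re, Complex.conj_re, Complex.conj_im]
      ring
    rw [neg_apply, smul_apply, hin, smul_eq_mul]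
    ring

/-- derivatives of the real and imaginary parts of a holomorphic function -/
theorem deriv_re {G : ℂ → ℂ} {g z : ℂ} (hG : HasDerivAt G g z) :
    ∃ D : ℂ →L[ℝ] ℝ, HasFDerivAt (fun y => (G y).re) D z ∧ ∀ v, D v = (g * v).re := by
  refine ⟨_, Complex.reCLM.hasFDerivAt.comp z (hG.hasFDerivAt.restrictScalars ℝ), fun v => ?_⟩
  simp [mul_comm]

theorem deriv_im {G : ℂ → ℂ} {g z : ℂ} (hG : HasDerivAt G g z) :
    ∃ D : ℂ →L[ℝ] ℝ, HasFDerivAt (fun y => (G y).im) D z ∧ ∀ v, D v = (g * v).im := by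
  refine ⟨_, Complex.imCLM.hasFDerivAt.comp z (hG.hasFDerivAt.restrictScalars ℝ), fun v => ?_⟩
  simp [mul_comm]

theorem deriv_u {G : ℂ → ℂ} {g z : ℂ} (hG : HasDerivAt G g z) (k : ℝ) :
    ∃ D : ℂ →L[ℝ] ℝ, HasFDerivAt (fun y => k * (-(‖y‖ ^ 2 / 4) + (G y).re)) D z ∧
      ∀ v, D v = k * (-((z.re * v.re + z.im * v.im) / 2) + (g * v).re) := by
  obtain ⟨D, hD, hDv⟩ := deriv_re hG
  refine ⟨_, ((deriv_sq z 0).1.add hD).const_mul k, fun v => ?_⟩
  rw [smul_apply, add_apply, (deriv_sq z v).2, hDv, smul_eq_mul]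

theorem trc_aux {u s : ℂ → ℝ} {G : ℂ → ℂ} {g z : ℂ} {k t : ℝ} (hG : HasDerivAt G g z)
    (hk : t * k = 1) (hu : u =ᶠ[𝓝 z] fun y => k * (-(‖y‖ ^ 2 / 4) + (G y).re))
    (hs : s =ᶠ[𝓝 z] fun y => (G y).im) :
    DifferentiableAt ℝ u z ∧ DifferentiableAt ℝ s z ∧
    t * fderiv ℝ u z 1 = -(z.re / 2) + fderiv ℝ s z Complex.I ∧
    t * fderiv ℝ u z Complex.I = -(z.im / 2) - fderiv ℝ s z 1 := by
  obtain ⟨D, hD, hDv⟩ := deriv_u hG k
  obtain ⟨D', hD', hDv'⟩ := deriv_im hG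
  have h1 := hD.congr_of_eventuallyEq hu
  have h2 := hD'.congr_of_eventuallyEq hs
  refine ⟨h1.differentiableAt, h2.differentiableAt, ?_, ?_⟩
  · rw [h1.fderiv, h2.fderiv, hDv, hDv', ← mul_assoc, hk, one_mul]
    simp
  · rw [h1.fderiv, h2.fderiv, hDv, hDv', ← mul_assoc, hk, one_mul]
    simp
    ring

theorem trc (_hi : S_INV) (hd : S_DOM) : S_TRc := by
  intro σ c R E Θ H h gE gF hS hE hF z hz hzf
  have hsub : closedBall (0 : ℂ) 1 ⊆ ball (0 : ℂ) R := closedBall_subset_ball hS.R1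
  have hcoreo : IsOpen (core E Θ) := (hd R _ hS.R1 hS.goodF).1.isOpen
  have houto : IsOpen (outer E) := (hd R E hS.R1 hS.goodE).1.isOpen
  by_cases hzc : z ∈ core E Θ
  · obtain ⟨ζ, hζ, rfl⟩ := hzc
    have hζR := hsub (ball_subset_closedBall hζ)
    have hzc : E (Θ ζ) ∈ core E Θ := ⟨ζ, hζ, rfl⟩
    have h1 : HasDerivAt (fun y => h (gF y))
        (deriv h ζ * (deriv (fun ζ => E (Θ ζ)) ζ)⁻¹) (E (Θ ζ)) := by
      have h2 := hF.deriv ζ hζR
      have h3 : HasDerivAt h (deriv h ζ) (gF (E (Θ ζ))) := by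
        rw [hF.left ζ hζR]
        exact (hS.hd ζ hζR).hasDerivAt
      exact h3.comp (E (Θ ζ)) h2
    have h4 : coef σ (core E Θ) (E (Θ ζ)) = σ := by
      unfold coef
      rw [if_pos hzc]
    have h5 : ∀ᶠ y in 𝓝 (E (Θ ζ)), y ∈ closure (core E Θ) := by
      filter_upwards [hcoreo.mem_nhds hzc] with y hy
      exact subset_closure hy
    have h6 := trc_aux (u := uu σ E Θ H h gE gF) (s := ss E Θ H h gE gF) (k := σ⁻¹) (t := σ) h1
      (mul_inv_cancel₀ hS.σ0.ne') (by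
        filter_upwards [h5] with y hy
        simp only [uu, if_pos hy]) (by
        filter_upwards [h5] with y hy
        simp only [ss, if_pos hy])
    simp only
    rw [h4]
    exact h6
  · have hzcl : z ∉ closure (core E Θ) := by
      intro h1
      apply hzf
      rw [hcoreo.frontier_eq]
      exact ⟨h1, hzc⟩
    obtain ⟨η, hη, rfl⟩ := hz
    have hηR := hsub (ball_subset_closedBall hη)
    have hz : E η ∈ outer E := ⟨η, hη, rfl⟩
    have hη0 : η ≠ 0 := by
      rintro rfl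
      exact hzc (zero_core hS)
    have h1 : HasDerivAt (fun y => H (gE y)) (deriv H η * (deriv E η)⁻¹) (E η) := by
      have h2 := hE.deriv η hηR
      have h3 : HasDerivAt H (deriv H η) (gE (E η)) := by
        rw [hE.left η hηR]
        exact (hS.Hd η hηR hη0).hasDerivAt
      exact h3.comp (E η) h2
    have h4 : coef σ (core E Θ) (E η) = 1 := by
      unfold coef
      rw [if_neg hzc]
    have h5 : ∀ᶠ y in 𝓝 (E η), y ∉ closure (core E Θ) ∧ y ∈ outer E := by
      filter_upwards [houto.mem_nhds hz, isClosed_closure.isOpen_compl.mem_nhds hzcl] with y hy1 hy2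
      exact ⟨hy2, hy1⟩
    have h6 := trc_aux (u := uu σ E Θ H h gE gF) (s := ss E Θ H h gE gF) (k := 1) (t := 1) h1
      (mul_one 1) (by
        filter_upwards [h5] with y hy
        simp only [uu, if_neg hy.1, if_pos hy.2, one_mul]) (by
        filter_upwards [h5] with y hy
        simp only [ss, if_neg hy.1])
    rw [h4]
    exact h6

theorem trd (hj : S_INJ) (_hi : S_INV) (hd : S_DOM) : S_TRd := by
  intro σ c R E Θ H h gE gF hS hE hF x hx
  have hsub : closedBall (0 : ℂ) 1 ⊆ ball (0 : ℂ) R := closedBall_subset_ball hS.R1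
  obtain ⟨-, hcl, hfr, hnor⟩ := hd R E hS.R1 hS.goodE
  have hinj := good_injOn hj hS.goodE
  have hx' : x ∈ frontier (E '' ball (0 : ℂ) 1) := hx
  rw [hfr] at hx'
  obtain ⟨η, hη, rfl⟩ := hx'
  have hηR := hsub (sphere_subset_closedBall hη)
  rw [mem_sphere_zero_iff_norm] at hη
  have hout : ∀ η ∈ ball (0 : ℂ) R, (E η ∈ outer E ↔ ‖η‖ < 1) := fun η hη => mem_outer hj hS hη
  have hEη : E η ∉ closure (core E Θ) := by
    intro h1
    have h2 := (hout η hηR).1 (cl_core_outer hd hS h1)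
    rw [hη] at h2
    exact lt_irrefl _ h2
  have hne : ∀ w ∈ ball (0 : ℂ) R, E w ∉ closure (core E Θ) → w ≠ 0 := by
    rintro w _ hw rfl
    exact hw (subset_closure (zero_core hS))
  have hVo : IsOpen (E '' ball (0 : ℂ) R ∩ (closure (core E Θ))ᶜ) :=
    hE.isOpen.inter isClosed_closure.isOpen_compl
  refine ⟨η * deriv E η / (‖deriv E η‖ : ℂ), E '' ball (0 : ℂ) R ∩ (closure (core E Θ))ᶜ,
    fun y => -(‖y‖ ^ 2 / 4) + (H (gE y)).re, hnor η hη, hVo, ⟨⟨η, hηR, rfl⟩, hEη⟩, ?_, ?_, ?_⟩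
  · have h1 : DifferentiableOn ℂ (fun y => H (gE y)) (E '' ball (0 : ℂ) R ∩ (closure (core E Θ))ᶜ) := by
      rintro _ ⟨⟨w, hw, rfl⟩, hw2⟩
      have h2 := hE.deriv w hw
      have h3 : DifferentiableAt ℂ H (gE (E w)) := by
        rw [hE.left w hw]
        exact hS.Hd w hw (hne w hw hw2)
      exact (DifferentiableAt.comp (E w) h3 h2.differentiableAt).differentiableWithinAt
    have h2 : ContDiffOn ℝ ∞ (fun y => H (gE y)) (E '' ball (0 : ℂ) R ∩ (closure (core E Θ))ᶜ) :=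
      (h1.contDiffOn hVo).restrict_scalars ℝ
    refine ContDiffOn.add ?_ (Complex.reCLM.contDiff.comp_contDiffOn h2)
    exact ((contDiff_norm_sq ℝ).div_const 4).neg.contDiffOn
  · rintro _ ⟨⟨w, hw, rfl⟩, hw2⟩ hw3
    by_cases hw4 : ‖w‖ < 1
    · have h2 : E w ∈ outer E := (hout w hw).2 hw4
      simp only [uu, if_neg hw2, if_pos h2]
    · have h2 : E w ∉ outer E := fun h => hw4 ((hout w hw).1 h)
      simp only [uu, if_neg hw2, if_neg h2]
      rw [hE.left w hw]
      have hw5 : E w ∈ closure (E '' ball (0 : ℂ) 1) := hw3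
      rw [hcl] at hw5
      obtain ⟨w', hw', hww⟩ := hw5
      have : w' = w := hinj (hsub hw') hw hww
      rw [this, mem_closedBall_zero_iff] at hw'
      exact (hS.bd w (le_antisymm hw' (not_lt.1 hw4))).symm
  · have h1 : HasDerivAt (fun y => H (gE y)) (deriv H η * (deriv E η)⁻¹) (E η) := by
      have h2 := hE.deriv η hηR
      have h3 : HasDerivAt H (deriv H η) (gE (E η)) := by
        rw [hE.left η hηR]
        exact (hS.Hd η hηR (hne η hηR hEη)).hasDerivAt
      exact h3.comp (E η) h2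
    obtain ⟨D, hD, hDv⟩ := deriv_u h1 1
    have h2 : HasFDerivAt (fun y => -(‖y‖ ^ 2 / 4) + (H (gE y)).re) D (E η) := by
      refine hD.congr_of_eventuallyEq (Eventually.of_forall fun y => ?_)
      simp only [one_mul]
    rw [h2.fderiv, hDv, one_mul]
    have hne0 : deriv E η ≠ 0 := good_ne hS.goodE hηR
    have hpos : 0 < ‖deriv E η‖ := norm_pos_iff.2 hne0
    have hcne : (‖deriv E η‖ : ℂ) ≠ 0 := by exact_mod_cast hpos.ne'
    have h3 : deriv H η * (deriv E η)⁻¹ * (η * deriv E η / (‖deriv E η‖ : ℂ)) =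
        (η * deriv H η) / (‖deriv E η‖ : ℂ) := by
      field_simp
    have h4 : ∀ a b : ℂ, a.re * b.re + a.im * b.im = (conj a * b).re := by
      intro a b
      rw [Complex.mul_re, Complex.conj_re, Complex.conj_im]
      ring
    rw [h3, h4]
    have h5 : conj (E η) * (η * deriv E η / (‖deriv E η‖ : ℂ)) =
        (conj (E η) * (η * deriv E η)) / (‖deriv E η‖ : ℂ) := by ring
    rw [h5, Complex.div_ofReal_re, Complex.div_ofReal_re]
    have h6 := hS.nm η hη
    rw [Complex.sub_re] at h6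
    have h7 : (conj (E η) * (η * deriv E η) / 2).re = (conj (E η) * (η * deriv E η)).re / 2 := by
      have : (2 : ℂ) = ((2 : ℝ) : ℂ) := by norm_num
      rw [this, Complex.div_ofReal_re]
    rw [h7] at h6
    generalize (conj (E η) * (η * deriv E η)).re = A at h6 ⊢
    generalize (η * deriv H η).re = B at h6 ⊢
    generalize ‖deriv E η‖ = N at h6 hpos ⊢
    have h8 : -(A / N / 2) + B / N = (B - A / 2) / N := by ring
    rw [h8, h6]
    exact mul_div_cancel_right₀ c hpos.ne'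

theorem tr (hi : S_INV) (hd : S_DOM) (he : S_EXT) (hw : S_W) (ha : S_TRa) (hb : S_TRb)
    (hc : S_TRc) (hd2 : S_TRd) : S_TR := by
  intro σ c R E Θ H h hS hvol
  have hR0 : 0 < R := by linarith [hS.R1]
  obtain ⟨gE, hE⟩ := hi R E hR0 hS.goodE
  obtain ⟨gF, hF⟩ := hi R _ hR0 hS.goodF
  have hcore := (hd R _ hS.R1 hS.goodF).1
  have hout := (hd R E hS.R1 hS.goodE).1
  have hsub := cl_core_outer hd hS
  refine ⟨hcore, hout, hsub, uu σ E Θ H h gE gF, ?_⟩
  have hzero : ∀ z, z ∉ outer E → uu σ E Θ H h gE gF z = 0 := by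
    intro z hz
    have h1 : z ∉ closure (core E Θ) := fun h => hz (hsub h)
    simp only [uu, if_neg h1, if_neg hz]
  obtain ⟨L, hL⟩ := hb σ c R E Θ H h gE gF hS hE hF
  obtain ⟨L₂, hL₂⟩ := ha σ c R E Θ H h gE gF hS hE hF
  have hlip := he (outer E) _ L hout.isOpen hL hzero
  refine ⟨⟨L, hlip⟩, hzero, ?_, hd2 σ c R E Θ H h gE gF hS hE hF⟩
  exact hw σ (core E Θ) (outer E) (frontier (core E Θ)) (uu σ E Θ H h gE gF)
    (ss E Θ H h gE gF) L L₂ hout.isOpen hvol hlip hL₂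
    (fun z hz hzf => hc σ c R E Θ H h gE gF hS hE hF z hz hzf)

end Pool.Agent.Q79.CV
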