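import Pool.Agent.Q61.CV.Stm

set_option autoImplicit false

open MeasureTheory Set Filter Topology Metric
open scoped ContDiff RealInnerProductSpace ComplexConjugate NNReal

namespace Pool.Agent.Q79.CV

open Pool.Agent.Q61.CV

theorem fderiv_lip_bound {S : ℂ → ℝ} {L : ℝ≥0} (hS : LipschitzWith L S) (v z : ℂ) :
    ‖fderiv ℝ S z v‖ ≤ L * ‖v‖ :=
  ((fderiv ℝ S z).le_opNorm v).trans
    (mul_le_mul_of_nonneg_right (norm_fderiv_le_of_lipschitz ℝ hS) (norm_nonneg _))

theorem dphi_cont {φ : ℂ → ℝ} (hφ : ContDiff ℝ ∞ φ) (v : ℂ) :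
    ContDiff ℝ ∞ (fun z => fderiv ℝ φ z v) :=
  (hφ.fderiv_right (m := ∞) (by simp)).clm_apply contDiff_const

theorem int_S_phi {S : ℂ → ℝ} {L : ℝ≥0} (hS : LipschitzWith L S) {φ : ℂ → ℝ}
    (hφ : ContDiff ℝ ∞ φ) (hc : HasCompactSupport φ) (v w : ℂ) :
    Integrable (fun z => fderiv ℝ S z v * fderiv ℝ φ z w) := by
  have h1 : Integrable (fun z => fderiv ℝ φ z w) :=
    (dphi_cont hφ w).continuous.integrable_of_hasCompactSupport (hc.fderiv_apply ℝ w)
  exact h1.bdd_mul (c := L * ‖v‖) (measurable_fderiv_apply_const ℝ S v).aestronglyMeasurable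
    (ae_of_all _ fun z => fderiv_lip_bound hS v z)

theorem wa : S_Wa := by
  intro S L φ hS hφ hc
  have hd1 := dphi_cont hφ 1
  have hdI := dphi_cont hφ Complex.I
  have key : ∀ v w : ℂ, ∫ z, fderiv ℝ S z v * fderiv ℝ φ z w =
      -∫ z, (fderiv ℝ (fun z => fderiv ℝ φ z w) z v) * S z := by
    intro v w
    have hd := dphi_cont hφ w
    obtain ⟨C, hC⟩ := hd.lipschitzWith_of_hasCompactSupport (hc.fderiv_apply ℝ w) (by simp)
    have h1 := LipschitzWith.integral_lineDeriv_mul_eq (μ := volume) hS hC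
      (hc.fderiv_apply ℝ w) v
    have h2 : ∫ z, fderiv ℝ S z v * fderiv ℝ φ z w =
        ∫ z, lineDeriv ℝ S z v * fderiv ℝ φ z w := by
      refine integral_congr_ae ?_
      filter_upwards [hS.ae_differentiableAt (μ := volume)] with z hz
      rw [hz.lineDeriv_eq_fderiv]
    rw [h2, h1, ← integral_neg]
    refine integral_congr_ae (ae_of_all _ fun z => ?_)
    have h3 : DifferentiableAt ℝ (fun z => fderiv ℝ φ z w) z :=
      (hd.differentiable (by simp)).differentiableAt
    simp only
    rw [h3.lineDeriv_eq_fderiv, map_neg, neg_mul]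
  rw [integral_sub (int_S_phi hS hφ hc _ _) (int_S_phi hS hφ hc _ _), key, key, sub_eq_zero]
  congr 1
  refine integral_congr_ae (ae_of_all _ fun z => ?_)
  have hsymm : IsSymmSndFDerivAt ℝ φ z := hφ.contDiffAt.isSymmSndFDerivAt (by
    rw [minSmoothness_of_isRCLikeNormedField]
    exact WithTop.coe_le_coe.2 le_top)
  have h1 : ∀ v w : ℂ, fderiv ℝ (fun z => fderiv ℝ φ z w) z v =
      fderiv ℝ (fderiv ℝ φ) z v w := by
    intro v w
    have h2 : DifferentiableAt ℝ (fderiv ℝ φ) z :=
      ((hφ.fderiv_right (m := ∞) (by simp)).differentiable (by simp)).differentiableAt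
    rw [fderiv_clm_apply h2 (differentiableAt_const w)]
    simp
  simp only
  rw [h1, h1, hsymm]

theorem wb : S_Wb := by
  intro φ hφ hc
  have hφc := hφ.continuous
  have hφi : Integrable φ := hφc.integrable_of_hasCompactSupport hc
  have key : ∀ (f : ℂ →L[ℝ] ℝ) (v : ℂ), ∫ z, f z * fderiv ℝ φ z v = -(f v * ∫ z, φ z) ∧
      Integrable (fun z => f z * fderiv ℝ φ z v) := by
    intro f v
    have hd := (dphi_cont hφ v).continuous
    have hi : Integrable (fun z => f z * fderiv ℝ φ z v) := by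
      refine Continuous.integrable_of_hasCompactSupport (f.continuous.mul hd) ?_
      exact (hc.fderiv_apply ℝ v).mul_left
    refine ⟨?_, hi⟩
    have h1 := integral_mul_fderiv_eq_neg_fderiv_mul_of_integrable (μ := volume)
      (f := fun z => f z) (g := φ) (v := v) ?_ hi ?_ (fun z _ => f.differentiableAt)
      (fun z _ => (hφ.differentiable (by simp)).differentiableAt)
    · rw [h1]
      congr 1
      rw [← integral_const_mul]
      refine integral_congr_ae (ae_of_all _ fun z => ?_)
      simp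
    · have h2 : (fun z => fderiv ℝ (fun z => f z) z v * φ z) = fun z => f v * φ z := by
        funext z
        simp
      rw [h2]
      exact hφi.const_mul _
    · exact Continuous.integrable_of_hasCompactSupport (f.continuous.mul hφc) hc.mul_left
  have h1 := key Complex.reCLM 1
  have h2 := key Complex.imCLM Complex.I
  simp only [Complex.reCLM_apply, Complex.imCLM_apply, Complex.one_re, Complex.I_im, one_mul]
    at h1 h2
  rw [integral_add h1.2 h2.2, h1.1, h2.1]
  ring

theorem inner_grad (u φ : ℂ → ℝ) (z : ℂ) : ⟪gradient u z, gradient φ z⟫ =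
    fderiv ℝ u z 1 * fderiv ℝ φ z 1 + fderiv ℝ u z Complex.I * fderiv ℝ φ z Complex.I := by
  have h1 : ∀ (f : ℂ → ℝ) (v : ℂ), ⟪gradient f z, v⟫ = fderiv ℝ f z v := by
    intro f v
    unfold gradient
    rw [← InnerProductSpace.toDual_apply_apply (𝕜 := ℝ), LinearIsometryEquiv.apply_symm_apply]
  have h2 : gradient φ z = ((fderiv ℝ φ z 1 : ℝ) : ℂ) * 1 +
      ((fderiv ℝ φ z Complex.I : ℝ) : ℂ) * Complex.I := by
    have hin : ∀ w v : ℂ, ⟪w, v⟫ = w.re * v.re + w.im * v.im := by
      intro w v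
      rw [Complex.inner, Complex.mul_re, Complex.conj_re, Complex.conj_im]
      ring
    have h3 := h1 φ 1
    have h4 := h1 φ Complex.I
    rw [hin] at h3 h4
    simp only [Complex.one_re, Complex.one_im, Complex.I_re, Complex.I_im, mul_one, mul_zero,
      add_zero, zero_add] at h3 h4
    rw [← h3, ← h4]
    apply Complex.ext <;> simp
  rw [h1 u]
  conv_lhs => rw [h2]
  rw [← Complex.real_smul, ← Complex.real_smul, map_add, map_smul, map_smul, smul_eq_mul,
    smul_eq_mul]
  ring

theorem w (ha : S_Wa) (hb : S_Wb) : S_W := by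
  intro σ D Ω Z u S L₁ L₂ hΩ hZ hu hS heq φ hφ hc hsupp
  obtain ⟨St, hSt, hSS⟩ := hS.extend_real
  have hfd : ∀ z ∈ Ω, fderiv ℝ St z = fderiv ℝ S z := by
    intro z hz
    refine Filter.EventuallyEq.fderiv_eq ?_
    filter_upwards [hΩ.mem_nhds hz] with y hy
    exact (hSS hy).symm
  have hzero : ∀ z, z ∉ Ω → ∀ v, fderiv ℝ φ z v = 0 := by
    intro z hz v
    have h1 : z ∉ tsupport φ := fun h => hz (hsupp h)
    have h2 : fderiv ℝ φ z = 0 := by
      by_contra hcon
      exact h1 (support_fderiv_subset ℝ hcon)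
    rw [h2]
    rfl
  have h1 : ∫ z in Ω, coef σ D z * ⟪gradient u z, gradient φ z⟫ =
      ∫ z in Ω, (-(1 / 2) * (z.re * fderiv ℝ φ z 1 + z.im * fderiv ℝ φ z Complex.I) +
        (fderiv ℝ St z Complex.I * fderiv ℝ φ z 1 -
          fderiv ℝ St z 1 * fderiv ℝ φ z Complex.I)) := by
    refine setIntegral_congr_ae hΩ.measurableSet ?_
    filter_upwards [measure_eq_zero_iff_ae_notMem.1 hZ] with z hzZ hzΩ
    obtain ⟨-, -, h2, h3⟩ := heq z hzΩ hzZ
    rw [inner_grad, hfd z hzΩ]
    calc coef σ D z * (fderiv ℝ u z 1 * fderiv ℝ φ z 1 +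
          fderiv ℝ u z Complex.I * fderiv ℝ φ z Complex.I)
        = (coef σ D z * fderiv ℝ u z 1) * fderiv ℝ φ z 1 +
          (coef σ D z * fderiv ℝ u z Complex.I) * fderiv ℝ φ z Complex.I := by ring
      _ = _ := by
        rw [h2, h3]
        ring
  rw [h1, setIntegral_eq_integral_of_forall_compl_eq_zero]
  swap
  · intro z hz
    rw [hzero z hz, hzero z hz]
    ring
  rw [setIntegral_eq_integral_of_forall_compl_eq_zero (f := φ)]
  swap
  · intro z hz
    by_contra hcon
    exact hz (hsupp (subset_tsupport _ hcon))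
  have h2 := ha St L₂ φ hSt hφ hc
  have h3 := hb φ hφ hc
  have hi1 : Integrable (fun z : ℂ => -(1 / 2) * (z.re * fderiv ℝ φ z 1 +
      z.im * fderiv ℝ φ z Complex.I)) := by
    refine Integrable.const_mul (Integrable.add ?_ ?_) _
    · exact Continuous.integrable_of_hasCompactSupport
        (Complex.continuous_re.mul (dphi_cont hφ 1).continuous) (hc.fderiv_apply ℝ 1).mul_left
    · exact Continuous.integrable_of_hasCompactSupport
        (Complex.continuous_im.mul (dphi_cont hφ Complex.I).continuous)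
        (hc.fderiv_apply ℝ Complex.I).mul_left
  have hi2 : Integrable (fun z : ℂ => fderiv ℝ St z Complex.I * fderiv ℝ φ z 1 -
      fderiv ℝ St z 1 * fderiv ℝ φ z Complex.I) :=
    (int_S_phi hSt hφ hc _ _).sub (int_S_phi hSt hφ hc _ _)
  rw [integral_add hi1 hi2, h2, add_zero, integral_const_mul, h3]
  ring

end Pool.Agent.Q79.CV
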